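import Pool.Agent.Y204.LF.Range

/-!
The range of injectivity for Artinian complete intersections in at least five variables: assembly.
-/

open MvPolynomial
open Pool.Agent.W515.SLP (AnnP Deg annP_zero annP_of_gt annP_of_homog lin)
open H503R3.QCI (Homog comp_mul comp_mul_of_lt NZD Reg homog_span isSocleDegree_ci gr mem_gr)
open TH130CI

namespace Pool.Agent.Y204.LF

variable {K : Type*} [Field K]

/-- the numerical hypothesis, `D` the largest degree, `S` the sum of the other `e_i - 1`, and
`e0 ≤ e1 ≤ e2` the smallest degrees -/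
def Num (N e0 e1 e2 D S M : ℕ) : Prop :=
  M < D ∨ (M = D ∧ D ≤ S) ∨ (M = D + 1 ∧ 2 * D + 1 ≤ S ∧ D + 4 ≤ e0 + e1 + e2) ∨
    (4 ≤ N ∧ 2 * M ≤ e0 + e1 + D ∧ 3 ≤ e2)

/-- the case `M = D` -/
theorem range_eq [CharZero K] {n : ℕ} {f : Fin n → MvPolynomial (Fin n) K} {e : Fin n → ℕ}
    (hf : ∀ i, (f i).IsHomogeneous (e i)) (he : ∀ i, 1 ≤ e i) (hreg : Reg f) (t : Fin n)
    (hS : e t ≤ ∑ i ∈ Finset.univ.erase t, (e i - 1)) :
    ∃ q : Fin n → K, ∀ i k : ℕ, i + k ≤ e t → ∀ g : MvPolynomial (Fin n) K,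
      g.IsHomogeneous i → lin q ^ k * g ∈ Ideal.span (Set.range f) →
      g ∈ Ideal.span (Set.range f) := by
  classical
  set I := Ideal.span (Set.range f) with hI
  have hIh : Homog I := homog_span (by rintro _ ⟨i, rfl⟩; exact ⟨e i, hf i⟩)
  have hfin : Module.Finite K (MvPolynomial (Fin n) K ⧸ I) := ci_finite hf he hreg
  have hsr := sreg_of_reg hf he hreg
  set P := Ideal.span (f '' ((Finset.univ.erase t : Finset (Fin n)) : Set (Fin n))) with hP
  have hPh : Homog P := homog_span (by rintro _ ⟨i, _, rfl⟩; exact ⟨e i, hf i⟩)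
  have hPt : NZD P (f t) := hsr _ (Finset.subset_univ _) t (Finset.mem_univ _) (by simp)
  obtain ⟨q0, hq0⟩ := exists_lin_nzd (hf t) (he t) hPt
  obtain ⟨q, hqS, hq⟩ := exists_maxS I (e t) (S := {q | NZD P (lin q)}) ⟨q0, hq0⟩
  refine ⟨q, fun i k hik g hg hgl => ?_⟩
  by_contra hgI
  have hqP : NZD P (lin q) := hqS
  have hgl' : lin q ^ (e t - i) * g ∈ I := by
    have h1 := I.mul_mem_left (lin q ^ (e t - i - k)) hgl
    rwa [← mul_assoc, ← pow_add, show e t - i - k + k = e t - i by omega] at h1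
  obtain ⟨j, b, hj, hb, hbI, hXb⟩ := reduce hIh hfin (openC_nzd P) hqS hq (by omega) hg hgI hgl'
  have hsr' : SRegOn Finset.univ (Function.update f t (lin q)) :=
    sreg_update hf he hsr t (lin_homog q) hqP
  set f' := Function.update f t (lin q) with hf'
  set e' := Function.update e t 1 with he'
  have hf'h : ∀ i, (f' i).IsHomogeneous (e' i) := by
    intro i
    by_cases hi : i = t
    · subst hi
      rw [hf', he', Function.update_self, Function.update_self]
      exact lin_homog q
    · rw [hf', he', Function.update_of_ne hi, Function.update_of_ne hi]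
      exact hf i
  have he'1 : ∀ i, 1 ≤ e' i := by
    intro i
    by_cases hi : i = t
    · subst hi
      rw [he', Function.update_self]
    · rw [he', Function.update_of_ne hi]
      exact he i
  have hIP : I = P ⊔ Ideal.span {f t} := range_eq_sup f t
  have hJP : Ideal.span (Set.range f') = P ⊔ Ideal.span {lin q} := by
    rw [range_eq_sup f' t]
    congr 2
    · apply Set.image_congr
      intro i hi
      rw [hf', Function.update_of_ne]
      rintro rfl
      simp at hi
    · rw [hf', Function.update_self]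
  -- powers of `ℓ` are cancelled modulo `P`
  have hcancel : ∀ (k : ℕ) (x : MvPolynomial (Fin n) K), lin q ^ k * x ∈ P → x ∈ P := by
    intro k
    induction k with
    | zero => intro x hx; rwa [pow_zero, one_mul] at hx
    | succ k ih =>
      intro x hx
      apply ih
      apply hqP
      rwa [← mul_assoc, ← pow_succ']
  have hft : f t ∈ Ideal.span (Set.range f') := by
    have hhom : (lin q ^ k * g).IsHomogeneous (k + i) := by
      have := ((lin_homog q).pow k).mul hg
      rwa [one_mul] at this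
    rw [hIP] at hgl
    rcases sup_comp' hPh (hf t) hhom hgl with ⟨h3, c, hc, h4⟩ | h3
    · have h5 : k + i - e t = 0 := by omega
      rw [h5] at hc
      have h6 : c = C (coeff 0 c) := by
        rw [← totalDegree_eq_zero_iff_eq_C]
        exact Nat.le_zero.mp hc.totalDegree_le
      have hc0 : coeff 0 c ≠ 0 := by
        intro h
        rw [h6, h, map_zero, mul_zero, sub_zero] at h4
        apply hgI
        rw [hIP]
        exact Ideal.mem_sup_left (hcancel k g h4)
      have hk : k ≠ 0 := by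
        rintro rfl
        rw [pow_zero, one_mul, ← hIP] at hgl
        exact hgI hgl
      obtain ⟨k', rfl⟩ := Nat.exists_eq_succ_of_ne_zero hk
      have h7 : f t * c ∈ P ⊔ Ideal.span {lin q} := by
        have h8 : f t * c = lin q ^ (k' + 1) * g - (lin q ^ (k' + 1) * g - f t * c) := by ring
        rw [h8]
        refine Ideal.sub_mem _ (Ideal.mem_sup_right ?_) (Ideal.mem_sup_left h4)
        rw [pow_succ', mul_assoc]
        exact Ideal.mul_mem_right _ _ (Ideal.mem_span_singleton_self _)
      rw [hJP]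
      have h8 := Ideal.mul_mem_right (C (coeff 0 c)⁻¹) _ h7
      have h9 : f t * c * C (coeff 0 c)⁻¹ = f t := by
        have h10 : c * C (coeff 0 c)⁻¹ = 1 := by
          have h11 : c * C (coeff 0 c)⁻¹ = C (coeff 0 c) * C (coeff 0 c)⁻¹ :=
            congrArg (fun x => x * C (coeff 0 c)⁻¹) h6
          rw [h11, ← map_mul, mul_inv_cancel₀ hc0, map_one]
        rw [mul_assoc, h10, mul_one]
      rwa [h9] at h8
    · exfalso
      apply hgI
      rw [hIP]
      exact Ideal.mem_sup_left (hcancel k g h3)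
  have hIJ : I ⊔ Ideal.span {lin q} = Ideal.span (Set.range f') := by
    apply le_antisymm
    · rw [hIP, hJP]
      refine sup_le (sup_le le_sup_left ?_) le_sup_right
      rw [Ideal.span_le, Set.singleton_subset_iff, ← hJP]
      exact hft
    · rw [hIP, hJP]
      exact sup_le_sup_right le_sup_left _
  rw [hIJ] at hbI hXb
  apply hbI
  refine socle_ci _ f' e' hf'h he'1 hsr' rfl j b hb ?_ hXb
  have h2 : ∑ i, (e' i - 1) = ∑ i ∈ Finset.univ.erase t, (e i - 1) := by
    rw [← Finset.add_sum_erase Finset.univ _ (Finset.mem_univ t)]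
    have h3 : e' t - 1 = 0 := by rw [he', Function.update_self]
    rw [h3, zero_add]
    refine Finset.sum_congr rfl fun i hi => ?_
    rw [he', Function.update_of_ne (Finset.ne_of_mem_erase hi)]
  rw [h2]
  omega

lemma succAbove_deg {N : ℕ} {e : Fin (N + 1) → ℕ} (hmono : Monotone e) {t : Fin (N + 1)}
    (ht : e t = e (Fin.last N)) (i : Fin N) : e (t.succAbove i) = e i.castSucc := by
  rcases lt_or_ge i.castSucc t with h | h
  · rw [Fin.succAbove_of_castSucc_lt _ _ h]
  · rw [Fin.succAbove_of_le_castSucc _ _ h]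
    apply le_antisymm
    · have h1 : e i.succ ≤ e (Fin.last N) := hmono (Fin.le_last _)
      have h2 : e t ≤ e i.castSucc := hmono h
      omega
    · exact hmono (Fin.castSucc_lt_succ).le

/-- **The range of injectivity.** -/
theorem inj_range [CharZero K] {N : ℕ} (hN : 3 ≤ N)
    {f : Fin (N + 1) → MvPolynomial (Fin (N + 1)) K} {e : Fin (N + 1) → ℕ}
    (hf : ∀ i, (f i).IsHomogeneous (e i)) (he : ∀ i, 1 ≤ e i) (hmono : Monotone e) (hreg : Reg f)
    {M : ℕ} (hM : Num N (e ⟨0, by omega⟩) (e ⟨1, by omega⟩) (e ⟨2, by omega⟩) (e (Fin.last N))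
      (∑ i : Fin N, (e i.castSucc - 1)) M) :
    ∃ q : Fin (N + 1) → K, ∀ i k : ℕ, i + k ≤ M → ∀ g : MvPolynomial (Fin (N + 1)) K,
      g.IsHomogeneous i → lin q ^ k * g ∈ Ideal.span (Set.range f) →
      g ∈ Ideal.span (Set.range f) := by
  classical
  set e0 := e ⟨0, by omega⟩ with he0
  set e1 := e ⟨1, by omega⟩ with he1
  set e2 := e ⟨2, by omega⟩ with he2
  set D := e (Fin.last N) with hDdef
  set S := ∑ i : Fin N, (e i.castSucc - 1) with hS
  have hD : ∀ i, e i ≤ D := fun i => hmono (Fin.le_last i)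
  have h01 : e0 ≤ e1 := hmono (by rw [Fin.le_def]; exact Nat.zero_le _)
  have h12 : e1 ≤ e2 := hmono (by rw [Fin.le_def]; exact Nat.le_succ _)
  have h0 := he ⟨0, by omega⟩
  have h2D : e2 ≤ D := hD _
  -- the degrees of the remaining generators
  set e' : Fin N → ℕ := fun i => e i.castSucc with he'
  have hmono' : Monotone e' := fun i k hik => hmono (Fin.castSucc_le_castSucc_iff.mpr hik)
  have hem0 : em e' 0 = e0 - 1 := by rw [em, dif_pos (by omega : 0 < N)]; rfl
  have hem1 : em e' 1 = e1 - 1 := by rw [em, dif_pos (by omega : 1 < N)]; rfl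
  have hem2 : em e' 2 = e2 - 1 := by rw [em, dif_pos (by omega : 2 < N)]; rfl
  have hem3 : 4 ≤ N → e2 - 1 ≤ em e' 3 := by
    intro hN4
    rw [em, dif_pos (by omega : 3 < N)]
    have h3 : e2 ≤ e' ⟨3, by omega⟩ := hmono (by rw [Fin.le_def]; change 2 ≤ 3; omega)
    omega
  have hS4 : 4 ≤ N → em e' 0 + em e' 1 + em e' 2 + em e' 3 ≤ S := by
    intro hN4
    have h3 : ∑ i ∈ Finset.range 4, em e' i ≤ ∑ i ∈ Finset.range N, em e' i :=
      Finset.sum_le_sum_of_subset (Finset.range_subset_range.mpr hN4)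
    rw [← sum_em, Finset.sum_range_succ, Finset.sum_range_succ, Finset.sum_range_succ,
      Finset.sum_range_one] at h3
    exact h3
  rcases lt_trichotomy M D with hMD | hMD | hMD
  · exact ci_inj_big he hf hreg (Fin.last N) hMD
  · have hDS : D ≤ S := by
      rcases hM with h | h | h | h
      · omega
      · exact h.2
      · omega
      · omega
    have h3 : ∑ i ∈ Finset.univ.erase (Fin.last N), (e i - 1) = S := by
      have h4 : ∑ i, (e i - 1) = S + (e (Fin.last N) - 1) := Fin.sum_univ_castSucc _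
      rw [← Finset.add_sum_erase Finset.univ _ (Finset.mem_univ (Fin.last N))] at h4
      omega
    rw [hMD]
    exact range_eq hf he hreg (Fin.last N) (by rw [h3]; exact hDS)
  set I := Ideal.span (Set.range f) with hI
  have hIh : Homog I := homog_span (by rintro _ ⟨i, rfl⟩; exact ⟨e i, hf i⟩)
  have hfin : Module.Finite K (MvPolynomial (Fin (N + 1)) K ⧸ I) := ci_finite hf he hreg
  have hsr := sreg_of_reg hf he hreg
  -- the choice of `ℓ`
  let P : Fin (N + 1) → Ideal (MvPolynomial (Fin (N + 1)) K) := fun t =>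
    Ideal.span (f '' ((Finset.univ.erase t : Finset (Fin (N + 1))) : Set (Fin (N + 1))))
  have hPt : ∀ t, NZD (P t) (f t) := fun t =>
    hsr _ (Finset.subset_univ _) t (Finset.mem_univ _) (by simp)
  obtain ⟨hopen, hne⟩ := openC_all (S := fun t => {q : Fin (N + 1) → K | NZD (P t) (lin q)})
    (fun t => openC_nzd (P t)) (fun t => exists_lin_nzd (hf t) (he t) (hPt t))
  obtain ⟨q, hqS, hq⟩ := exists_maxS I M hne
  have hqP : ∀ t, NZD (P t) (lin q) := hqS
  have hsr' : ∀ t, SRegOn Finset.univ (Function.update f t (lin q)) := fun t =>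
    sreg_update hf he hsr t (lin_homog q) (hqP t)
  have hq0 : q ≠ 0 := by
    rintro rfl
    have h3 := hqP (Fin.last N) 1 (by rw [lin_eq, map_zero, zero_mul]; exact Ideal.zero_mem _)
    have h4 := hPt (Fin.last N)
    exact one_notMem (by
      rintro _ ⟨i, _, rfl⟩
      exact ⟨e i, he i, hf i⟩) h3
  refine ⟨q, fun i k hik g hg hgl => ?_⟩
  by_contra hgI
  have hgl' : lin q ^ (M - i) * g ∈ I := by
    have h1 := I.mul_mem_left (lin q ^ (M - i - k)) hgl
    rwa [← mul_assoc, ← pow_add, show M - i - k + k = M - i by omega] at h1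
  obtain ⟨j, b, hj, hb, hbI, hXb⟩ := reduce hIh hfin hopen hqS hq (by omega) hg hgI hgl'
  have hMS : M ≤ S := by
    rcases hM with h | h | h | h <;> omega
  have hσ : M - 1 ≤ ∑ i, (e i - 1) := by
    have h4 : ∑ i, (e i - 1) = S + (e (Fin.last N) - 1) := Fin.sum_univ_castSucc _
    omega
  obtain ⟨a0, ha0, ha0I, hqa0⟩ := exists_a0 hf he hreg hσ k i g (by omega) hg hgI hgl
  obtain ⟨t, c, ht, hc, hcq, hct⟩ := exists_G hf hsr' hD (t0 := Fin.last N) rfl (by omega)
    ha0 ha0I hqa0
  rw [show M - 1 + 1 - D = M - D by omega] at hc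
  obtain ⟨r⟩ := exists_rho hq0
  obtain ⟨hb1, hXb1⟩ := descend r t hbI hXb
  have hdeg : ∀ i, e (t.succAbove i) = e' i := succAbove_deg hmono (by rw [ht])
  have ha : ∀ i : Fin N, (r.ρ (f (t.succAbove i))).IsHomogeneous (e' i) := by
    intro i
    rw [← hdeg i]
    exact r.hom _ _ (hf _)
  have hapos : ∀ i : Fin N, 1 ≤ e' i := fun i => he _
  have hareg : Reg (fun i : Fin N => r.ρ (f (t.succAbove i))) := r.reg (hsr' t)
  have hu : (r.ρ (f t)).IsHomogeneous D := by
    rw [← ht]
    exact r.hom _ _ (hf t)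
  have hbh := r.hom _ _ hb
  have hG : (r.ρ c).IsHomogeneous (M - D) := r.hom _ _ hc
  have hG0 : r.ρ c ≠ 0 := fun h => hcq (r.ker _ h)
  have hGu : r.ρ c * r.ρ (f t) ∈ Ideal.span (Set.range fun i : Fin N => r.ρ (f (t.succAbove i))) := by
    rw [← r.map_eq, ← map_mul]
    exact Ideal.mem_map_of_mem _ hct
  have hJh : Homog (Ideal.span (Set.range fun i : Fin N => r.ρ (f (t.succAbove i)))) :=
    homog_span (by rintro _ ⟨i, rfl⟩; exact ⟨e' i, ha i⟩)
  have hjS : j < ∑ i, (e' i - 1) := by
    change j < S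
    omega
  rcases Nat.lt_or_ge (j + 1) D with hjD | hjD
  · apply hb1
    apply Ideal.mem_sup_left
    refine socle_ci _ _ e' ha hapos (sreg_of_reg ha hapos hareg) rfl j _ hbh hjS fun k => ?_
    rcases sup_comp' hJh hu ((isHomogeneous_X K k).mul hbh) (hXb1 k) with ⟨h3, -⟩ | h3
    · omega
    · exact h3
  have hge2 : ∀ i : Fin N, 2 ≤ i.1 → e2 ≤ e' i := by
    intro i hi
    exact hmono (by rw [Fin.le_def]; exact hi)
  rcases hM with h | h | h | h
  · omega
  · omega
  · -- `M = D + 1`
    rcases Nat.lt_or_ge (j + 1) (D + 1) with hj1 | hj1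
    · have h3 := aci_zero ha hapos hareg hmono' (u := r.ρ (f t)) (b := r.ρ b) (j := j)
        (by rwa [show j + 1 = D by omega]) hbh (fun h => hb1 (Ideal.mem_sup_left h)) hXb1
      have h4 : e0 + e1 ≤ ∑ i ∈ Finset.range (N - 1), em e' i + 2 := by
        have h5 : ∑ i ∈ Finset.range 2, em e' i ≤ ∑ i ∈ Finset.range (N - 1), em e' i :=
          Finset.sum_le_sum_of_subset (Finset.range_subset_range.mpr (by omega))
        rw [Finset.sum_range_succ, Finset.sum_range_one] at h5
        omega
      rcases Nat.lt_or_ge 3 N with hN3 | hN3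
      · have h5 : ∑ i ∈ Finset.range 3, em e' i ≤ ∑ i ∈ Finset.range (N - 1), em e' i :=
          Finset.sum_le_sum_of_subset (Finset.range_subset_range.mpr (by omega))
        rw [Finset.sum_range_succ, Finset.sum_range_succ, Finset.sum_range_one] at h5
        omega
      · have h5 : S ≤ ∑ i ∈ Finset.range 3, em e' i := by
          have h6 : S = ∑ i ∈ Finset.range N, em e' i := sum_em e'
          rw [h6]
          exact Finset.sum_le_sum_of_subset (Finset.range_subset_range.mpr hN3)
        rw [Finset.sum_range_succ, Finset.sum_range_succ, Finset.sum_range_one] at h5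
        omega
    · obtain rfl : j = D := by omega
      rw [h.1, show D + 1 - D = 1 by omega] at hG
      have h3 := eig_case' ha hapos hareg hmono' (by omega) (fun i => hD _)
        (by change 2 * D + 1 ≤ S; exact h.2.1) hu
        (u_notMem ha hapos hareg hjS hbh hb1 hXb1) hG hG0 hGu hbh hb1 hXb1
      rw [Finset.sum_range_succ, Finset.sum_range_succ, Finset.sum_range_one] at h3
      omega
  · rcases Nat.lt_or_ge (j + 1) M with hj1 | hj1
    · refine aciX h.1 ha hapos hareg hmono' (j := j) (j + 1 - D) D (r.ρ (f t)) (r.ρ b) (by omega)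
        hu hbh hb1 hXb1 (fun i hi => ?_) ?_
      · have := hge2 i hi
        omega
      · omega
    · have hjM : j + 1 = M := by omega
      refine aciG h.1 ha hapos hareg hmono' (j := j) (M - D) D (r.ρ (f t)) (r.ρ b) (r.ρ c)
        (by omega) (by omega) hu hbh hb1 hXb1 hG hG0 hGu (fun i hi => ?_) ?_
      · have := hge2 i hi
        omega
      · omega

/-- **Maximal rank in the lowest and the highest degrees.** -/
theorem range_main [CharZero K] {N : ℕ} (hN : 3 ≤ N)
    {f : Fin (N + 1) → MvPolynomial (Fin (N + 1)) K} {e : Fin (N + 1) → ℕ}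
    (hf : ∀ i, (f i).IsHomogeneous (e i)) (he : ∀ i, 1 ≤ e i) (hmono : Monotone e) (hreg : Reg f)
    {M : ℕ} (hM : Num N (e ⟨0, by omega⟩) (e ⟨1, by omega⟩) (e ⟨2, by omega⟩) (e (Fin.last N))
      (∑ i : Fin N, (e i.castSucc - 1)) M) :
    ∃ ℓ : MvPolynomial (Fin (N + 1)) K, ℓ.IsHomogeneous 1 ∧ ∀ i k : ℕ,
      (i + k ≤ M → ∀ g ∈ homogeneousSubmodule (Fin (N + 1)) K i,
        ℓ ^ k * g ∈ Ideal.span (Set.range f) → g ∈ Ideal.span (Set.range f)) ∧
      (∑ j, (e j - 1) ≤ i + M → ∀ h ∈ homogeneousSubmodule (Fin (N + 1)) K (i + k),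
        ∃ g ∈ homogeneousSubmodule (Fin (N + 1)) K i,
          h - ℓ ^ k * g ∈ Ideal.span (Set.range f)) := by
  obtain ⟨q, hq⟩ := inj_range hN hf he hmono hreg hM
  exact full_of_inj he hf hreg hq

end Pool.Agent.Y204.LF
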