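import Pool.Agent.Y204.LF.Unmixed

/-!
The low degree socle of almost complete intersections `R / (J + (u))`.
-/

open MvPolynomial
open Pool.Agent.W515.SLP (AnnP Deg annP_zero annP_of_gt annP_of_homog lin)
open H503R3.QCI (Homog comp_mul comp_mul_of_lt NZD Reg homog_span isSocleDegree_ci gr mem_gr)
open TH130CI

namespace Pool.Agent.Y204.LF

variable {K : Type*} [Field K] {n : ℕ}

/-- exactness of the Koszul complex in degree one, modulo an ideal of depth at least two -/
lemma koszul {I : Ideal (MvPolynomial (Fin n) K)} (hI : Homog I) {q q' : Fin n → K}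
    (hq : NZD I (lin q)) (hq' : NZD (I ⊔ Ideal.span {lin q}) (lin q')) {s : ℕ} (hs : 1 ≤ s)
    {p : Fin n → MvPolynomial (Fin n) K} (hp : ∀ i, (p i).IsHomogeneous s)
    (h : ∀ i k, X k * p i - X i * p k ∈ I) :
    ∃ p' : MvPolynomial (Fin n) K, p'.IsHomogeneous (s - 1) ∧ ∀ i, p i - X i * p' ∈ I := by
  set pL : MvPolynomial (Fin n) K := ∑ k, C (q k) * p k with hpL
  have hpLh : pL.IsHomogeneous s := by
    refine IsHomogeneous.sum _ _ _ fun k _ => ?_
    have := (isHomogeneous_C (Fin n) (q k)).mul (hp k)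
    rwa [zero_add] at this
  have h1 : ∀ i, X i * pL - lin q * p i ∈ I := by
    intro i
    have h2 : X i * pL - lin q * p i = ∑ k, C (q k) * (X i * p k - X k * p i) := by
      rw [hpL, lin, Finset.mul_sum, Finset.sum_mul, ← Finset.sum_sub_distrib]
      refine Finset.sum_congr rfl fun k _ => ?_
      ring
    rw [h2]
    exact Ideal.sum_mem _ fun k _ => Ideal.mul_mem_left _ _ (h k i)
  have h2 : lin q' * pL ∈ I ⊔ Ideal.span {lin q} := by
    have h3 : lin q' * pL = ∑ i, C (q' i) * (X i * pL - lin q * p i) +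
        (∑ i, C (q' i) * p i) * lin q := by
      rw [lin, Finset.sum_mul, Finset.sum_mul, ← Finset.sum_add_distrib]
      refine Finset.sum_congr rfl fun i _ => ?_
      ring
    rw [h3]
    exact Ideal.add_mem _ (Ideal.mem_sup_left (Ideal.sum_mem _ fun i _ =>
      Ideal.mul_mem_left _ _ (h1 i)))
      (Ideal.mem_sup_right (Ideal.mul_mem_left _ _ (Ideal.mem_span_singleton_self _)))
  have h3 := hq' _ h2
  obtain ⟨p', hp', h4⟩ : ∃ p' : MvPolynomial (Fin n) K, p'.IsHomogeneous (s - 1) ∧
      pL - lin q * p' ∈ I := by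
    rcases sup_comp' hI (lin_homog q) hpLh h3 with ⟨_, p', hp', h4⟩ | h4
    · exact ⟨p', hp', h4⟩
    · refine ⟨0, isHomogeneous_zero _ _ _, ?_⟩
      rw [mul_zero, sub_zero]
      exact h4
  refine ⟨p', hp', fun i => ?_⟩
  apply hq
  have h5 : lin q * (p i - X i * p') = X i * (pL - lin q * p') - (X i * pL - lin q * p i) := by
    ring
  rw [h5]
  exact I.sub_mem (Ideal.mul_mem_left _ _ h4) (h1 i)

/-- the same for an ideal generated by a regular sequence -/
lemma koszul_reg [Infinite K] {m : ℕ} (hm : m + 2 ≤ n) {Q : Fin m → MvPolynomial (Fin n) K}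
    {ε : Fin m → ℕ} (hQ : ∀ i, (Q i).IsHomogeneous (ε i)) (hε : ∀ i, 1 ≤ ε i) (hQreg : Reg Q)
    {s : ℕ} (hs : 1 ≤ s) {p : Fin n → MvPolynomial (Fin n) K} (hp : ∀ i, (p i).IsHomogeneous s)
    (h : ∀ i k, X k * p i - X i * p k ∈ Ideal.span (Set.range Q)) :
    ∃ p' : MvPolynomial (Fin n) K, p'.IsHomogeneous (s - 1) ∧
      ∀ i, p i - X i * p' ∈ Ideal.span (Set.range Q) := by
  obtain ⟨q, hq⟩ := exists_lin_of_reg (by omega : m < n) hQ hε hQreg
  have h1 : ∀ i, ((Fin.snoc Q (lin q) : Fin (m + 1) → MvPolynomial (Fin n) K) i).IsHomogeneous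
      ((Fin.snoc ε 1 : Fin (m + 1) → ℕ) i) := by
    intro i
    refine Fin.lastCases ?_ (fun j => ?_) i
    · rw [Fin.snoc_last, Fin.snoc_last]; exact lin_homog q
    · rw [Fin.snoc_castSucc, Fin.snoc_castSucc]; exact hQ j
  have h2 : ∀ i, 1 ≤ (Fin.snoc ε 1 : Fin (m + 1) → ℕ) i := by
    intro i
    refine Fin.lastCases ?_ (fun j => ?_) i
    · rw [Fin.snoc_last]
    · rw [Fin.snoc_castSucc]; exact hε j
  obtain ⟨q', hq'⟩ := exists_lin_of_reg (by omega : m + 1 < n) h1 h2 (reg_snoc hQreg hq)
  rw [range_snoc', Ideal.span_union] at hq'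
  exact koszul (homog_span (by rintro _ ⟨i, rfl⟩; exact ⟨ε i, hQ i⟩)) hq hq' hs hp h

/-- the top component of a divisor of a form divides the form -/
lemma top_dvd {c x : MvPolynomial (Fin n) K} {m : ℕ} (hx : x.IsHomogeneous m) (h : c ∣ x) :
    homogeneousComponent c.totalDegree c ∣ x := by
  by_cases hx0 : x = 0
  · rw [hx0]; exact dvd_zero _
  obtain ⟨y, rfl⟩ := h
  have hc0 : c ≠ 0 := left_ne_zero_of_mul hx0
  have hy0 : y ≠ 0 := right_ne_zero_of_mul hx0
  have h1 : m = c.totalDegree + y.totalDegree := by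
    rw [← totalDegree_mul_of_isDomain hc0 hy0, hx.totalDegree hx0]
  refine ⟨homogeneousComponent y.totalDegree y, ?_⟩
  have h2 : homogeneousComponent m (c * y) = c * y := by
    rw [homogeneousComponent_of_mem hx, if_pos rfl]
  rw [← h2]
  conv_lhs => rw [← sum_homogeneousComponent c, Finset.sum_mul, map_sum]
  rw [Finset.sum_range_succ, Finset.sum_eq_zero, zero_add, h1,
    comp_mul (homogeneousComponent_isHomogeneous _ _)]
  intro i hi
  rw [Finset.mem_range] at hi
  rw [show m = i + (m - i) by omega, comp_mul (homogeneousComponent_isHomogeneous _ _),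
    homogeneousComponent_eq_zero (m - i) y (by omega), mul_zero]

lemma reg_one {c : MvPolynomial (Fin n) K} (hc : c ≠ 0) : Reg (fun _ : Fin 1 => c) := by
  intro i w hw
  have h1 : (fun _ : Fin 1 => c) '' {j | j < i} = ∅ := by
    ext x
    constructor
    · rintro ⟨j, hj, -⟩
      have hj' : j.1 < i.1 := hj
      omega
    · intro h
      exact absurd h (Set.notMem_empty _)
  rw [h1, Ideal.span_empty, Ideal.mem_bot] at hw ⊢
  exact (mul_eq_zero.mp hw).resolve_left hc

lemma span_one (c : MvPolynomial (Fin n) K) :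
    Ideal.span (Set.range fun _ : Fin 1 => c) = Ideal.span {c} := by
  rw [Set.range_const]

lemma exists_p {J : Ideal (MvPolynomial (Fin n) K)} (hJ : Homog J) {δ j s : ℕ} (hδ : δ + s = j + 1)
    {u b : MvPolynomial (Fin n) K} (hu : u.IsHomogeneous δ) (hb : b.IsHomogeneous j)
    (hXb : ∀ i, X i * b ∈ J ⊔ Ideal.span {u}) :
    ∃ p : Fin n → MvPolynomial (Fin n) K, (∀ i, (p i).IsHomogeneous s) ∧
      ∀ i, X i * b - u * p i ∈ J := by
  have h1 : ∀ i, ∃ p : MvPolynomial (Fin n) K, p.IsHomogeneous s ∧ X i * b - u * p ∈ J := by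
    intro i
    have hh : (X i * b).IsHomogeneous (1 + j) := (isHomogeneous_X K i).mul hb
    rcases sup_comp' hJ hu hh (hXb i) with ⟨h2, b', hb', h3⟩ | h2
    · have h4 : 1 + j - δ = s := by omega
      rw [h4] at hb'
      exact ⟨b', hb', h3⟩
    · refine ⟨0, isHomogeneous_zero _ _ _, ?_⟩
      rw [mul_zero, sub_zero]
      exact h2
  choose p hp using h1
  exact ⟨p, fun i => (hp i).1, fun i => (hp i).2⟩

/-- the socle in the degree just below the degree of `u` -/
lemma aci_zero [Infinite K] {a : Fin n → MvPolynomial (Fin n) K} {e : Fin n → ℕ}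
    (ha : ∀ i, (a i).IsHomogeneous (e i)) (he : ∀ i, 1 ≤ e i) (hreg : Reg a) (hmono : Monotone e)
    {j : ℕ} {u b : MvPolynomial (Fin n) K} (hu : u.IsHomogeneous (j + 1)) (hb : b.IsHomogeneous j)
    (hbJ : b ∉ Ideal.span (Set.range a))
    (hXb : ∀ i, X i * b ∈ Ideal.span (Set.range a) ⊔ Ideal.span {u}) :
    ∑ i ∈ Finset.range (n - 1), em e i ≤ j := by
  classical
  have hJh : Homog (Ideal.span (Set.range a)) :=
    homog_span (by rintro _ ⟨i, rfl⟩; exact ⟨e i, ha i⟩)
  obtain ⟨p, hp, hpb⟩ := exists_p hJh (rfl : j + 1 + 0 = j + 1) hu hb hXb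
  have h1 : ∀ i, p i = C (coeff 0 (p i)) := by
    intro i
    rw [← totalDegree_eq_zero_iff_eq_C]
    exact Nat.le_zero.mp (hp i).totalDegree_le
  let T : (Fin n → K) →ₗ[K] K := Fintype.linearCombination K (fun i => coeff 0 (p i))
  have hT : ∀ z, lin z * b - C (T z) * u ∈ Ideal.span (Set.range a) := by
    intro z
    have h2 : lin z * b - C (T z) * u = ∑ i, C (z i) * (X i * b - u * p i) := by
      rw [lin, Finset.sum_mul]
      have h3 : T z = ∑ i, z i * coeff 0 (p i) := by
        simp [T, Fintype.linearCombination_apply]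
      rw [h3, map_sum, Finset.sum_mul, ← Finset.sum_sub_distrib]
      refine Finset.sum_congr rfl fun i _ => ?_
      conv_rhs => rw [h1 i]
      rw [map_mul]
      ring
    rw [h2]
    exact Ideal.sum_mem _ fun i _ => Ideal.mul_mem_left _ _ (hpb i)
  have hker : n - 1 ≤ Module.finrank K (LinearMap.ker T) := by
    have h2 := LinearMap.finrank_range_add_finrank_ker T
    have h3 : Module.finrank K (LinearMap.range T) ≤ 1 := by
      have := Submodule.finrank_le (LinearMap.range T)
      rwa [Module.finrank_self] at this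
    rw [Module.finrank_fin_fun] at h2
    omega
  obtain ⟨y, hy, hyT⟩ := exists_indep hker
  have h2 := bound_sorted ha he hreg hmono (by omega : n - 1 ≤ n)
    (g := fun i => lin (y i)) (ε := fun _ => 1) (fun i => lin_homog _) (fun _ => le_refl 1)
    (reg_lin hy) hb hbJ (fun i => by
      have h3 := hT (y i)
      rwa [LinearMap.mem_ker.mp (hyT i), map_zero, zero_mul, sub_zero] at h3)
  simpa using h2

/-- **Socle lemma for almost complete intersections.** -/
theorem aci [Infinite K] (hn : 3 ≤ n) {a : Fin n → MvPolynomial (Fin n) K} {e : Fin n → ℕ}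
    (ha : ∀ i, (a i).IsHomogeneous (e i)) (he : ∀ i, 1 ≤ e i) (hreg : Reg a) (hmono : Monotone e)
    {j : ℕ} (hj : j < ∑ i, (e i - 1)) (s : ℕ) :
    ∀ (δ : ℕ) (u b : MvPolynomial (Fin n) K), δ + s = j + 1 → u.IsHomogeneous δ →
      b.IsHomogeneous j → b ∉ Ideal.span (Set.range a) ⊔ Ideal.span {u} →
      (∀ i, X i * b ∈ Ideal.span (Set.range a) ⊔ Ideal.span {u}) →
      ∑ i ∈ Finset.range (n - 1), em e i ≤ j ∨ em e 0 + em e 1 ≤ δ + 2 * s := by
  classical
  have hJh : Homog (Ideal.span (Set.range a)) :=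
    homog_span (by rintro _ ⟨i, rfl⟩; exact ⟨e i, ha i⟩)
  have hsoc : ∀ x : MvPolynomial (Fin n) K, x.IsHomogeneous j →
      (∀ i, X i * x ∈ Ideal.span (Set.range a)) → x ∈ Ideal.span (Set.range a) := fun x hx h =>
    socle_ci _ a e ha he (sreg_of_reg ha he hreg) rfl j x hx hj h
  induction s using Nat.strong_induction_on with
  | _ s ih =>
  intro δ u b hδ hu hb hbJ hXb
  have hbJ' : b ∉ Ideal.span (Set.range a) := fun h => hbJ (Ideal.mem_sup_left h)
  have huJ : u ∉ Ideal.span (Set.range a) := by
    intro h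
    apply hbJ'
    have h1 : Ideal.span (Set.range a) ⊔ Ideal.span {u} = Ideal.span (Set.range a) := by
      rw [sup_eq_left, Ideal.span_le, Set.singleton_subset_iff]
      exact h
    apply hsoc b hb
    intro i
    have h2 := hXb i
    rwa [h1] at h2
  rcases Nat.eq_zero_or_pos s with hs0 | hs
  · subst hs0
    left
    rw [add_zero] at hδ
    subst hδ
    exact aci_zero ha he hreg hmono hu hb hbJ' hXb
  obtain ⟨p, hp, hpb⟩ := exists_p hJh hδ hu hb hXb
  set y : Fin n × Fin n → MvPolynomial (Fin n) K := fun x => X x.2 * p x.1 - X x.1 * p x.2 with hy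
  have hyh : ∀ x, (y x).IsHomogeneous (1 + s) := fun x =>
    ((isHomogeneous_X K _).mul (hp _)).sub ((isHomogeneous_X K _).mul (hp _))
  have huy : ∀ x, y x * u ∈ Ideal.span (Set.range a) := by
    intro x
    have h1 := Ideal.sub_mem _ (Ideal.mul_mem_left _ (X x.1) (hpb x.2))
      (Ideal.mul_mem_left _ (X x.2) (hpb x.1))
    have h2 : y x * u = X x.1 * (X x.2 * b - u * p x.2) - X x.2 * (X x.1 * b - u * p x.1) := by
      rw [hy]; ring
    rwa [h2]
  -- a modification of `b`
  have hmod : ∀ p' : MvPolynomial (Fin n) K, p'.IsHomogeneous (s - 1) →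
      (b - u * p').IsHomogeneous j ∧ b - u * p' ∉ Ideal.span (Set.range a) ⊔ Ideal.span {u} := by
    intro p' hp'
    constructor
    · have h1 := hu.mul hp'
      rw [show δ + (s - 1) = j by omega] at h1
      exact hb.sub h1
    · intro h
      apply hbJ
      have h1 := Ideal.add_mem _ h (Ideal.mem_sup_right (S := Ideal.span (Set.range a))
        (Ideal.mul_mem_right p' _ (Ideal.mem_span_singleton_self u)))
      rwa [sub_add_cancel] at h1
  by_cases hall : ∀ x, y x = 0
  · exfalso
    obtain ⟨p', hp', h1⟩ := koszul_reg (m := 0) (by omega) (Q := Fin.elim0) (ε := Fin.elim0)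
      (fun i => i.elim0) (fun i => i.elim0) (fun i => i.elim0) hs hp (fun i k => by
        have h2 := hall (i, k)
        change X k * p i - X i * p k = 0 at h2
        rw [h2]
        exact Ideal.zero_mem _)
    obtain ⟨h2, h3⟩ := hmod p' hp'
    apply h3
    apply Ideal.mem_sup_left
    apply hsoc _ h2
    intro i
    have h4 := h1 i
    rw [Set.range_eq_empty, Ideal.span_empty, Ideal.mem_bot, sub_eq_zero] at h4
    have h5 : X i * (b - u * p') = X i * b - u * p i := by
      rw [h4]; ring
    rw [h5]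
    exact hpb i
  push Not at hall
  obtain ⟨x1, hx1⟩ := hall
  set U : Submodule K (MvPolynomial (Fin n) K) := Submodule.span K (Set.range y) with hU
  have hUh : ∀ z ∈ U, z.IsHomogeneous (1 + s) := by
    intro z hz
    have h1 : U ≤ homogeneousSubmodule (Fin n) K (1 + s) := by
      rw [hU, Submodule.span_le]
      rintro _ ⟨x, rfl⟩
      exact hyh x
    exact h1 hz
  have hUu : ∀ z ∈ U, z * u ∈ Ideal.span (Set.range a) := by
    intro z hz
    have h1 : U ≤ ((Ideal.span (Set.range a)).restrictScalars K).comap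
        (LinearMap.mulRight K u) := by
      rw [hU, Submodule.span_le]
      rintro _ ⟨x, rfl⟩
      exact huy x
    exact h1 hz
  have hreg1 := reg_one hx1
  rcases nzd_or_ass (Ideal.span (Set.range fun _ : Fin 1 => y x1)) U with ⟨y2, hy2, hnz⟩ | hass
  · right
    have h1 := bound_sorted ha he hreg hmono (by omega : 1 + 1 ≤ n)
      (g := Fin.snoc (fun _ : Fin 1 => y x1) y2) (ε := fun _ => 1 + s)
      (by
        intro i
        refine Fin.lastCases ?_ (fun k => ?_) i
        · rw [Fin.snoc_last]; exact hUh _ hy2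
        · rw [Fin.snoc_castSucc]; exact hyh _)
      (fun _ => by omega) (reg_snoc hreg1 hnz) hu huJ
      (by
        intro i
        refine Fin.lastCases ?_ (fun k => ?_) i
        · rw [Fin.snoc_last]; exact hUu _ hy2
        · rw [Fin.snoc_castSucc]; exact huy _)
    have h2 : ∑ _i : Fin (1 + 1), (1 + s - 1) = 2 * s := by
      rw [Finset.sum_const, Finset.card_univ, Fintype.card_fin, smul_eq_mul]
      congr 1
      omega
    rw [h2, Finset.sum_range_succ, Finset.sum_range_one] at h1
    exact h1
  · obtain ⟨w, hw, hUw⟩ := hass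
    rw [span_one] at hw hUw
    obtain ⟨c, b', c', hrel, hc1, hc2⟩ := UniqueFactorizationMonoid.exists_reduced_factors
      (y x1) hx1 w
    have hcd : ∀ z ∈ U, c ∣ z := by
      intro z hz
      have h1 := Ideal.mem_span_singleton.mp (hUw z hz)
      rw [← hc1, ← hc2, mul_left_comm] at h1
      have hc'0 : c' ≠ 0 := by
        rintro rfl
        rw [zero_mul] at hc1
        exact hx1 hc1.symm
      have h2 := (mul_dvd_mul_iff_left hc'0).mp h1
      exact hrel.dvd_of_dvd_mul_right h2
    have hcu : ¬ IsUnit c := by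
      intro hcu
      apply hw
      rw [Ideal.mem_span_singleton, ← hc1, ← hc2]
      exact mul_dvd_mul_left _ (hcu.dvd)
    have hc0 : c ≠ 0 := by
      rintro rfl
      rw [mul_zero] at hc1
      exact hx1 hc1.symm
    set γ := c.totalDegree with hγ
    have hγ1 : 1 ≤ γ := by
      by_contra hcon
      apply hcu
      have h1 : c.totalDegree = 0 := by omega
      rw [totalDegree_eq_zero_iff_eq_C] at h1
      rw [h1]
      have h2 : coeff 0 c ≠ 0 := by
        intro h2
        apply hc0
        rw [h1, h2, map_zero]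
      exact (isUnit_iff_ne_zero.mpr h2).map C
    set c0 := homogeneousComponent γ c with hc0def
    have hc0h : c0.IsHomogeneous γ := homogeneousComponent_isHomogeneous _ _
    have hc0d : ∀ z ∈ U, c0 ∣ z := fun z hz => top_dvd (hUh z hz) (hcd z hz)
    have hyU : ∀ x, y x ∈ U := fun x => Submodule.subset_span ⟨x, rfl⟩
    have hc00 : c0 ≠ 0 := by
      intro h
      have h1 := hc0d _ (hyU x1)
      rw [h, zero_dvd_iff] at h1
      exact hx1 h1
    obtain ⟨p', hp', h1⟩ := koszul_reg (m := 1) (by omega) (Q := fun _ => c0) (ε := fun _ => γ)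
      (fun _ => hc0h) (fun _ => hγ1) (reg_one hc00) hs hp (fun i k => by
        rw [span_one, Ideal.mem_span_singleton]
        exact hc0d _ (hyU (i, k)))
    rw [span_one] at h1
    obtain ⟨h2, h3⟩ := hmod p' hp'
    have h4 : ∀ i, X i * (b - u * p') = (X i * b - u * p i) + u * (p i - X i * p') := by
      intro i
      ring
    rcases Nat.lt_or_ge s γ with hsγ | hsγ
    · exfalso
      apply h3
      apply Ideal.mem_sup_left
      apply hsoc _ h2
      intro i
      have h5 : p i - X i * p' = 0 := by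
        obtain ⟨z, hz⟩ := Ideal.mem_span_singleton.mp (h1 i)
        have h6 : (p i - X i * p').IsHomogeneous s := by
          have h7 := (isHomogeneous_X K i).mul hp'
          rw [show 1 + (s - 1) = s by omega] at h7
          exact (hp i).sub h7
        have h7 : homogeneousComponent s (p i - X i * p') = p i - X i * p' := by
          rw [homogeneousComponent_of_mem h6, if_pos rfl]
        rw [← h7, hz]
        exact comp_mul_of_lt hc0h hsγ
      rw [h4, h5, mul_zero, add_zero]
      exact hpb i
    · have h5 : u * c0 ∈ Ideal.span {u} :=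
        Ideal.mul_mem_right _ _ (Ideal.mem_span_singleton_self u)
      have h6 := ih (s - γ) (by omega) (δ + γ) (u * c0) (b - u * p') (by omega) (hu.mul hc0h) h2
        (fun h => h3 (by
          have h7 : Ideal.span (Set.range a) ⊔ Ideal.span {u * c0} ≤
              Ideal.span (Set.range a) ⊔ Ideal.span {u} := by
            refine sup_le_sup_left ?_ _
            rw [Ideal.span_le, Set.singleton_subset_iff]
            exact h5
          exact h7 h))
        (fun i => by
          rw [h4]
          refine Ideal.add_mem _ (Ideal.mem_sup_left (hpb i)) (Ideal.mem_sup_right ?_)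
          obtain ⟨z, hz⟩ := Ideal.mem_span_singleton.mp (h1 i)
          rw [hz, ← mul_assoc]
          exact Ideal.mul_mem_right _ _ (Ideal.mem_span_singleton_self _))
      rcases h6 with h6 | h6
      · exact Or.inl h6
      · right
        omega

end Pool.Agent.Y204.LF
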