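import Pool.Agent.Y204.LF.Kap

/-!
The socle of almost complete intersections in low degrees, sharp form.
-/

open MvPolynomial
open Pool.Agent.W515.SLP (AnnP Deg annP_zero annP_of_gt annP_of_homog lin)
open H503R3.QCI (Homog comp_mul comp_mul_of_lt NZD Reg homog_span isSocleDegree_ci gr mem_gr)
open TH130CI

namespace Pool.Agent.Y204.LF

variable {K : Type*} [Field K]

/-- reduction to a multiple of `u` -/
theorem step [Infinite K] {n : ℕ} (hn : 4 ≤ n) {a : Fin n → MvPolynomial (Fin n) K}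
    {e : Fin n → ℕ} (ha : ∀ i, (a i).IsHomogeneous (e i)) (he : ∀ i, 1 ≤ e i) (hreg : Reg a)
    (hmono : Monotone e) {j s δ : ℕ} (hs : 1 ≤ s) (hδ : δ + s = j + 1)
    (hj : j < ∑ i, (e i - 1))
    {u b : MvPolynomial (Fin n) K} (hu : u.IsHomogeneous δ) (hb : b.IsHomogeneous j)
    (huJ : u ∉ Ideal.span (Set.range a))
    (hbJ : b ∉ Ideal.span (Set.range a) ⊔ Ideal.span {u})
    (hXb : ∀ i, X i * b ∈ Ideal.span (Set.range a) ⊔ Ideal.span {u})
    {g1 : MvPolynomial (Fin n) K} {ε1 : ℕ} (hg1 : g1.IsHomogeneous ε1) (hε1 : 1 ≤ ε1)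
    (hε2 : ε1 ≤ s + 1) (hg10 : g1 ≠ 0) (hg1u : g1 * u ∈ Ideal.span (Set.range a))
    (he2 : ∀ i : Fin n, 2 ≤ i.1 → s + 2 ≤ e i)
    (hκ : δ + ((ε1 - 1) + s) ≤ em e 0 + em e 1 + 1) :
    ∃ (γ : ℕ) (c b1 : MvPolynomial (Fin n) K), 1 ≤ γ ∧ γ ≤ s ∧ c.IsHomogeneous γ ∧ c ∣ g1 ∧
      b1.IsHomogeneous j ∧ b1 ∉ Ideal.span (Set.range a) ⊔ Ideal.span {u * c} ∧
      ∀ i, X i * b1 ∈ Ideal.span (Set.range a) ⊔ Ideal.span {u * c} := by
  classical
  have hJh : Homog (Ideal.span (Set.range a)) :=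
    homog_span (by rintro _ ⟨i, rfl⟩; exact ⟨e i, ha i⟩)
  have hsoc : ∀ x : MvPolynomial (Fin n) K, x.IsHomogeneous j →
      (∀ i, X i * x ∈ Ideal.span (Set.range a)) → x ∈ Ideal.span (Set.range a) := fun x hx h =>
    socle_ci _ a e ha he (sreg_of_reg ha he hreg) rfl j x hx hj h
  obtain ⟨p, hp, hpb⟩ := exists_p hJh hδ hu hb hXb
  set y : Fin n × Fin n → MvPolynomial (Fin n) K := fun x => X x.2 * p x.1 - X x.1 * p x.2 with hy
  have hyh : ∀ x, (y x).IsHomogeneous (s + 1) := fun x => by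
    have h1 := (((isHomogeneous_X K x.2).mul (hp x.1)).sub ((isHomogeneous_X K x.1).mul (hp x.2)))
    rwa [add_comm 1 s] at h1
  have huy : ∀ x, y x * u ∈ Ideal.span (Set.range a) := by
    intro x
    have h1 := Ideal.sub_mem _ (Ideal.mul_mem_left _ (X x.1) (hpb x.2))
      (Ideal.mul_mem_left _ (X x.2) (hpb x.1))
    have h2 : y x * u = X x.1 * (X x.2 * b - u * p x.2) - X x.2 * (X x.1 * b - u * p x.1) := by
      rw [hy]; ring
    rwa [h2]
  set U : Submodule K (MvPolynomial (Fin n) K) := Submodule.span K (Set.range y) with hU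
  have hUh : ∀ z ∈ U, z.IsHomogeneous (s + 1) := by
    intro z hz
    have h1 : U ≤ homogeneousSubmodule (Fin n) K (s + 1) := by
      rw [hU, Submodule.span_le]
      rintro _ ⟨x, rfl⟩
      exact hyh x
    exact h1 hz
  have hUu : ∀ z ∈ U, z * u ∈ Ideal.span (Set.range a) := by
    intro z hz
    have h1 : U ≤ ((Ideal.span (Set.range a)).restrictScalars K).comap
        (LinearMap.mulRight K u) := by
      rw [hU, Submodule.span_le]
      rintro _ ⟨x, rfl⟩
      exact huy x
    exact h1 hz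
  have hreg1 := reg_one hg10
  rcases nzd_or_ass (Ideal.span (Set.range fun _ : Fin 1 => g1)) U with ⟨y2, hy2, hnz⟩ | hass
  · exfalso
    refine kappa hn ha he hreg hmono hs hδ hu hb huJ hbJ hp hpb
      (g := Fin.snoc (fun _ : Fin 1 => g1) y2) (ε := Fin.snoc (fun _ : Fin 1 => ε1) (s + 1))
      (fun i => ?_) (fun i => ?_) (fun i => ?_) (reg_snoc hreg1 hnz) (fun i => ?_) he2 ?_
    · refine Fin.lastCases ?_ (fun k => ?_) i
      · rw [Fin.snoc_last, Fin.snoc_last]; exact hUh _ hy2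
      · rw [Fin.snoc_castSucc, Fin.snoc_castSucc]; exact hg1
    · refine Fin.lastCases ?_ (fun k => ?_) i
      · rw [Fin.snoc_last]; omega
      · rw [Fin.snoc_castSucc]; exact hε1
    · refine Fin.lastCases ?_ (fun k => ?_) i
      · rw [Fin.snoc_last]
      · rw [Fin.snoc_castSucc]; exact hε2
    · refine Fin.lastCases ?_ (fun k => ?_) i
      · rw [Fin.snoc_last]; exact hUu _ hy2
      · rw [Fin.snoc_castSucc]; exact hg1u
    · have h1 : ∑ i : Fin (1 + 1), ((Fin.snoc (fun _ : Fin 1 => ε1) (s + 1) : Fin (1 + 1) → ℕ) i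
          - 1) = (ε1 - 1) + s := by
        rw [Fin.sum_univ_castSucc]
        simp only [Fin.snoc_castSucc, Fin.snoc_last]
        simp
      change δ + ∑ i : Fin (1 + 1), ((Fin.snoc (fun _ : Fin 1 => ε1) (s + 1) :
        Fin (1 + 1) → ℕ) i - 1) ≤ _
      rw [h1]
      exact hκ
  · obtain ⟨w, hw, hUw⟩ := hass
    rw [span_one] at hw hUw
    obtain ⟨c, b', c', hrel, hc1, hc2⟩ := UniqueFactorizationMonoid.exists_reduced_factors
      g1 hg10 w
    have hc'0 : c' ≠ 0 := by
      rintro rfl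
      rw [zero_mul] at hc1
      exact hg10 hc1.symm
    have hcd : ∀ z ∈ U, c ∣ z := by
      intro z hz
      have h1 := Ideal.mem_span_singleton.mp (hUw z hz)
      rw [← hc1, ← hc2, mul_left_comm] at h1
      have h2 := (mul_dvd_mul_iff_left hc'0).mp h1
      exact hrel.dvd_of_dvd_mul_right h2
    have hcu : ¬ IsUnit c := by
      intro hcu
      apply hw
      rw [Ideal.mem_span_singleton, ← hc1, ← hc2]
      exact mul_dvd_mul_left _ (hcu.dvd)
    have hc0 : c ≠ 0 := by
      rintro rfl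
      rw [mul_zero] at hc1
      exact hg10 hc1.symm
    set γ := c.totalDegree with hγ
    have hγ1 : 1 ≤ γ := nonunit_degree hc0 hcu
    set c0 := homogeneousComponent γ c with hc0def
    have hc0h : c0.IsHomogeneous γ := homogeneousComponent_isHomogeneous _ _
    have hc0d : ∀ z ∈ U, c0 ∣ z := fun z hz => top_dvd (hUh z hz) (hcd z hz)
    have hc0g : c0 ∣ g1 := top_dvd hg1 ⟨c', by rw [← hc1, mul_comm]⟩
    have hyU : ∀ x, y x ∈ U := fun x => Submodule.subset_span ⟨x, rfl⟩
    have hc00 : c0 ≠ 0 := by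
      intro h
      rw [h, zero_dvd_iff] at hc0g
      exact hg10 hc0g
    obtain ⟨p', hp', h1⟩ := koszul_reg (m := 1) (by omega) (Q := fun _ => c0) (ε := fun _ => γ)
      (fun _ => hc0h) (fun _ => hγ1) (reg_one hc00) hs hp (fun i k => by
        rw [span_one, Ideal.mem_span_singleton]
        exact hc0d _ (hyU (i, k)))
    rw [span_one] at h1
    have h2 : (b - u * p').IsHomogeneous j := by
      have h1 := hu.mul hp'
      rw [show δ + (s - 1) = j by omega] at h1
      exact hb.sub h1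
    have h3 : b - u * p' ∉ Ideal.span (Set.range a) ⊔ Ideal.span {u} := by
      intro h
      apply hbJ
      have h1 := Ideal.add_mem _ h (Ideal.mem_sup_right (S := Ideal.span (Set.range a))
        (Ideal.mul_mem_right p' _ (Ideal.mem_span_singleton_self u)))
      rwa [sub_add_cancel] at h1
    have h4 : ∀ i, X i * (b - u * p') = (X i * b - u * p i) + u * (p i - X i * p') := by
      intro i
      ring
    rcases Nat.lt_or_ge s γ with hsγ | hsγ
    · exfalso
      apply h3
      apply Ideal.mem_sup_left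
      apply hsoc _ h2
      intro i
      have h5 : p i - X i * p' = 0 := by
        obtain ⟨z, hz⟩ := Ideal.mem_span_singleton.mp (h1 i)
        have h6 : (p i - X i * p').IsHomogeneous s := by
          have h7 := (isHomogeneous_X K i).mul hp'
          rw [show 1 + (s - 1) = s by omega] at h7
          exact (hp i).sub h7
        have h7 : homogeneousComponent s (p i - X i * p') = p i - X i * p' := by
          rw [homogeneousComponent_of_mem h6, if_pos rfl]
        rw [← h7, hz]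
        exact comp_mul_of_lt hc0h hsγ
      rw [h4, h5, mul_zero, add_zero]
      exact hpb i
    · have h5 : u * c0 ∈ Ideal.span {u} :=
        Ideal.mul_mem_right _ _ (Ideal.mem_span_singleton_self u)
      refine ⟨γ, c0, b - u * p', hγ1, hsγ, hc0h, hc0g, h2, ?_, ?_⟩
      · intro h
        apply h3
        have h7 : Ideal.span (Set.range a) ⊔ Ideal.span {u * c0} ≤
            Ideal.span (Set.range a) ⊔ Ideal.span {u} := by
          refine sup_le_sup_left ?_ _
          rw [Ideal.span_le, Set.singleton_subset_iff]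
          exact h5
        exact h7 h
      · intro i
        rw [h4]
        refine Ideal.add_mem _ (Ideal.mem_sup_left (hpb i)) (Ideal.mem_sup_right ?_)
        obtain ⟨z, hz⟩ := Ideal.mem_span_singleton.mp (h1 i)
        rw [hz, ← mul_assoc]
        exact Ideal.mul_mem_right _ _ (Ideal.mem_span_singleton_self _)

lemma em_two {n : ℕ} (hn : 4 ≤ n) {e : Fin n → ℕ} {s : ℕ}
    (he2 : ∀ i : Fin n, 2 ≤ i.1 → s + 2 ≤ e i) :
    em e 0 + em e 1 + (s + 1) ≤ ∑ i ∈ Finset.range (n - 1), em e i := by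
  have h1 : ∑ i ∈ Finset.range 3, em e i ≤ ∑ i ∈ Finset.range (n - 1), em e i :=
    Finset.sum_le_sum_of_subset (Finset.range_subset_range.mpr (by omega))
  rw [Finset.sum_range_succ, Finset.sum_range_succ, Finset.sum_range_one] at h1
  have h2 : s + 1 ≤ em e 2 := by
    rw [em, dif_pos (by omega : 2 < n)]
    have := he2 ⟨2, by omega⟩ (le_refl 2)
    omega
  omega

lemma em_lt {n : ℕ} (hn : 4 ≤ n) {e : Fin n → ℕ} {s : ℕ}
    (he2 : ∀ i : Fin n, 2 ≤ i.1 → s + 2 ≤ e i) :
    em e 0 + em e 1 + (s + 1) ≤ ∑ i, (e i - 1) := by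
  rw [sum_em]
  exact (em_two hn he2).trans
    (Finset.sum_le_sum_of_subset (Finset.range_subset_range.mpr (by omega)))

/-- `u` is not in `J` -/
lemma u_notMem [Infinite K] {n : ℕ} {a : Fin n → MvPolynomial (Fin n) K}
    {e : Fin n → ℕ} (ha : ∀ i, (a i).IsHomogeneous (e i)) (he : ∀ i, 1 ≤ e i) (hreg : Reg a)
    {j : ℕ} (hj : j < ∑ i, (e i - 1)) {u b : MvPolynomial (Fin n) K} (hb : b.IsHomogeneous j)
    (hbJ : b ∉ Ideal.span (Set.range a) ⊔ Ideal.span {u})
    (hXb : ∀ i, X i * b ∈ Ideal.span (Set.range a) ⊔ Ideal.span {u}) :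
    u ∉ Ideal.span (Set.range a) := by
  intro h
  have h1 : Ideal.span (Set.range a) ⊔ Ideal.span {u} = Ideal.span (Set.range a) := by
    rw [sup_eq_left, Ideal.span_le, Set.singleton_subset_iff]
    exact h
  rw [h1] at hbJ hXb
  exact hbJ (socle_ci _ a e ha he (sreg_of_reg ha he hreg) rfl j b hb hj hXb)

/-- **Socle lemma, without annihilator.** -/
theorem aciX [Infinite K] {n : ℕ} (hn : 4 ≤ n) {a : Fin n → MvPolynomial (Fin n) K}
    {e : Fin n → ℕ} (ha : ∀ i, (a i).IsHomogeneous (e i)) (he : ∀ i, 1 ≤ e i) (hreg : Reg a)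
    (hmono : Monotone e) {j : ℕ} (s : ℕ) :
    ∀ (δ : ℕ) (u b : MvPolynomial (Fin n) K), δ + s = j + 1 → u.IsHomogeneous δ →
      b.IsHomogeneous j → b ∉ Ideal.span (Set.range a) ⊔ Ideal.span {u} →
      (∀ i, X i * b ∈ Ideal.span (Set.range a) ⊔ Ideal.span {u}) →
      (∀ i : Fin n, 2 ≤ i.1 → s + 2 ≤ e i) → j + s ≤ em e 0 + em e 1 → False := by
  classical
  have hJh : Homog (Ideal.span (Set.range a)) :=
    homog_span (by rintro _ ⟨i, rfl⟩; exact ⟨e i, ha i⟩)
  induction s using Nat.strong_induction_on with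
  | _ s ih =>
  intro δ u b hδ hu hb hbJ hXb he2 hjs
  have hlt := em_lt hn he2
  have hjS : j < ∑ i, (e i - 1) := by omega
  have huJ := u_notMem ha he hreg hjS hb hbJ hXb
  rcases Nat.eq_zero_or_pos s with hs0 | hs
  · subst hs0
    rw [add_zero] at hδ
    subst hδ
    have h1 := aci_zero ha he hreg hmono hu hb (fun h => hbJ (Ideal.mem_sup_left h)) hXb
    have h2 := em_two hn he2
    omega
  obtain ⟨p, hp, hpb⟩ := exists_p hJh hδ hu hb hXb
  by_cases hall : ∀ i k, X k * p i - X i * p k = 0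
  · obtain ⟨p', hp', h1⟩ := koszul_reg (m := 0) (by omega) (Q := Fin.elim0) (ε := Fin.elim0)
      (fun i => i.elim0) (fun i => i.elim0) (fun i => i.elim0) hs hp (fun i k => by
        rw [hall i k]
        exact Ideal.zero_mem _)
    have h2 : (b - u * p').IsHomogeneous j := by
      have h1 := hu.mul hp'
      rw [show δ + (s - 1) = j by omega] at h1
      exact hb.sub h1
    apply hbJ
    have h3 : b - u * p' ∈ Ideal.span (Set.range a) := by
      apply socle_ci _ a e ha he (sreg_of_reg ha he hreg) rfl j _ h2 hjS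
      intro i
      have h4 := h1 i
      rw [Set.range_eq_empty, Ideal.span_empty, Ideal.mem_bot, sub_eq_zero] at h4
      have h5 : X i * (b - u * p') = X i * b - u * p i := by
        rw [h4]; ring
      rw [h5]
      exact hpb i
    have h4 : b = (b - u * p') + u * p' := by ring
    rw [h4]
    exact Ideal.add_mem _ (Ideal.mem_sup_left h3)
      (Ideal.mem_sup_right (Ideal.mul_mem_right _ _ (Ideal.mem_span_singleton_self u)))
  push Not at hall
  obtain ⟨i, k, hik⟩ := hall
  have hg1 : (X k * p i - X i * p k).IsHomogeneous (s + 1) := by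
    have h1 := (((isHomogeneous_X K k).mul (hp i)).sub ((isHomogeneous_X K i).mul (hp k)))
    rwa [add_comm 1 s] at h1
  have hg1u : (X k * p i - X i * p k) * u ∈ Ideal.span (Set.range a) := by
    have h1 := Ideal.sub_mem _ (Ideal.mul_mem_left _ (X i) (hpb k))
      (Ideal.mul_mem_left _ (X k) (hpb i))
    have h2 : (X k * p i - X i * p k) * u =
        X i * (X k * b - u * p k) - X k * (X i * b - u * p i) := by ring
    rwa [h2]
  obtain ⟨γ, c, b1, hγ1, hγs, hc, -, hb1, hb1J, hXb1⟩ := step hn ha he hreg hmono hs hδ hjS hu hb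
    huJ hbJ hXb hg1 (by omega) (le_refl _) hik hg1u he2 (by omega)
  exact ih (s - γ) (by omega) (δ + γ) (u * c) b1 (by omega) (hu.mul hc) hb1 hb1J hXb1
    (fun i hi => by have := he2 i hi; omega) (by omega)

/-- **Socle lemma, with an annihilator of degree `s`.** -/
theorem aciG [Infinite K] {n : ℕ} (hn : 4 ≤ n) {a : Fin n → MvPolynomial (Fin n) K}
    {e : Fin n → ℕ} (ha : ∀ i, (a i).IsHomogeneous (e i)) (he : ∀ i, 1 ≤ e i) (hreg : Reg a)
    (hmono : Monotone e) {j : ℕ} (s : ℕ) :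
    ∀ (δ : ℕ) (u b G : MvPolynomial (Fin n) K), 1 ≤ s → δ + s = j + 1 → u.IsHomogeneous δ →
      b.IsHomogeneous j → b ∉ Ideal.span (Set.range a) ⊔ Ideal.span {u} →
      (∀ i, X i * b ∈ Ideal.span (Set.range a) ⊔ Ideal.span {u}) →
      G.IsHomogeneous s → G ≠ 0 → G * u ∈ Ideal.span (Set.range a) →
      (∀ i : Fin n, 2 ≤ i.1 → s + 2 ≤ e i) → j + s ≤ em e 0 + em e 1 + 1 → False := by
  classical
  induction s using Nat.strong_induction_on with
  | _ s ih =>
  intro δ u b G hs hδ hu hb hbJ hXb hG hG0 hGu he2 hjs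
  have hlt := em_lt hn he2
  have hjS : j < ∑ i, (e i - 1) := by omega
  have huJ := u_notMem ha he hreg hjS hb hbJ hXb
  obtain ⟨γ, c, b1, hγ1, hγs, hc, hcG, hb1, hb1J, hXb1⟩ := step hn ha he hreg hmono hs hδ hjS hu
    hb huJ hbJ hXb hG hs (by omega) hG0 hGu he2 (by omega)
  obtain ⟨G', rfl⟩ := hcG
  have hc0 : c ≠ 0 := left_ne_zero_of_mul hG0
  have hG'0 : G' ≠ 0 := right_ne_zero_of_mul hG0
  have hG'h := homog_cofactor hc hc0 hγs hG
  have hG'u : G' * (u * c) ∈ Ideal.span (Set.range a) := by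
    have h1 : G' * (u * c) = c * G' * u := by ring
    rwa [h1]
  rcases Nat.eq_zero_or_pos (s - γ) with h0 | hpos
  · have hunit : IsUnit G' := by
      by_contra hu'
      have := nonunit_degree hG'0 hu'
      rw [hG'h.totalDegree hG'0] at this
      omega
    obtain ⟨v, hv⟩ := hunit
    apply u_notMem ha he hreg hjS hb1 hb1J hXb1
    have h1 := Ideal.mul_mem_left _ (v⁻¹ : (MvPolynomial (Fin n) K)ˣ).1 hG'u
    rwa [← hv, ← mul_assoc, Units.inv_mul, one_mul] at h1
  · exact ih (s - γ) (by omega) (δ + γ) (u * c) b1 G' hpos (by omega) (hu.mul hc) hb1 hb1J hXb1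
      hG'h hG'0 hG'u (fun i hi => by have := he2 i hi; omega) (by omega)

end Pool.Agent.Y204.LF
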