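import Pool.Agent.TH130.CI.Gen
import Pool.Agent.TH130.CI.Bc
import Pool.Agent.TH130.CI.Cb

/-!
Nonzerodivisors inside a space of forms, independent linear forms, and the extension of a sequence
of independent linear forms to a full regular sequence by forms of a given degree.
-/

open MvPolynomial
open Pool.Agent.W515.SLP (AnnP Deg annP_zero annP_of_gt annP_of_homog lin)
open H503R3.QCI (Homog comp_mul comp_mul_of_lt NZD Reg homog_span isSocleDegree_ci gr mem_gr)
open TH130CI

namespace Pool.Agent.Y204.LF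

variable {K : Type*} [Field K] {n : ℕ}

/-- a nonzerodivisor in a space `U` of polynomials, outside a given subspace `H` -/
theorem exists_nzd_mem [Infinite K] {J : Ideal (MvPolynomial (Fin n) K)}
    (hdep : ∀ w, (∀ i, X i * w ∈ J) → w ∈ J)
    {U : Submodule K (MvPolynomial (Fin n) K)}
    (hU : ∀ P : Ideal (MvPolynomial (Fin n) K), P.IsPrime → J ≤ P → (∀ u ∈ U, u ∈ P) →
      ∀ i, X i ∈ P)
    {H : Submodule K (MvPolynomial (Fin n) K)} (hH : ¬ U ≤ H) :
    ∃ c ∈ U, NZD J c ∧ c ∉ H := by
  classical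
  have hfin := associatedPrimes.finite (MvPolynomial (Fin n) K) (MvPolynomial (Fin n) K ⧸ J)
  have hun := biUnion_associatedPrimes_eq_zero_divisors (MvPolynomial (Fin n) K)
    (MvPolynomial (Fin n) K ⧸ J)
  let Vp : Ideal (MvPolynomial (Fin n) K) → Submodule K U :=
    fun p => (p.restrictScalars K).comap U.subtype
  let s : Finset (Submodule K U) := insert (H.comap U.subtype) (hfin.toFinset.image Vp)
  have hs : (⊤ : Submodule K U) ∉ s := by
    intro htop
    rcases Finset.mem_insert.mp htop with htop | htop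
    · apply hH
      intro u hu
      have h1 : (⟨u, hu⟩ : U) ∈ H.comap U.subtype := by rw [← htop]; exact Submodule.mem_top
      exact h1
    · obtain ⟨p, hp, hpt⟩ := Finset.mem_image.mp htop
      rw [Set.Finite.mem_toFinset] at hp
      obtain ⟨hprime, x, hx⟩ := (isAssociatedPrime_iff).mp hp
      obtain ⟨w, rfl⟩ := Ideal.Quotient.mk_surjective x
      have hmem : ∀ r, r ∈ p ↔ r * w ∈ J := by
        intro r
        rw [hx, Submodule.mem_colon_singleton, Submodule.mem_bot]
        have : r • Ideal.Quotient.mk J w = Ideal.Quotient.mk J (r * w) := rfl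
        rw [this, Ideal.Quotient.eq_zero_iff_mem]
      have hJp : J ≤ p := fun r hr => (hmem r).mpr (J.mul_mem_right _ hr)
      have hUp : ∀ u ∈ U, u ∈ p := by
        intro u hu
        have h1 : (⟨u, hu⟩ : U) ∈ Vp p := by rw [hpt]; exact Submodule.mem_top
        exact h1
      have hX := hU p hprime hJp hUp
      have hw : w ∈ J := hdep w fun i => (hmem _).mp (hX i)
      apply hprime.ne_top
      rw [Ideal.eq_top_iff_one, hmem, one_mul]
      exact hw
  have hne := Subspace.biUnion_ne_univ_of_top_notMem hs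
  obtain ⟨c, hc⟩ := (Set.ne_univ_iff_exists_notMem _).mp hne
  refine ⟨c, c.2, ?_, ?_⟩
  · intro g hg
    by_contra hgJ
    have h1 : (c : MvPolynomial (Fin n) K) ∈
        {r : MvPolynomial (Fin n) K | ∃ x : MvPolynomial (Fin n) K ⧸ J, x ≠ 0 ∧ r • x = 0} := by
      refine ⟨Ideal.Quotient.mk J g, ?_, ?_⟩
      · rwa [Ne, Ideal.Quotient.eq_zero_iff_mem]
      · have h2 : Ideal.Quotient.mk J (c * g) = 0 := Ideal.Quotient.eq_zero_iff_mem.mpr hg
        exact h2
    rw [← hun] at h1
    obtain ⟨p, hp, hqp⟩ := Set.mem_iUnion₂.mp h1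
    apply hc
    refine Set.mem_biUnion (x := Vp p) ?_ ?_
    · exact Finset.mem_coe.mpr (Finset.mem_insert_of_mem (Finset.mem_image.mpr
        ⟨p, (Set.Finite.mem_toFinset _).mpr hp, rfl⟩))
    · exact hqp
  · intro hcH
    apply hc
    refine Set.mem_biUnion (x := H.comap U.subtype) ?_ hcH
    exact Finset.mem_coe.mpr (Finset.mem_insert_self _ _)

lemma lin_eq (q : Fin n → K) : (lin q : MvPolynomial (Fin n) K) = linL K n q := rfl

/-- a linear form outside a space of linear forms is a nonzerodivisor modulo that space -/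
lemma nzd_lin {S : Set (Fin n → K)} {q : Fin n → K} (hq : q ∉ Submodule.span K S) :
    NZD (Ideal.span ((fun v => (lin v : MvPolynomial (Fin n) K)) '' S)) (lin q) := by
  classical
  set I := Ideal.span ((fun v => (lin v : MvPolynomial (Fin n) K)) '' S) with hI
  let V : Submodule K (Fin n → K) := Submodule.span K S
  obtain ⟨s, hs⟩ := V.mkQ.exists_rightInverse_of_surjective (LinearMap.range_eq_top.mpr
    V.mkQ_surjective)
  let π : (Fin n → K) →ₗ[K] (Fin n → K) := s ∘ₗ V.mkQ
  have hQ : ∀ u, V.mkQ (π u) = V.mkQ u := fun u => LinearMap.congr_fun hs (V.mkQ u)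
  have hVI : ∀ u ∈ V, linL K n u ∈ I := by
    intro u hu
    have h1 : V ≤ (I.restrictScalars K).comap (linL K n) := by
      rw [Submodule.span_le]
      intro v hv
      exact Ideal.subset_span ⟨v, hv, rfl⟩
    exact h1 hu
  let ρ : MvPolynomial (Fin n) K →ₐ[K] MvPolynomial (Fin n) K :=
    aeval fun j => linL K n (π (Pi.single j 1))
  have hρ : ∀ u, ρ (linL K n u) = linL K n (π u) := by
    intro u
    have h1 : ρ.toLinearMap ∘ₗ linL K n = linL K n ∘ₗ π := by
      apply LinearMap.pi_ext'
      intro j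
      apply LinearMap.ext_ring
      change ρ (linL K n (Pi.single j 1)) = linL K n (π (Pi.single j 1))
      rw [linL_single, aeval_X]
    exact LinearMap.congr_fun h1 u
  have hker : ∀ x ∈ I, ρ x = 0 := by
    intro x hx
    have h1 : I ≤ RingHom.ker ρ := by
      rw [hI, Ideal.span_le]
      rintro _ ⟨v, hv, rfl⟩
      change ρ (linL K n v) = 0
      rw [hρ]
      have h2 : V.mkQ v = 0 :=
        (Submodule.Quotient.mk_eq_zero V).mpr (Submodule.subset_span hv)
      have h3 : π v = 0 := by
        change s (V.mkQ v) = 0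
        rw [h2, map_zero]
      rw [h3, map_zero]
    exact h1 hx
  have hsub : ∀ x, x - ρ x ∈ I := by
    intro x
    have h1 : (Ideal.Quotient.mkₐ K I).comp ρ = Ideal.Quotient.mkₐ K I := by
      apply algHom_ext
      intro j
      rw [AlgHom.comp_apply, aeval_X]
      symm
      change Ideal.Quotient.mk I (X j) = Ideal.Quotient.mk I _
      rw [Ideal.Quotient.mk_eq_mk_iff_sub_mem, ← linL_single, ← map_sub]
      apply hVI
      rw [← Submodule.Quotient.mk_eq_zero V]
      change V.mkQ _ = 0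
      rw [map_sub, hQ, sub_self]
    have h2 := AlgHom.congr_fun h1 x
    have h3 : Ideal.Quotient.mk I x = Ideal.Quotient.mk I (ρ x) := h2.symm
    exact (Ideal.Quotient.mk_eq_mk_iff_sub_mem _ _).mp h3
  intro w hw
  have h1 := hker _ hw
  rw [lin_eq, map_mul, hρ, mul_eq_zero] at h1
  rcases h1 with h1 | h1
  · exfalso
    apply hq
    have h2 : π q = 0 := by
      ext i
      rw [← coeff_linL (π q), h1, coeff_zero, Pi.zero_apply]
    have h3 := hQ q
    rw [h2, map_zero] at h3
    exact (Submodule.Quotient.mk_eq_zero V).mp h3.symm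
  · have := hsub w
    rwa [h1, sub_zero] at this

/-- independent linear forms form a regular sequence -/
lemma reg_lin {m : ℕ} {y : Fin m → Fin n → K} (hy : LinearIndependent K y) :
    Reg (fun i => (lin (y i) : MvPolynomial (Fin n) K)) := by
  intro i
  have h1 : y i ∉ Submodule.span K (y '' {j | j < i}) :=
    hy.notMem_span_image (by simp)
  have h2 := nzd_lin h1
  rw [← Set.image_comp] at h2
  exact h2

/-- linear forms extend by forms of degree `D` of an ideal to full regular sequences -/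
theorem extend_reg [Infinite K] {J : Ideal (MvPolynomial (Fin n) K)} {D : ℕ} (hD : 1 ≤ D)
    (hJ : ∀ P : Ideal (MvPolynomial (Fin n) K), P.IsPrime → (∀ u ∈ gr J D, u ∈ P) → ∀ i, X i ∈ P)
    {m : ℕ} {y : Fin m → Fin n → K} (hy : LinearIndependent K y) :
    ∀ k, m + k ≤ n → ∃ (p : ℕ) (_ : p = m + k) (F : Fin p → MvPolynomial (Fin n) K)
      (e : Fin p → ℕ), Reg F ∧ (∀ i, (F i).IsHomogeneous (e i)) ∧ (∀ i, 1 ≤ e i) ∧
      ∑ i, (e i - 1) = k * (D - 1) ∧
      (∀ i, F i ∈ J ⊔ Ideal.span (Set.range fun i => (lin (y i) : MvPolynomial (Fin n) K))) := by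
  classical
  intro k
  induction k with
  | zero =>
    intro _
    refine ⟨m, rfl, fun i => lin (y i), fun _ => 1, reg_lin hy, fun i => lin_homog _,
      fun _ => le_refl 1, by simp, fun i => Ideal.mem_sup_right (Ideal.subset_span ⟨i, rfl⟩)⟩
  | succ k ih =>
    intro hk
    obtain ⟨p, hp, F, e, hF, hFe, he, hsum, hmem⟩ := ih (by omega)
    have hpn : p < n := by omega
    have hdep : ∀ w, (∀ i, X i * w ∈ Ideal.span (Set.range F)) → w ∈ Ideal.span (Set.range F) :=
      no_socle hpn _ F e hFe he (sreg_of_reg hFe he hF) rfl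
    have hne : ¬ gr J D ≤ ⊥ := by
      intro hle
      have h1 := hJ ⊥ Ideal.isPrime_bot (fun u hu => by
        have := hle hu
        rwa [Submodule.mem_bot] at this) ⟨0, by omega⟩
      rw [Ideal.mem_bot] at h1
      exact X_ne_zero _ h1
    obtain ⟨c, hcU, hc, -⟩ := exists_nzd_mem hdep (U := gr J D)
      (fun P hP _ h i => hJ P hP h i) hne
    obtain ⟨hcJ, hcD⟩ := mem_gr.mp hcU
    refine ⟨p + 1, by omega, Fin.snoc F c, Fin.snoc e D, reg_snoc hF hc, ?_, ?_, ?_, ?_⟩
    · intro i
      refine Fin.lastCases ?_ (fun j => ?_) i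
      · rw [Fin.snoc_last, Fin.snoc_last]; exact hcD
      · rw [Fin.snoc_castSucc, Fin.snoc_castSucc]; exact hFe j
    · intro i
      refine Fin.lastCases ?_ (fun j => ?_) i
      · rw [Fin.snoc_last]; exact hD
      · rw [Fin.snoc_castSucc]; exact he j
    · rw [Fin.sum_univ_castSucc]
      simp only [Fin.snoc_castSucc, Fin.snoc_last]
      rw [hsum]
      ring
    · intro i
      refine Fin.lastCases ?_ (fun j => ?_) i
      · rw [Fin.snoc_last]; exact Ideal.mem_sup_left hcJ
      · rw [Fin.snoc_castSucc]; exact hmem j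

/-- an Artinian complete intersection with generators of degree at most `D` is cut out by its forms
of degree `D` -/
lemma prime_of_gr {a : Fin n → MvPolynomial (Fin n) K} {e : Fin n → ℕ}
    (ha : ∀ i, (a i).IsHomogeneous (e i)) (he : ∀ i, 1 ≤ e i) (hreg : Reg a) {D : ℕ}
    (hD : ∀ i, e i ≤ D) (P : Ideal (MvPolynomial (Fin n) K)) (hP : P.IsPrime)
    (h : ∀ u ∈ gr (Ideal.span (Set.range a)) D, u ∈ P) : ∀ i, X i ∈ P := by
  intro i
  by_contra hi
  have h1 : Ideal.span (Set.range a) ≤ P := by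
    rw [Ideal.span_le]
    rintro _ ⟨k, rfl⟩
    have h2 : X i ^ (D - e k) * a k ∈ P := by
      apply h
      refine mem_gr.mpr ⟨Ideal.mul_mem_left _ _ (Ideal.subset_span ⟨k, rfl⟩), ?_⟩
      have h3 := (isHomogeneous_X_pow (R := K) i (D - e k)).mul (ha k)
      rwa [Nat.sub_add_cancel (hD k)] at h3
    rcases hP.mem_or_mem h2 with h3 | h3
    · exact absurd (hP.mem_of_pow_mem _ h3) hi
    · exact h3
  have h2 := (isSocleDegree_ci a e ha he hreg).2 (∑ i, (e i - 1) + 1) (Nat.lt_succ_self _)
    (X i ^ (∑ i, (e i - 1) + 1)) (isHomogeneous_X_pow i _)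
  exact hi (hP.mem_of_pow_mem _ (h1 h2))

/-- **Bound for the number of linear forms killing an element of an Artinian complete
intersection.** -/
theorem bound [Infinite K] {a : Fin n → MvPolynomial (Fin n) K} {e : Fin n → ℕ}
    (ha : ∀ i, (a i).IsHomogeneous (e i)) (he : ∀ i, 1 ≤ e i) (hreg : Reg a) {D : ℕ} (hD1 : 1 ≤ D)
    (hD : ∀ i, e i ≤ D) {b : MvPolynomial (Fin n) K} {j : ℕ} (hb : b.IsHomogeneous j)
    (hbJ : b ∉ Ideal.span (Set.range a)) {v : ℕ} {y : Fin v → Fin n → K}
    (hy : LinearIndependent K y) (hyb : ∀ i, lin (y i) * b ∈ Ideal.span (Set.range a)) :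
    ∑ i, (e i - 1) ≤ j + (n - v) * (D - 1) := by
  classical
  by_contra hcon
  push Not at hcon
  have hvn : v ≤ n := by
    have := hy.fintype_card_le_finrank
    simpa using this
  obtain ⟨p, hp, F, e', hF, hFe, he', hsum, hmem⟩ := extend_reg
    (J := Ideal.span (Set.range a)) hD1 (prime_of_gr ha he hreg hD) hy (n - v) (by omega)
  obtain rfl : p = n := by omega
  obtain ⟨φ, hφ, hI⟩ := ci_gor ha he hreg
  set σ := ∑ i, (e i - 1) with hσ
  have hjσ : j ≤ σ := by omega
  have h1 : ¬ AnnP φ b := by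
    intro h
    apply hbJ
    rw [hI]
    exact h
  have h2 : ∃ h : MvPolynomial (Fin p) K, h.IsHomogeneous (σ - j) ∧ φ (b * h) ≠ 0 := by
    by_contra hc
    push Not at hc
    exact h1 (annP_of_homog hφ hjσ hb hc)
  obtain ⟨h, hh, hbh⟩ := h2
  have h3 : h ∈ Ideal.span (Set.range F) := by
    apply (isSocleDegree_ci F e' hFe he' hF).2 (σ - j) _ h hh
    rw [hsum]
    omega
  have h4 : ∀ x ∈ Ideal.span (Set.range a) ⊔
      Ideal.span (Set.range fun i => (lin (y i) : MvPolynomial (Fin p) K)),
      b * x ∈ Ideal.span (Set.range a) := by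
    intro x hx
    obtain ⟨x1, hx1, x2, hx2, rfl⟩ := Submodule.mem_sup.mp hx
    rw [mul_add]
    refine Ideal.add_mem _ (Ideal.mul_mem_left _ _ hx1) ?_
    obtain ⟨c, rfl⟩ := Ideal.mem_span_range_iff_exists_fun.mp hx2
    rw [Finset.mul_sum]
    refine Ideal.sum_mem _ fun i _ => ?_
    have h5 : b * (c i * lin (y i)) = c i * (lin (y i) * b) := by ring
    rw [h5]
    exact Ideal.mul_mem_left _ _ (hyb i)
  have h5 : Ideal.span (Set.range F) ≤ Ideal.span (Set.range a) ⊔
      Ideal.span (Set.range fun i => (lin (y i) : MvPolynomial (Fin p) K)) := by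
    rw [Ideal.span_le]
    rintro _ ⟨i, rfl⟩
    exact hmem i
  have h6 := h4 h (h5 h3)
  rw [hI] at h6
  have h7 := h6 1
  rw [mul_one] at h7
  exact hbh h7

end Pool.Agent.Y204.LF
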