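import Pool.Agent.Y204.LF.Avoid

/-!
The socle of an almost complete intersection `R / (J + (u))` in low degrees, `J` an Artinian
complete intersection.
-/

open MvPolynomial
open Pool.Agent.W515.SLP (AnnP Deg annP_zero annP_of_gt annP_of_homog lin)
open H503R3.QCI (Homog comp_mul comp_mul_of_lt NZD Reg homog_span isSocleDegree_ci gr mem_gr)
open TH130CI

namespace Pool.Agent.Y204.LF

variable {K : Type*} [Field K] {n : ℕ}

lemma exists_indep {W : Submodule K (Fin n → K)} {v : ℕ} (h : v ≤ Module.finrank K W) :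
    ∃ y : Fin v → Fin n → K, LinearIndependent K y ∧ ∀ i, y i ∈ W := by
  let b := Module.finBasis K W
  refine ⟨fun i => (b (Fin.castLE h i) : Fin n → K), ?_, fun i => (b (Fin.castLE h i)).2⟩
  have h1 := b.linearIndependent.comp (Fin.castLE h) (Fin.castLE_injective h)
  exact h1.map' W.subtype (Submodule.ker_subtype W)

lemma hom_mul (s t : ℕ) : homogeneousSubmodule (Fin n) K (s + t) =
    homogeneousSubmodule (Fin n) K s * homogeneousSubmodule (Fin n) K t := by
  have h : ∀ k, homogeneousSubmodule (Fin n) K k = (homogeneousSubmodule (Fin n) K 1) ^ k :=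
    fun k => (homogeneousSubmodule_one_pow K k).symm
  rw [h (s + t), h s, h t, pow_add]

lemma exists_lin {g : MvPolynomial (Fin n) K} (hg : g.IsHomogeneous 1) : ∃ z, g = lin z :=
  exists_linL hg

lemma lin_sum {m : ℕ} (t : Fin m → K) (p : Fin m → Fin n → K) :
    (lin (∑ i, t i • p i) : MvPolynomial (Fin n) K) = ∑ i, C (t i) * lin (p i) := by
  rw [lin_eq, map_sum]
  refine Finset.sum_congr rfl fun i _ => ?_
  rw [map_smul, smul_eq_C_mul]
  rfl

/-- a linear functional which vanishes on all products of a form of degree `s` and a form of degree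
`t` vanishes on the forms of degree `s + t` -/
lemma zero_of_mul {φ : MvPolynomial (Fin n) K →ₗ[K] K} {s t : ℕ}
    (h : ∀ g h : MvPolynomial (Fin n) K, g.IsHomogeneous s → h.IsHomogeneous t → φ (g * h) = 0)
    {p : MvPolynomial (Fin n) K} (hp : p.IsHomogeneous (s + t)) : φ p = 0 := by
  have h1 : p ∈ homogeneousSubmodule (Fin n) K (s + t) := hp
  rw [hom_mul] at h1
  induction h1 using Submodule.mul_induction_on' with
  | mem_mul_mem x hx y hy => exact h x y hx hy
  | add x hx y hy h1 h2 =>
    have hx' : x ∈ homogeneousSubmodule (Fin n) K (s + t) := by rw [hom_mul]; exact hx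
    have hy' : y ∈ homogeneousSubmodule (Fin n) K (s + t) := by rw [hom_mul]; exact hy
    rw [map_add, h1 hx', h2 hy', add_zero]

/-- the socle in degrees below the degree of `u` -/
lemma low_case [Infinite K] {N : ℕ} {a : Fin (N + 1) → MvPolynomial (Fin (N + 1)) K}
    {e : Fin (N + 1) → ℕ} (ha : ∀ i, (a i).IsHomogeneous (e i)) (he : ∀ i, 1 ≤ e i)
    (hreg : Reg a) {D : ℕ} (hD1 : 1 ≤ D) (hD : ∀ i, e i ≤ D)
    {u : MvPolynomial (Fin (N + 1)) K} {δ : ℕ} (hu : u.IsHomogeneous δ)
    {b : MvPolynomial (Fin (N + 1)) K} {j : ℕ} (hj : j + 1 ≤ δ) (hb : b.IsHomogeneous j)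
    (hbJ : b ∉ Ideal.span (Set.range a))
    (hXb : ∀ i, X i * b ∈ Ideal.span (Set.range a) ⊔ Ideal.span {u}) :
    ∑ i, (e i - 1) ≤ j + (D - 1) := by
  classical
  have hJh : Homog (Ideal.span (Set.range a)) :=
    homog_span (by rintro _ ⟨i, rfl⟩; exact ⟨e i, ha i⟩)
  have h1 : ∀ i, ∃ t : K, X i * b - C t * u ∈ Ideal.span (Set.range a) := by
    intro i
    have hh : (X i * b).IsHomogeneous (1 + j) := (isHomogeneous_X K i).mul hb
    rcases sup_comp' hJh hu hh (hXb i) with ⟨h2, b', hb', h3⟩ | h2
    · have h4 : 1 + j - δ = 0 := by omega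
      rw [h4] at hb'
      have h5 : b' = C (coeff 0 b') := by
        rw [← totalDegree_eq_zero_iff_eq_C]
        exact Nat.le_zero.mp hb'.totalDegree_le
      refine ⟨coeff 0 b', ?_⟩
      rw [← h5, mul_comm b' u]
      exact h3
    · refine ⟨0, ?_⟩
      rw [map_zero, zero_mul, sub_zero]
      exact h2
  choose t ht using h1
  let T : (Fin (N + 1) → K) →ₗ[K] K := Fintype.linearCombination K t
  have hT : ∀ z, lin z * b - C (T z) * u ∈ Ideal.span (Set.range a) := by
    intro z
    have h2 : lin z * b - C (T z) * u = ∑ i, C (z i) * (X i * b - C (t i) * u) := by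
      rw [lin, Finset.sum_mul]
      have h3 : T z = ∑ i, z i * t i := by
        simp [T, Fintype.linearCombination_apply]
      rw [h3, map_sum, Finset.sum_mul, ← Finset.sum_sub_distrib]
      refine Finset.sum_congr rfl fun i _ => ?_
      rw [map_mul]
      ring
    rw [h2]
    exact Ideal.sum_mem _ fun i _ => Ideal.mul_mem_left _ _ (ht i)
  have hker : N ≤ Module.finrank K (LinearMap.ker T) := by
    have h2 := LinearMap.finrank_range_add_finrank_ker T
    have h3 : Module.finrank K (LinearMap.range T) ≤ 1 := by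
      have := Submodule.finrank_le (LinearMap.range T)
      rwa [Module.finrank_self] at this
    rw [Module.finrank_fin_fun] at h2
    omega
  obtain ⟨y, hy, hyT⟩ := exists_indep hker
  have h2 := bound ha he hreg hD1 hD hb hbJ hy (fun i => by
    have h3 := hT (y i)
    rw [LinearMap.mem_ker.mp (hyT i), map_zero, zero_mul, sub_zero] at h3
    exact h3)
  have h3 : N + 1 - N = 1 := by omega
  rwa [h3, one_mul] at h2

/-- substitution of multiples of one element in a form -/
lemma aeval_smul_hom {B : Type*} [CommRing B] [Algebra K B] (P : Fin n → K) (s : B) {k : ℕ}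
    {p : MvPolynomial (Fin n) K} (hp : p.IsHomogeneous k) :
    aeval (fun i => algebraMap K B (P i) * s) p = algebraMap K B (eval P p) * s ^ k := by
  rw [aeval_def, eval₂_eq', eval_eq', map_sum, Finset.sum_mul]
  refine Finset.sum_congr rfl fun m hm => ?_
  have h1 : ∑ i, m i = k := by
    have h2 : Finsupp.degree m = k := by
      rw [Finsupp.degree_eq_weight_one]
      exact hp (mem_support_iff.mp hm)
    rwa [Finsupp.degree_eq_sum] at h2
  rw [map_mul, map_prod, mul_assoc]
  congr 1
  rw [← h1, ← Finset.prod_pow_eq_pow_sum, ← Finset.prod_mul_distrib]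
  refine Finset.prod_congr rfl fun i _ => ?_
  rw [mul_pow, map_pow]

/-- An ideal which contains a hyperplane of linear forms: forms are congruent to multiples of
powers. -/
lemma congr_pow {I : Ideal (MvPolynomial (Fin n) K)} {v : Fin n → K} {P : Fin n → K}
    (h : ∀ i, X i - C (P i) * lin v ∈ I) {k : ℕ} {p : MvPolynomial (Fin n) K}
    (hp : p.IsHomogeneous k) : p - C (eval P p) * lin v ^ k ∈ I := by
  have h1 : Ideal.Quotient.mkₐ K I = aeval (fun i => algebraMap K (MvPolynomial (Fin n) K ⧸ I) (P i) *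
      Ideal.Quotient.mk I (lin v)) := by
    apply algHom_ext
    intro i
    rw [aeval_X]
    change Ideal.Quotient.mk I (X i) = Ideal.Quotient.mk I (C (P i)) * Ideal.Quotient.mk I (lin v)
    rw [← map_mul, Ideal.Quotient.mk_eq_mk_iff_sub_mem]
    exact h i
  rw [← Ideal.Quotient.mk_eq_mk_iff_sub_mem]
  have h2 := AlgHom.congr_fun h1 p
  rw [aeval_smul_hom _ _ hp] at h2
  rw [map_mul, map_pow]
  exact h2

end Pool.Agent.Y204.LF
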