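import Pool.Agent.Y204.LF.Core

/-!
The socle of an almost complete intersection `R / (J + (u))` in the degree of `u`, when `u` is
killed by two linear forms modulo `J`.
-/

open MvPolynomial
open Pool.Agent.W515.SLP (AnnP Deg annP_zero annP_of_gt annP_of_homog lin)
open H503R3.QCI (Homog comp_mul comp_mul_of_lt NZD Reg homog_span isSocleDegree_ci gr mem_gr)
open TH130CI

namespace Pool.Agent.Y204.LF

variable {K : Type*} [Field K] {n : ℕ}

/-- the functional `x ↦ φ (g x)` -/
noncomputable def mulF (φ : MvPolynomial (Fin n) K →ₗ[K] K) (g : MvPolynomial (Fin n) K) :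
    MvPolynomial (Fin n) K →ₗ[K] K :=
  φ ∘ₗ LinearMap.mulLeft K g

lemma mulF_apply (φ : MvPolynomial (Fin n) K →ₗ[K] K) (g x : MvPolynomial (Fin n) K) :
    mulF φ g x = φ (g * x) := rfl

lemma deg_mulF {φ : MvPolynomial (Fin n) K →ₗ[K] K} {s t : ℕ} (hφ : Deg φ (s + t))
    {g : MvPolynomial (Fin n) K} (hg : g.IsHomogeneous s) : Deg (mulF φ g) t := by
  intro i hi h hh
  exact hφ (s + i) (by omega) _ (hg.mul hh)

lemma exists_alpha {φ : MvPolynomial (Fin n) K →ₗ[K] K} {d s t : ℕ} (hφ : Deg φ (d + (s + t)))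
    {u : MvPolynomial (Fin n) K} (hu : u.IsHomogeneous d) (huJ : u ∉ gor φ) :
    ∃ h2 : MvPolynomial (Fin n) K, h2.IsHomogeneous t ∧
      ∃ h1 : MvPolynomial (Fin n) K, h1.IsHomogeneous s ∧ φ (u * h2 * h1) ≠ 0 := by
  by_contra hcon
  push Not at hcon
  apply huJ
  refine annP_of_homog hφ (by omega) hu ?_
  intro v hv
  have h1 : d + (s + t) - d = s + t := by omega
  rw [h1] at hv
  refine zero_of_mul (φ := mulF φ u) ?_ hv
  intro g h hg hh
  have := hcon h hh g hg
  rw [mulF_apply]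
  rwa [show u * (g * h) = u * h * g by ring]

lemma lin_sub_smul (q q' : Fin n → K) (μ : K) :
    (lin (q - μ • q') : MvPolynomial (Fin n) K) = lin q - C μ * lin q' := by
  rw [lin_eq, map_sub, map_smul, smul_eq_C_mul]
  rfl

/-- an eigenvector of a symmetric operator modulo the radical -/
lemma exists_eigen [IsAlgClosed K] {α : MvPolynomial (Fin n) K →ₗ[K] K} {k : ℕ} (hk : 1 ≤ k)
    (hα : Deg α (k + 1)) {h1 : MvPolynomial (Fin n) K} (hh1 : h1.IsHomogeneous (k + 1))
    (h10 : α h1 ≠ 0) {Φ : (Fin n → K) →ₗ[K] (Fin n → K)}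
    (hsym : ∀ z z' x, α (lin (Φ z) * (lin z' * x)) = α (lin z * (lin (Φ z') * x))) :
    ∃ (z0 : Fin n → K) (μ : K), lin z0 ∉ gor α ∧ lin (Φ z0 - μ • z0) ∈ gor α := by
  classical
  let rad : Submodule K (Fin n → K) := ((gor α).restrictScalars K).comap (linL K n)
  have hmem : ∀ z, z ∈ rad ↔ lin z ∈ gor α := fun z => Iff.rfl
  have hstab : rad ≤ rad.comap Φ := by
    intro z hz
    change lin (Φ z) ∈ gor α
    refine annP_of_homog hα (by omega) (lin_homog _) ?_
    intro v hv
    have h2 : k + 1 - 1 = 1 + (k - 1) := by omega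
    rw [h2] at hv
    refine zero_of_mul (φ := mulF α (lin (Φ z))) ?_ hv
    intro g h hg _
    obtain ⟨z', rfl⟩ := exists_lin hg
    rw [mulF_apply, hsym]
    exact hz _
  have htop : rad ≠ ⊤ := by
    intro htop
    apply h10
    have h2 : k + 1 = 1 + k := by omega
    rw [h2] at hh1
    refine zero_of_mul ?_ hh1
    intro g h hg _
    obtain ⟨z', rfl⟩ := exists_lin hg
    have h3 : z' ∈ rad := by rw [htop]; exact Submodule.mem_top
    exact h3 h
  have hnt : Nontrivial ((Fin n → K) ⧸ rad) := Submodule.Quotient.nontrivial_iff.mpr htop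
  let Φ' : Module.End K ((Fin n → K) ⧸ rad) := rad.mapQ rad Φ hstab
  obtain ⟨μ, hμ⟩ := Module.End.exists_eigenvalue Φ'
  obtain ⟨v, hv⟩ := hμ.exists_hasEigenvector
  obtain ⟨z0, rfl⟩ := rad.mkQ_surjective v
  refine ⟨z0, μ, ?_, ?_⟩
  · intro h
    apply hv.2
    exact (Submodule.Quotient.mk_eq_zero rad).mpr h
  · have h2 := hv.apply_eq_smul
    have h3 : rad.mkQ (Φ z0 - μ • z0) = 0 := by
      rw [map_sub, map_smul, ← h2]
      exact sub_self _
    exact (Submodule.Quotient.mk_eq_zero rad).mp h3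

/-- a Gorenstein ideal containing an Artinian complete intersection of low degrees contains few
linear forms -/
lemma codim_two {a : Fin n → MvPolynomial (Fin n) K} {e : Fin n → ℕ}
    (ha : ∀ i, (a i).IsHomogeneous (e i)) (he : ∀ i, 1 ≤ e i) (hreg : Reg a) {d : ℕ} (hd : 1 ≤ d)
    (hD : ∀ i, e i ≤ d) {γ : MvPolynomial (Fin n) K →ₗ[K] K}
    (hle : Ideal.span (Set.range a) ≤ gor γ) {h1 : MvPolynomial (Fin n) K}
    (hh1 : h1.IsHomogeneous d) (h10 : γ h1 ≠ 0) :
    Module.finrank K (((gor γ).restrictScalars K).comap (linL K n)) + 2 ≤ n := by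
  classical
  set T : Submodule K (Fin n → K) := ((gor γ).restrictScalars K).comap (linL K n) with hT
  have hmem : ∀ z, z ∈ T ↔ lin z ∈ gor γ := fun z => Iff.rfl
  have htop : T ≠ ⊤ := by
    intro htop
    apply h10
    have h2 : d = 1 + (d - 1) := by omega
    rw [h2] at hh1
    refine zero_of_mul ?_ hh1
    intro g h hg _
    obtain ⟨z', rfl⟩ := exists_lin hg
    have h3 : z' ∈ T := by rw [htop]; exact Submodule.mem_top
    exact h3 h
  by_contra hcon
  obtain ⟨v, hv⟩ : ∃ v, v ∉ T := by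
    by_contra h
    push Not at h
    exact htop (eq_top_iff.mpr fun x _ => h x)
  have hlt : T < T ⊔ Submodule.span K {v} := by
    refine lt_of_le_of_ne le_sup_left ?_
    intro h
    apply hv
    rw [h]
    exact Submodule.mem_sup_right (Submodule.mem_span_singleton_self v)
  have h2 := Submodule.finrank_lt_finrank_of_lt hlt
  have h3 : T ⊔ Submodule.span K {v} = ⊤ := by
    apply Submodule.eq_top_of_finrank_eq
    have h4 := Submodule.finrank_le (T ⊔ Submodule.span K {v})
    rw [Module.finrank_fin_fun] at h4 ⊢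
    omega
  have h4 : ∀ i : Fin n, ∃ P : K, X i - C P * lin v ∈ gor γ := by
    intro i
    have h5 : (Pi.single i 1 : Fin n → K) ∈ T ⊔ Submodule.span K {v} := by
      rw [h3]; exact Submodule.mem_top
    obtain ⟨t, ht, y, hy, hty⟩ := Submodule.mem_sup.mp h5
    obtain ⟨P, rfl⟩ := Submodule.mem_span_singleton.mp hy
    refine ⟨P, ?_⟩
    have h6 : (X i : MvPolynomial (Fin n) K) - C P * lin v = lin t := by
      rw [← linL_single i, ← hty, map_add, map_smul, smul_eq_C_mul, lin_eq, lin_eq]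
      ring
    rw [h6]
    exact ht
  choose P hP using h4
  have h5 : ∀ i, eval P (a i) = 0 := by
    intro i
    by_contra hne
    have h6 := congr_pow hP (ha i)
    have h7 : C (eval P (a i)) * lin v ^ e i ∈ gor γ := by
      have h8 : a i ∈ gor γ := hle (Ideal.subset_span ⟨i, rfl⟩)
      have h9 := (gor γ).sub_mem h8 h6
      rwa [sub_sub_cancel] at h9
    have h8 : lin v ^ e i ∈ gor γ := by
      have h9 := (gor γ).mul_mem_left (C (eval P (a i))⁻¹) h7
      rwa [← mul_assoc, ← map_mul, inv_mul_cancel₀ hne, map_one, one_mul] at h9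
    have h9 : lin v ^ d ∈ gor γ := by
      have h10 := (gor γ).mul_mem_left (lin v ^ (d - e i)) h8
      rwa [← pow_add, Nat.sub_add_cancel (hD i)] at h10
    have h11 := congr_pow hP hh1
    have h12 : h1 ∈ gor γ := by
      have h13 := (gor γ).add_mem h11 ((gor γ).mul_mem_left (C (eval P h1)) h9)
      rwa [sub_add_cancel] at h13
    have h13 := h12 1
    rw [mul_one] at h13
    exact h10 h13
  have h6 : ∀ x ∈ Ideal.span (Set.range a), eval P x = 0 := by
    intro x hx
    have h7 : Ideal.span (Set.range a) ≤ RingHom.ker (eval P) := by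
      rw [Ideal.span_le]
      rintro _ ⟨i, rfl⟩
      exact h5 i
    exact h7 hx
  have h7 : ∀ i, P i = 0 := by
    intro i
    have h8 := (isSocleDegree_ci a e ha he hreg).2 (∑ i, (e i - 1) + 1) (Nat.lt_succ_self _)
      (X i ^ (∑ i, (e i - 1) + 1)) (isHomogeneous_X_pow i _)
    have h9 := h6 _ h8
    rw [map_pow, eval_X] at h9
    exact pow_eq_zero_iff (Nat.succ_ne_zero _) |>.mp h9
  apply hv
  change lin v ∈ gor γ
  rw [lin]
  refine Ideal.sum_mem _ fun i _ => Ideal.mul_mem_left _ _ ?_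
  have h8 := hP i
  rwa [h7 i, map_zero, zero_mul, sub_zero] at h8

lemma finrank_comap_ge (Ψ : (Fin n → K) →ₗ[K] (Fin n → K)) (Z : Submodule K (Fin n → K)) :
    n + Module.finrank K Z ≤ Module.finrank K (Z.comap Ψ) +
      Module.finrank K (LinearMap.range Ψ ⊔ Z : Submodule K (Fin n → K)) := by
  let F : ((Fin n → K) × Z) →ₗ[K] (Fin n → K) := Ψ.coprod Z.subtype
  have h1 := LinearMap.finrank_range_add_finrank_ker F
  have h2 : LinearMap.range F = LinearMap.range Ψ ⊔ Z := by
    rw [LinearMap.range_coprod, Submodule.range_subtype]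
  rw [h2, Module.finrank_prod, Module.finrank_fin_fun] at h1
  have h3 : Module.finrank K (LinearMap.ker F) ≤ Module.finrank K (Z.comap Ψ) := by
    have h4 : ∀ x : LinearMap.ker F, (x : (Fin n → K) × Z).1 ∈ Z.comap Ψ := by
      intro x
      have h5 : Ψ x.1.1 + x.1.2 = 0 := x.2
      rw [Submodule.mem_comap, eq_neg_of_add_eq_zero_left h5]
      exact Z.neg_mem x.1.2.2
    let G : LinearMap.ker F →ₗ[K] Z.comap Ψ :=
      ((LinearMap.fst K _ _) ∘ₗ (LinearMap.ker F).subtype).codRestrict (Z.comap Ψ) h4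
    apply LinearMap.finrank_le_finrank_of_injective (f := G)
    intro x y hxy
    have h5 : x.1.1 = y.1.1 := congrArg Subtype.val hxy
    have h6 : Ψ x.1.1 + x.1.2 = 0 := x.2
    have h7 : Ψ y.1.1 + y.1.2 = 0 := y.2
    rw [h5, ← h7] at h6
    apply Subtype.ext
    exact Prod.ext h5 (Subtype.ext (add_left_cancel h6))
  omega

/-- the socle in the degree of `u` -/
theorem main_case [IsAlgClosed K] {N : ℕ} {a : Fin (N + 1) → MvPolynomial (Fin (N + 1)) K}
    {e : Fin (N + 1) → ℕ} (ha : ∀ i, (a i).IsHomogeneous (e i)) (he : ∀ i, 1 ≤ e i)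
    (hreg : Reg a) {d : ℕ} (hd2 : 2 ≤ d) (hD : ∀ i, e i ≤ d)
    (hsum : ∑ i, (e i - 1) = N * (d - 1)) (hN : 2 * d + 1 ≤ N * (d - 1))
    {u : MvPolynomial (Fin (N + 1)) K} (hu : u.IsHomogeneous d)
    (huJ : u ∉ Ideal.span (Set.range a)) {w : Fin 2 → Fin (N + 1) → K}
    (hw : LinearIndependent K w) (hwu : ∀ i, lin (w i) * u ∈ Ideal.span (Set.range a))
    {b : MvPolynomial (Fin (N + 1)) K} (hb : b.IsHomogeneous d)
    (hbJ : b ∉ Ideal.span (Set.range a) ⊔ Ideal.span {u})
    (hXb : ∀ i, X i * b ∈ Ideal.span (Set.range a) ⊔ Ideal.span {u}) : False := by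
  classical
  have hinf : Infinite K := IsAlgClosed.instInfinite
  set J := Ideal.span (Set.range a) with hJdef
  have hJh : Homog J := homog_span (by rintro _ ⟨i, rfl⟩; exact ⟨e i, ha i⟩)
  have h1 : ∀ i, ∃ p : Fin (N + 1) → K, X i * b - u * lin p ∈ J := by
    intro i
    have hh : (X i * b).IsHomogeneous (1 + d) := (isHomogeneous_X K i).mul hb
    rcases sup_comp' hJh hu hh (hXb i) with ⟨h2, b', hb', h3⟩ | h2
    · have h4 : 1 + d - d = 1 := by omega
      rw [h4] at hb'
      obtain ⟨p, rfl⟩ := exists_lin hb'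
      exact ⟨p, h3⟩
    · refine ⟨0, ?_⟩
      rw [lin_eq, map_zero, mul_zero, sub_zero]
      exact h2
  choose p hp using h1
  let Φ : (Fin (N + 1) → K) →ₗ[K] (Fin (N + 1) → K) := Fintype.linearCombination K p
  have hΦ : ∀ z, lin z * b - u * lin (Φ z) ∈ J := by
    intro z
    have h2 : lin z * b - u * lin (Φ z) = ∑ i, C (z i) * (X i * b - u * lin (p i)) := by
      have h3 : Φ z = ∑ i, z i • p i := Fintype.linearCombination_apply _ _ _
      rw [h3, lin_sum, lin, Finset.sum_mul, Finset.mul_sum, ← Finset.sum_sub_distrib]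
      refine Finset.sum_congr rfl fun i _ => ?_
      ring
    rw [h2]
    exact Ideal.sum_mem _ fun i _ => Ideal.mul_mem_left _ _ (hp i)
  obtain ⟨θ, hθ, hI⟩ := ci_gor ha he hreg
  rw [← hJdef] at hI
  have hsplit : ∑ i, (e i - 1) = d + ((d + 1) + (N * (d - 1) - (2 * d + 1))) := by
    rw [hsum]; omega
  rw [hsplit] at hθ
  set t := N * (d - 1) - (2 * d + 1) with ht
  obtain ⟨h2, hh2, h1, hh1, hne⟩ := exists_alpha hθ hu (by rw [← hI]; exact huJ)
  let α := mulF θ (u * h2)
  have hα : Deg α (d + 1) := by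
    refine deg_mulF (s := d + t) ?_ (hu.mul hh2)
    rwa [show d + t + (d + 1) = d + (d + 1 + t) by ring]
  have hJα : J ≤ gor α := by
    intro x hx y
    rw [hI] at hx
    have h3 := hx (u * h2 * y)
    change θ (u * h2 * (x * y)) = 0
    rwa [show u * h2 * (x * y) = x * (u * h2 * y) by ring]
  have huα : ∀ x y, u * x ∈ J → α (x * y) = 0 := by
    intro x y hx
    rw [hI] at hx
    have h3 := hx (h2 * y)
    change θ (u * h2 * (x * y)) = 0
    rwa [show u * h2 * (x * y) = u * x * (h2 * y) by ring]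
  have hsym : ∀ z z' x, α (lin (Φ z) * (lin z' * x)) = α (lin z * (lin (Φ z') * x)) := by
    intro z z' x
    rw [← sub_eq_zero, ← map_sub]
    have h3 : lin (Φ z) * (lin z' * x) - lin z * (lin (Φ z') * x) =
        (lin (Φ z) * lin z' - lin z * lin (Φ z')) * x := by ring
    rw [h3]
    apply huα
    have h4 := J.sub_mem (J.mul_mem_left (lin z) (hΦ z')) (J.mul_mem_left (lin z') (hΦ z))
    have h5 : u * (lin (Φ z) * lin z' - lin z * lin (Φ z')) =
        lin z * (lin z' * b - u * lin (Φ z')) - lin z' * (lin z * b - u * lin (Φ z)) := by ring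
    rwa [h5]
  obtain ⟨z0, μ, hz0, hμ⟩ := exists_eigen (by omega : 1 ≤ d) hα hh1 hne hsym
  let Ψ : (Fin (N + 1) → K) →ₗ[K] (Fin (N + 1) → K) := Φ - μ • LinearMap.id
  have hΨ : ∀ z, Ψ z = Φ z - μ • z := fun z => rfl
  have hΨlin : ∀ z, (lin (Ψ z) : MvPolynomial (Fin (N + 1)) K) = lin (Φ z) - C μ * lin z := by
    intro z
    rw [hΨ, lin_sub_smul]
  have hsym' : ∀ z z' x, α (lin (Ψ z) * (lin z' * x)) = α (lin z * (lin (Ψ z') * x)) := by
    intro z z' x
    rw [hΨlin, hΨlin]
    have h3 : (lin (Φ z) - C μ * lin z) * (lin z' * x) =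
        lin (Φ z) * (lin z' * x) - C μ * (lin z * (lin z' * x)) := by ring
    have h4 : lin z * ((lin (Φ z') - C μ * lin z') * x) =
        lin z * (lin (Φ z') * x) - C μ * (lin z * (lin z' * x)) := by ring
    rw [h3, h4, map_sub, map_sub, hsym]
  let γ := mulF α (lin z0)
  have hγ : Deg γ d := by
    refine deg_mulF (s := 1) ?_ (lin_homog _)
    rwa [add_comm 1 d]
  obtain ⟨h3, hh3, hne3⟩ : ∃ h3 : MvPolynomial (Fin (N + 1)) K, h3.IsHomogeneous d ∧ γ h3 ≠ 0 := by
    by_contra hcon
    push Not at hcon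
    apply hz0
    refine annP_of_homog hα (by omega) (lin_homog _) ?_
    intro v hv
    exact hcon v hv
  have hJγ : J ≤ gor γ := by
    intro x hx y
    have h4 := hJα hx (lin z0 * y)
    change α (lin z0 * (x * y)) = 0
    rwa [show lin z0 * (x * y) = x * (lin z0 * y) by ring]
  have hT := codim_two ha he hreg (by omega : 1 ≤ d) hD hJγ hh3 hne3
  set T : Submodule K (Fin (N + 1) → K) :=
    ((gor γ).restrictScalars K).comap (linL K (N + 1)) with hTdef
  let Z : Submodule K (Fin (N + 1) → K) :=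
    (J.restrictScalars K).comap ((LinearMap.mulLeft K u) ∘ₗ linL K (N + 1))
  have hZ : ∀ z, z ∈ Z ↔ u * lin z ∈ J := fun z => Iff.rfl
  have hZT : Z ≤ T := by
    intro z hz y
    change α (lin z0 * (lin z * y)) = 0
    rw [show lin z0 * (lin z * y) = lin z * (lin z0 * y) by ring]
    exact huα _ _ hz
  have hRT : LinearMap.range Ψ ≤ T := by
    rintro _ ⟨z, rfl⟩ y
    change α (lin z0 * (lin (Ψ z) * y)) = 0
    rw [← hsym']
    exact hμ _
  have hle : Module.finrank K (LinearMap.range Ψ ⊔ Z : Submodule K (Fin (N + 1) → K)) ≤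
      Module.finrank K T := Submodule.finrank_mono (sup_le hRT hZT)
  have hZ2 : 2 ≤ Module.finrank K Z := by
    let w' : Fin 2 → Z := fun i => ⟨w i, by
      rw [hZ, mul_comm]
      exact hwu i⟩
    have h4 : LinearIndependent K w' := by
      apply LinearIndependent.of_comp Z.subtype
      exact hw
    have := h4.fintype_card_le_finrank
    simpa using this
  have hge := finrank_comap_ge Ψ Z
  have h4 : 4 ≤ Module.finrank K (Z.comap Ψ) := by omega
  obtain ⟨y, hy, hyZ⟩ := exists_indep h4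
  have hb' : (b - C μ * u).IsHomogeneous d := by
    have h5 : (C μ * u).IsHomogeneous (0 + d) := (isHomogeneous_C _ _).mul hu
    rw [zero_add] at h5
    exact hb.sub h5
  have hb'J : b - C μ * u ∉ J := by
    intro h
    apply hbJ
    have h5 : b = (b - C μ * u) + C μ * u := by ring
    rw [h5]
    exact Ideal.add_mem _ (Ideal.mem_sup_left h)
      (Ideal.mem_sup_right (Ideal.mul_mem_left _ _ (Ideal.mem_span_singleton_self u)))
  have h5 := bound ha he hreg (by omega : 1 ≤ d) hD hb' hb'J hy (fun i => by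
    have h6 : u * lin (Ψ (y i)) ∈ J := hyZ i
    have h7 := hΦ (y i)
    have h8 := J.add_mem h7 h6
    rw [hΨlin] at h8
    have h9 : lin (y i) * b - u * lin (Φ (y i)) + u * (lin (Φ (y i)) - C μ * lin (y i)) =
        lin (y i) * (b - C μ * u) := by ring
    rwa [h9] at h8)
  rw [hsum] at h5
  have hN3 : 3 ≤ N := by
    by_contra hcon
    have h6 : N * (d - 1) ≤ 2 * (d - 1) := Nat.mul_le_mul_right _ (by omega)
    omega
  obtain ⟨M, rfl⟩ := Nat.exists_eq_add_of_le hN3
  have h6 : 3 + M + 1 - 4 = M := by omega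
  rw [h6, add_mul] at h5
  omega

end Pool.Agent.Y204.LF
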