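import Pool.Agent.Y204.LF.Core2

/-!
Equigenerated Artinian complete intersections: a linear form `ℓ` which kills a form of degree `d`
outside the ideal leaves no socle of `R / (I + (ℓ))` in degrees at most `d`.
-/

open MvPolynomial
open Pool.Agent.W515.SLP (AnnP Deg annP_zero annP_of_gt annP_of_homog lin)
open H503R3.QCI (Homog comp_mul comp_mul_of_lt NZD Reg homog_span isSocleDegree_ci gr mem_gr)
open TH130CI

namespace Pool.Agent.Y204.LF

variable {K : Type*} [Field K] {n : ℕ}

lemma one_notMem {s : Set (MvPolynomial (Fin n) K)}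
    (hs : ∀ x ∈ s, ∃ e, 1 ≤ e ∧ x.IsHomogeneous e) : (1 : MvPolynomial (Fin n) K) ∉ Ideal.span s := by
  intro h
  have h1 : Ideal.span s ≤ RingHom.ker (constantCoeff (R := K) (σ := Fin n)) := by
    rw [Ideal.span_le]
    intro x hx
    obtain ⟨e, he, hxe⟩ := hs x hx
    change constantCoeff x = 0
    rw [constantCoeff_eq]
    exact hxe.coeff_eq_zero (by
      rw [map_zero]
      omega)
  have h2 : constantCoeff (1 : MvPolynomial (Fin n) K) = 0 := h1 h
  rw [map_one] at h2
  exact one_ne_zero h2

/-- regular sequences of forms of one degree are linearly independent -/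
lemma indep_of_reg {m : ℕ} {f : Fin m → MvPolynomial (Fin n) K} {d : ℕ} (hd : 1 ≤ d)
    (hf : ∀ i, (f i).IsHomogeneous d) (hreg : Reg f) : LinearIndependent K f := by
  classical
  rw [Fintype.linearIndependent_iff]
  intro g hg
  by_contra hcon
  push Not at hcon
  have hne : (Finset.univ.filter fun i => g i ≠ 0).Nonempty := by
    obtain ⟨i, hi⟩ := hcon
    exact ⟨i, Finset.mem_filter.mpr ⟨Finset.mem_univ _, hi⟩⟩
  set i := (Finset.univ.filter fun i => g i ≠ 0).max' hne with hi
  have hi0 : g i ≠ 0 := (Finset.mem_filter.mp (Finset.max'_mem _ hne)).2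
  have hgt : ∀ j, i < j → g j = 0 := by
    intro j hj
    by_contra h
    exact absurd (Finset.le_max' _ j (Finset.mem_filter.mpr ⟨Finset.mem_univ _, h⟩))
      (not_le.mpr hj)
  have h1 : f i * C (g i) ∈ Ideal.span (f '' {j | j < i}) := by
    have h2 : f i * C (g i) = - ∑ j ∈ Finset.univ.erase i, g j • f j := by
      rw [← Finset.add_sum_erase Finset.univ _ (Finset.mem_univ i)] at hg
      rw [← eq_neg_of_add_eq_zero_left hg, smul_eq_C_mul, mul_comm]
    rw [h2]
    refine Ideal.neg_mem_iff _ |>.mpr ?_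
    refine Ideal.sum_mem _ fun j hj => ?_
    rcases lt_or_ge j i with hlt | hge
    · rw [smul_eq_C_mul]
      exact Ideal.mul_mem_left _ _ (Ideal.subset_span ⟨j, hlt, rfl⟩)
    · rw [hgt j (lt_of_le_of_ne hge (Finset.ne_of_mem_erase hj).symm), zero_smul]
      exact Ideal.zero_mem _
  have h2 := hreg i _ h1
  apply one_notMem (s := f '' {j | j < i}) (by
    rintro _ ⟨j, _, rfl⟩
    exact ⟨d, hd, hf j⟩)
  have h3 := Ideal.mul_mem_left _ (C (g i)⁻¹) h2
  rwa [← map_mul, inv_mul_cancel₀ hi0, map_one] at h3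

/-- a regular sequence `ℓ, c_1, …, c_k` of combinations of the generators -/
lemma choose_seq [Infinite K] {f : Fin n → MvPolynomial (Fin n) K} {d : ℕ} (hd : 1 ≤ d)
    (hf : ∀ i, (f i).IsHomogeneous d) (hreg : Reg f) {q : Fin n → K} (hq : q ≠ 0)
    {u0 : MvPolynomial (Fin n) K} (hu0 : u0 ≠ 0)
    (hu0V : u0 ∈ Submodule.span K (Set.range f)) :
    ∀ k, k + 1 ≤ n → ∃ c : Fin k → MvPolynomial (Fin n) K,
      (∀ i, c i ∈ Submodule.span K (Set.range f)) ∧
      LinearIndependent K (Fin.cons u0 c : Fin (k + 1) → MvPolynomial (Fin n) K) ∧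
      Reg (Fin.cons (lin q) c : Fin (k + 1) → MvPolynomial (Fin n) K) := by
  classical
  intro k
  induction k with
  | zero =>
    intro _
    refine ⟨Fin.elim0, fun i => i.elim0, ?_, ?_⟩
    · rw [linearIndependent_finCons]
      refine ⟨linearIndependent_empty_type, ?_⟩
      rw [Set.range_eq_empty, Submodule.span_empty, Submodule.mem_bot]
      exact hu0
    · intro i
      obtain rfl : i = 0 := Fin.ext (by omega)
      have h1 : (Fin.cons (lin q) Fin.elim0 : Fin 1 → MvPolynomial (Fin n) K) '' {j | j < 0} =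
          ∅ := by
        ext x
        simp
      rw [h1, Ideal.span_empty, Fin.cons_zero]
      intro w hw
      rw [Ideal.mem_bot] at hw ⊢
      rcases mul_eq_zero.mp hw with h2 | h2
      · exfalso
        apply hq
        ext i
        rw [← coeff_linL q, ← lin_eq, h2, coeff_zero, Pi.zero_apply]
      · exact h2
  | succ k ih =>
    intro hk
    obtain ⟨c, hcV, hci, hcr⟩ := ih (by omega)
    have hVhom : ∀ x ∈ Submodule.span K (Set.range f), x.IsHomogeneous d := by
      intro x hx
      have h1 : Submodule.span K (Set.range f) ≤ homogeneousSubmodule (Fin n) K d := by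
        rw [Submodule.span_le]
        rintro _ ⟨i, rfl⟩
        exact hf i
      exact h1 hx
    have hhom : ∀ i, ((Fin.cons (lin q) c : Fin (k + 1) → MvPolynomial (Fin n) K) i).IsHomogeneous
        ((Fin.cons 1 (fun _ => d) : Fin (k + 1) → ℕ) i) := by
      intro i
      refine Fin.cases ?_ (fun j => ?_) i
      · rw [Fin.cons_zero, Fin.cons_zero]; exact lin_homog _
      · rw [Fin.cons_succ, Fin.cons_succ]; exact hVhom _ (hcV j)
    have hpos : ∀ i, 1 ≤ (Fin.cons 1 (fun _ => d) : Fin (k + 1) → ℕ) i := by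
      intro i
      refine Fin.cases ?_ (fun j => ?_) i
      · rw [Fin.cons_zero]
      · rw [Fin.cons_succ]; exact hd
    have hdep := no_socle (by omega : k + 1 < n) _ _ _ hhom hpos (sreg_of_reg hhom hpos hcr) rfl
    have hH : ¬ Submodule.span K (Set.range f) ≤ Submodule.span K (Set.range
        (Fin.cons u0 c : Fin (k + 1) → MvPolynomial (Fin n) K)) := by
      intro hle
      have : Module.Finite K (Submodule.span K (Set.range
          (Fin.cons u0 c : Fin (k + 1) → MvPolynomial (Fin n) K))) :=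
        Module.Finite.span_of_finite K (Set.finite_range _)
      have h1 := Submodule.finrank_mono hle
      rw [finrank_span_eq_card (indep_of_reg hd hf hreg), finrank_span_eq_card hci,
        Fintype.card_fin, Fintype.card_fin] at h1
      omega
    obtain ⟨x, hxV, hx, hxH⟩ := exists_nzd_mem hdep (U := Submodule.span K (Set.range f))
      (fun P hP _ h i => by
        have h1 : Ideal.span (Set.range f) ≤ P := by
          rw [Ideal.span_le]
          rintro _ ⟨i, rfl⟩
          exact h _ (Submodule.subset_span ⟨i, rfl⟩)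
        have h2 := (isSocleDegree_ci f (fun _ => d) hf (fun _ => hd) hreg).2
          (∑ _i : Fin n, (d - 1) + 1) (Nat.lt_succ_self _)
          (X i ^ (∑ _i : Fin n, (d - 1) + 1)) (isHomogeneous_X_pow i _)
        exact hP.mem_of_pow_mem _ (h1 h2)) hH
    refine ⟨Fin.snoc c x, ?_, ?_, ?_⟩
    · intro i
      refine Fin.lastCases ?_ (fun j => ?_) i
      · rw [Fin.snoc_last]; exact hxV
      · rw [Fin.snoc_castSucc]; exact hcV j
    · rw [Fin.cons_snoc_eq_snoc_cons, linearIndependent_finSnoc]
      exact ⟨hci, hxH⟩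
    · rw [Fin.cons_snoc_eq_snoc_cons]
      exact reg_snoc hcr hx

/-- **Core statement.** -/
theorem core [IsAlgClosed K] {N : ℕ} {f : Fin (N + 1) → MvPolynomial (Fin (N + 1)) K} {d : ℕ}
    (hd : 2 ≤ d) (hN : 2 * d + 1 ≤ N * (d - 1)) (hf : ∀ i, (f i).IsHomogeneous d)
    (hreg : Reg f) {q : Fin (N + 1) → K} (hq : q ≠ 0)
    {a0 : MvPolynomial (Fin (N + 1)) K} (ha0 : a0.IsHomogeneous d)
    (ha0I : a0 ∉ Ideal.span (Set.range f)) (hqa0 : lin q * a0 ∈ Ideal.span (Set.range f))
    {b : MvPolynomial (Fin (N + 1)) K} {j : ℕ} (hj : j ≤ d) (hb : b.IsHomogeneous j)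
    (hbI : b ∉ Ideal.span (Set.range f) ⊔ Ideal.span {lin q})
    (hXb : ∀ i, X i * b ∈ Ideal.span (Set.range f) ⊔ Ideal.span {lin q}) : False := by
  classical
  have hinf : Infinite K := IsAlgClosed.instInfinite
  have hd1 : 1 ≤ d := by omega
  have hli := indep_of_reg hd1 hf hreg
  have hlq : (lin q : MvPolynomial (Fin (N + 1)) K) ≠ 0 := by
    intro h
    apply hq
    ext i
    rw [← coeff_linL q, ← lin_eq, h, coeff_zero, Pi.zero_apply]
  -- the linear syzygy
  obtain ⟨m, hm⟩ : ∃ m : Fin (N + 1) → Fin (N + 1) → K,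
      ∑ i, lin (m i) * f i = lin q * a0 := by
    obtain ⟨c, hc⟩ := Ideal.mem_span_range_iff_exists_fun.mp hqa0
    have h1 : ∀ i, ∃ p : Fin (N + 1) → K, homogeneousComponent 1 (c i) = lin p :=
      fun i => exists_lin (homogeneousComponent_isHomogeneous _ _)
    choose m hm using h1
    refine ⟨m, ?_⟩
    have h2 := congrArg (homogeneousComponent (d + 1)) hc
    rw [map_sum] at h2
    have h3 : homogeneousComponent (d + 1) (lin q * a0) = lin q * a0 := by
      rw [homogeneousComponent_of_mem ((lin_homog q).mul ha0), if_pos (add_comm d 1)]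
    rw [h3] at h2
    rw [← h2]
    refine Finset.sum_congr rfl fun i _ => ?_
    rw [mul_comm (c i) (f i), comp_mul (hf i), hm i, mul_comm]
  obtain ⟨i0, hi0⟩ : ∃ i0, m i0 ∉ Submodule.span K {q} := by
    by_contra hcon
    push Not at hcon
    have h1 : ∀ i, ∃ t : K, t • q = m i := fun i => Submodule.mem_span_singleton.mp (hcon i)
    choose t ht using h1
    apply ha0I
    have h2 : lin q * (a0 - ∑ i, C (t i) * f i) = 0 := by
      rw [mul_sub, ← hm, Finset.mul_sum, ← Finset.sum_sub_distrib]
      refine Finset.sum_eq_zero fun i _ => ?_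
      rw [← ht i, lin_eq, map_smul, smul_eq_C_mul, lin_eq]
      ring
    have h3 := (mul_eq_zero.mp h2).resolve_left hlq
    rw [sub_eq_zero.mp h3]
    exact Ideal.sum_mem _ fun i _ => Ideal.mul_mem_left _ _ (Ideal.subset_span ⟨i, rfl⟩)
  obtain ⟨lam, hlam, hker⟩ := Submodule.exists_le_ker_of_notMem hi0
  have hlamq : lam q = 0 := hker (Submodule.mem_span_singleton_self q)
  set u0 : MvPolynomial (Fin (N + 1)) K := ∑ i, lam (m i) • f i with hu0
  have hu0V : u0 ∈ Submodule.span K (Set.range f) :=
    Submodule.sum_mem _ fun i _ => Submodule.smul_mem _ _ (Submodule.subset_span ⟨i, rfl⟩)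
  have hu00 : u0 ≠ 0 := by
    intro h
    exact hlam (Fintype.linearIndependent_iff.mp hli _ h i0)
  obtain ⟨c, hcV, hci, hcr⟩ := choose_seq hd1 hf hreg hq hu00 hu0V N (le_refl _)
  have hVhom : ∀ x ∈ Submodule.span K (Set.range f), x.IsHomogeneous d := by
    intro x hx
    have h1 : Submodule.span K (Set.range f) ≤ homogeneousSubmodule (Fin (N + 1)) K d := by
      rw [Submodule.span_le]
      rintro _ ⟨i, rfl⟩
      exact hf i
    exact h1 hx
  set a : Fin (N + 1) → MvPolynomial (Fin (N + 1)) K := Fin.cons (lin q) c with ha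
  set e : Fin (N + 1) → ℕ := Fin.cons 1 (fun _ => d) with he
  have hahom : ∀ i, (a i).IsHomogeneous (e i) := by
    intro i
    refine Fin.cases ?_ (fun j => ?_) i
    · rw [ha, he, Fin.cons_zero, Fin.cons_zero]; exact lin_homog _
    · rw [ha, he, Fin.cons_succ, Fin.cons_succ]; exact hVhom _ (hcV j)
  have hepos : ∀ i, 1 ≤ e i := by
    intro i
    refine Fin.cases ?_ (fun j => ?_) i
    · rw [he, Fin.cons_zero]
    · rw [he, Fin.cons_succ]; exact hd1
  have hed : ∀ i, e i ≤ d := by
    intro i
    refine Fin.cases ?_ (fun j => ?_) i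
    · rw [he, Fin.cons_zero]; exact hd1
    · rw [he, Fin.cons_succ]
  have hesum : ∑ i, (e i - 1) = N * (d - 1) := by
    rw [Fin.sum_univ_succ, he]
    simp only [Fin.cons_zero, Fin.cons_succ]
    simp
  have hspan : Submodule.span K (Set.range
      (Fin.cons u0 c : Fin (N + 1) → MvPolynomial (Fin (N + 1)) K)) =
      Submodule.span K (Set.range f) := by
    have : Module.Finite K (Submodule.span K (Set.range f)) :=
      Module.Finite.span_of_finite K (Set.finite_range f)
    apply Submodule.eq_of_le_of_finrank_le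
    · rw [Submodule.span_le]
      rintro _ ⟨i, rfl⟩
      refine Fin.cases ?_ (fun j => ?_) i
      · rw [Fin.cons_zero]; exact hu0V
      · rw [Fin.cons_succ]; exact hcV j
    · rw [finrank_span_eq_card hli, finrank_span_eq_card hci]
  set J := Ideal.span (Set.range a) with hJ
  have hqJ : lin q ∈ J := Ideal.subset_span ⟨0, by rw [ha, Fin.cons_zero]⟩
  have hcJ : ∀ x ∈ Submodule.span K (Set.range c), x ∈ J := by
    intro x hx
    have h1 : Submodule.span K (Set.range c) ≤ J.restrictScalars K := by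
      rw [Submodule.span_le]
      rintro _ ⟨i, rfl⟩
      exact Ideal.subset_span ⟨i.succ, by rw [ha, Fin.cons_succ]⟩
    exact h1 hx
  -- decomposition of the generators
  have hdec : ∀ i, ∃ η : K, f i - η • u0 ∈ Submodule.span K (Set.range c) := by
    intro i
    have h1 : f i ∈ Submodule.span K (Set.range
        (Fin.cons u0 c : Fin (N + 1) → MvPolynomial (Fin (N + 1)) K)) := by
      rw [hspan]; exact Submodule.subset_span ⟨i, rfl⟩
    rw [Fin.range_cons, Submodule.mem_span_insert] at h1
    obtain ⟨η, z, hz, h2⟩ := h1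
    refine ⟨η, ?_⟩
    rw [h2, add_sub_cancel_left]
    exact hz
  choose η hη using hdec
  have hη1 : ∑ i, lam (m i) * η i = 1 := by
    by_contra hne
    have h1 := (linearIndependent_finCons.mp hci).2
    apply h1
    have h2 : (1 - ∑ i, lam (m i) * η i) • u0 ∈ Submodule.span K (Set.range c) := by
      have h3 : (1 - ∑ i, lam (m i) * η i) • u0 = ∑ i, lam (m i) • (f i - η i • u0) := by
        simp only [smul_sub, smul_smul]
        rw [Finset.sum_sub_distrib, sub_smul, one_smul, Finset.sum_smul]
      rw [h3]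
      exact Submodule.sum_mem _ fun i _ => Submodule.smul_mem _ _ (hη i)
    have h3 : 1 - ∑ i, lam (m i) * η i ≠ 0 := sub_ne_zero.mpr (Ne.symm hne)
    have h4 := Submodule.smul_mem _ (1 - ∑ i, lam (m i) * η i)⁻¹ h2
    rwa [smul_smul, inv_mul_cancel₀ h3, one_smul] at h4
  set G : Fin (N + 1) → K := ∑ i, η i • m i with hG
  have hlamG : lam G = 1 := by
    rw [hG, map_sum, ← hη1]
    refine Finset.sum_congr rfl fun i _ => ?_
    rw [map_smul, smul_eq_mul, mul_comm]
  have hGu : lin G * u0 ∈ J := by
    have h1 : lin G * u0 = lin q * a0 - ∑ i, lin (m i) * (f i - η i • u0) := by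
      rw [← hm, ← Finset.sum_sub_distrib, hG, lin_sum, Finset.sum_mul]
      refine Finset.sum_congr rfl fun i _ => ?_
      rw [smul_eq_C_mul]
      ring
    rw [h1]
    refine J.sub_mem (J.mul_mem_right _ hqJ) ?_
    exact Ideal.sum_mem _ fun i _ => Ideal.mul_mem_left _ _ (hcJ _ (hη i))
  have hqu : lin q * u0 ∈ J := J.mul_mem_right _ hqJ
  have hind : LinearIndependent K ![q, G] := by
    rw [LinearIndependent.pair_iff' hq]
    intro t ht
    have h1 := congrArg lam ht
    rw [map_smul, hlamq, smul_zero, hlamG] at h1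
    exact zero_ne_one h1
  have hIJ : Ideal.span (Set.range f) ⊔ Ideal.span {lin q} ≤ J ⊔ Ideal.span {u0} := by
    rw [sup_le_iff, Ideal.span_le, Ideal.span_le, Set.singleton_subset_iff]
    refine ⟨?_, Ideal.mem_sup_left hqJ⟩
    rintro _ ⟨i, rfl⟩
    have h1 : f i = (f i - η i • u0) + C (η i) * u0 := by
      rw [smul_eq_C_mul]; ring
    rw [h1]
    exact Ideal.add_mem _ (Ideal.mem_sup_left (hcJ _ (hη i)))
      (Ideal.mem_sup_right (Ideal.mul_mem_left _ _ (Ideal.mem_span_singleton_self u0)))
  have hVI : ∀ x ∈ Submodule.span K (Set.range f), x ∈ Ideal.span (Set.range f) := by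
    intro x hx
    have h1 : Submodule.span K (Set.range f) ≤ (Ideal.span (Set.range f)).restrictScalars K := by
      rw [Submodule.span_le]
      exact Ideal.subset_span
    exact h1 hx
  have hJI : J ≤ Ideal.span (Set.range f) ⊔ Ideal.span {lin q} := by
    rw [hJ, Ideal.span_le]
    rintro _ ⟨i, rfl⟩
    refine Fin.cases ?_ (fun j => ?_) i
    · rw [ha, Fin.cons_zero]
      exact Ideal.mem_sup_right (Ideal.mem_span_singleton_self _)
    · rw [ha, Fin.cons_succ]
      exact Ideal.mem_sup_left (hVI _ (hcV j))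
  have hJuI : J ⊔ Ideal.span {u0} ≤ Ideal.span (Set.range f) ⊔ Ideal.span {lin q} := by
    rw [sup_le_iff]
    refine ⟨hJI, ?_⟩
    rw [Ideal.span_le, Set.singleton_subset_iff]
    exact Ideal.mem_sup_left (hVI _ hu0V)
  have hbJu : b ∉ J ⊔ Ideal.span {u0} := fun h => hbI (hJuI h)
  have hXbJ : ∀ i, X i * b ∈ J ⊔ Ideal.span {u0} := fun i => hIJ (hXb i)
  have hbJ : b ∉ J := fun h => hbI (hJI h)
  have hu0J : u0 ∉ J := by
    intro h
    apply hbJ
    have h1 : J ⊔ Ideal.span {u0} = J := by
      rw [sup_eq_left, Ideal.span_le, Set.singleton_subset_iff]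
      exact h
    apply socle_ci _ a e hahom hepos (sreg_of_reg hahom hepos hcr) rfl j b hb
    · rw [hesum]; omega
    · intro i
      have h2 := hXbJ i
      rwa [h1] at h2
  have hu0hom : u0.IsHomogeneous d := hVhom _ hu0V
  rcases Nat.lt_or_ge j d with hjd | hjd
  · have h1 := low_case hahom hepos hcr hd1 hed hu0hom (by omega : j + 1 ≤ d) hb hbJ hXbJ
    rw [hesum] at h1
    omega
  · obtain rfl : j = d := by omega
    refine main_case hahom hepos hcr hd hed hesum hN hu0hom hu0J hind ?_ hb hbJu hXbJ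
    intro i
    fin_cases i
    · exact hqu
    · exact hGu

end Pool.Agent.Y204.LF
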