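import Pool.Agent.Y204.LF.Aci

/-!
Passing to the quotient by a linear form.
-/

open MvPolynomial
open Pool.Agent.W515.SLP (AnnP Deg annP_zero annP_of_gt annP_of_homog lin)
open H503R3.QCI (Homog comp_mul comp_mul_of_lt NZD Reg homog_span isSocleDegree_ci gr mem_gr)
open TH130CI

namespace Pool.Agent.Y204.LF

variable {K : Type*} [Field K] {N : ℕ}

/-- the quotient by a linear form is a polynomial ring -/
structure Rho (q : Fin (N + 1) → K) where
  /-- the map on linear forms -/
  π : (Fin (N + 1) → K) →ₗ[K] (Fin N → K)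
  /-- the map -/
  ρ : MvPolynomial (Fin (N + 1)) K →ₐ[K] MvPolynomial (Fin N) K
  surj : Function.Surjective ρ
  ker : ∀ x, ρ x = 0 → x ∈ Ideal.span {(lin q : MvPolynomial (Fin (N + 1)) K)}
  zero : ρ (lin q) = 0
  hom : ∀ (k : ℕ) (x : MvPolynomial (Fin (N + 1)) K), x.IsHomogeneous k → (ρ x).IsHomogeneous k
  lin_eq : ∀ z, ρ (lin z) = lin (π z)
  kerπ : ∀ z, π z = 0 → z ∈ Submodule.span K {q}
  surjπ : Function.Surjective π

lemma exists_rho {q : Fin (N + 1) → K} (hq : q ≠ 0) : Nonempty (Rho q) := by
  classical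
  let W : Submodule K (Fin (N + 1) → K) := Submodule.span K {q}
  have hfr : Module.finrank K ((Fin (N + 1) → K) ⧸ W) = Module.finrank K (Fin N → K) := by
    have h1 := Submodule.finrank_quotient_add_finrank W
    rw [finrank_span_singleton hq, Module.finrank_fin_fun] at h1
    rw [Module.finrank_fin_fun]
    omega
  let φ : ((Fin (N + 1) → K) ⧸ W) ≃ₗ[K] (Fin N → K) := LinearEquiv.ofFinrankEq _ _ hfr
  let π : (Fin (N + 1) → K) →ₗ[K] (Fin N → K) := φ.toLinearMap ∘ₗ W.mkQ
  have hπsurj : Function.Surjective π := φ.surjective.comp W.mkQ_surjective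
  have hπker : ∀ z, π z = 0 → z ∈ W := by
    intro z hz
    have h1 : W.mkQ z = 0 := φ.injective (by rw [map_zero]; exact hz)
    exact (Submodule.Quotient.mk_eq_zero W).mp h1
  have hπq : π q = 0 := by
    have h1 : W.mkQ q = 0 :=
      (Submodule.Quotient.mk_eq_zero W).mpr (Submodule.mem_span_singleton_self q)
    change φ (W.mkQ q) = 0
    rw [h1, map_zero]
  obtain ⟨s, hs⟩ := π.exists_rightInverse_of_surjective (LinearMap.range_eq_top.mpr hπsurj)
  have hs' : ∀ y, π (s y) = y := fun y => LinearMap.congr_fun hs y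
  let ρ : MvPolynomial (Fin (N + 1)) K →ₐ[K] MvPolynomial (Fin N) K :=
    aeval fun j => linL K N (π (Pi.single j 1))
  let τ : MvPolynomial (Fin N) K →ₐ[K] MvPolynomial (Fin (N + 1)) K :=
    aeval fun j => linL K (N + 1) (s (Pi.single j 1))
  have hρ : ∀ u, ρ (linL K (N + 1) u) = linL K N (π u) := by
    intro u
    have h1 : ρ.toLinearMap ∘ₗ linL K (N + 1) = linL K N ∘ₗ π := by
      apply LinearMap.pi_ext'
      intro j
      apply LinearMap.ext_ring
      change ρ (linL K (N + 1) (Pi.single j 1)) = linL K N (π (Pi.single j 1))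
      rw [linL_single, aeval_X]
    exact LinearMap.congr_fun h1 u
  have hτ : ∀ u, τ (linL K N u) = linL K (N + 1) (s u) := by
    intro u
    have h1 : τ.toLinearMap ∘ₗ linL K N = linL K (N + 1) ∘ₗ s := by
      apply LinearMap.pi_ext'
      intro j
      apply LinearMap.ext_ring
      change τ (linL K N (Pi.single j 1)) = linL K (N + 1) (s (Pi.single j 1))
      rw [linL_single, aeval_X]
    exact LinearMap.congr_fun h1 u
  have hρτ : ∀ x, ρ (τ x) = x := by
    intro x
    have h1 : ρ.comp τ = AlgHom.id K _ := by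
      apply algHom_ext
      intro j
      rw [AlgHom.comp_apply, aeval_X, hρ, hs', linL_single]
      rfl
    exact AlgHom.congr_fun h1 x
  set I := Ideal.span {(lin q : MvPolynomial (Fin (N + 1)) K)} with hI
  have hsub : ∀ x, x - τ (ρ x) ∈ I := by
    intro x
    have h1 : (Ideal.Quotient.mkₐ K I).comp (τ.comp ρ) = Ideal.Quotient.mkₐ K I := by
      apply algHom_ext
      intro j
      rw [AlgHom.comp_apply, AlgHom.comp_apply, aeval_X, hτ]
      symm
      change Ideal.Quotient.mk I (X j) = Ideal.Quotient.mk I _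
      rw [Ideal.Quotient.mk_eq_mk_iff_sub_mem, ← linL_single, ← map_sub]
      have h2 : (Pi.single j 1 : Fin (N + 1) → K) - s (π (Pi.single j 1)) ∈ W := by
        apply hπker
        rw [map_sub, hs', sub_self]
      obtain ⟨c, hc⟩ := Submodule.mem_span_singleton.mp h2
      rw [← hc, map_smul, smul_eq_C_mul]
      exact Ideal.mul_mem_left _ _ (Ideal.mem_span_singleton_self _)
    have h2 := AlgHom.congr_fun h1 x
    have h3 : Ideal.Quotient.mk I x = Ideal.Quotient.mk I (τ (ρ x)) := h2.symm
    exact (Ideal.Quotient.mk_eq_mk_iff_sub_mem _ _).mp h3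
  refine ⟨⟨π, ρ, fun x => ⟨τ x, hρτ x⟩, ?_, ?_, ?_, hρ, hπker, hπsurj⟩⟩
  · intro x hx
    have := hsub x
    rwa [hx, map_zero, sub_zero] at this
  · change ρ (linL K (N + 1) q) = 0
    rw [hρ, hπq, map_zero]
  · intro k x hx
    have h1 := hx.aeval (fun j => linL K N (π (Pi.single j 1))) (n := 1)
      (fun j => lin_homog _)
    rwa [one_mul] at h1

namespace Rho

variable {q : Fin (N + 1) → K} (r : Rho q)

lemma mem_map {I : Ideal (MvPolynomial (Fin (N + 1)) K)} (hI : lin q ∈ I)
    {x : MvPolynomial (Fin (N + 1)) K} : r.ρ x ∈ I.map r.ρ ↔ x ∈ I := by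
  constructor
  · intro h
    obtain ⟨y, hy, hyx⟩ := (Ideal.mem_map_iff_of_surjective r.ρ r.surj).mp h
    have h1 : r.ρ (x - y) = 0 := by rw [map_sub, hyx, sub_self]
    have h2 := r.ker _ h1
    have h3 : Ideal.span {(lin q : MvPolynomial (Fin (N + 1)) K)} ≤ I := by
      rw [Ideal.span_le, Set.singleton_subset_iff]
      exact hI
    have h4 := I.add_mem (h3 h2) hy
    rwa [sub_add_cancel] at h4
  · intro h
    exact Ideal.mem_map_of_mem _ h

lemma nzd {I : Ideal (MvPolynomial (Fin (N + 1)) K)} (hI : lin q ∈ I)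
    {x : MvPolynomial (Fin (N + 1)) K} (h : NZD I x) : NZD (I.map r.ρ) (r.ρ x) := by
  intro z hz
  obtain ⟨z', rfl⟩ := r.surj z
  rw [← map_mul, r.mem_map hI] at hz
  exact (r.mem_map hI).mpr (h _ hz)

/-- the image of the remaining generators is a regular sequence -/
lemma reg {f : Fin (N + 1) → MvPolynomial (Fin (N + 1)) K} {t : Fin (N + 1)}
    (h : SRegOn Finset.univ (Function.update f t (lin q))) :
    Reg (fun i : Fin N => r.ρ (f (t.succAbove i))) := by
  classical
  intro i
  set f' := Function.update f t (lin q) with hf'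
  let T : Finset (Fin (N + 1)) :=
    insert t ((Finset.univ.filter fun j : Fin N => j < i).image t.succAbove)
  have h1 := h T (Finset.subset_univ _) (t.succAbove i) (Finset.mem_univ _) (by
    intro hmem
    rcases Finset.mem_insert.mp hmem with h2 | h2
    · exact Fin.succAbove_ne t i h2
    · obtain ⟨j, hj, hj2⟩ := Finset.mem_image.mp h2
      rw [Finset.mem_filter] at hj
      have := Fin.succAbove_right_injective hj2
      rw [this] at hj
      exact lt_irrefl _ hj.2)
  have h2 : f' (t.succAbove i) = f (t.succAbove i) := by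
    rw [hf', Function.update_of_ne (Fin.succAbove_ne t i)]
  have h3 : f' '' (T : Set (Fin (N + 1))) =
      insert (lin q) ((fun j : Fin N => f (t.succAbove j)) '' {j | j < i}) := by
    rw [Finset.coe_insert, Set.image_insert_eq, hf', Function.update_self]
    congr 1
    rw [Finset.coe_image, ← Set.image_comp]
    ext x
    constructor
    · rintro ⟨j, hj, rfl⟩
      refine ⟨j, ?_, ?_⟩
      · simpa using hj
      · change f (t.succAbove j) = Function.update f t (lin q) (t.succAbove j)
        rw [Function.update_of_ne (Fin.succAbove_ne t j)]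
    · rintro ⟨j, hj, rfl⟩
      refine ⟨j, ?_, ?_⟩
      · simpa using hj
      · change Function.update f t (lin q) (t.succAbove j) = f (t.succAbove j)
        rw [Function.update_of_ne (Fin.succAbove_ne t j)]
  rw [h2, h3] at h1
  have h4 := r.nzd (Ideal.subset_span (Set.mem_insert _ _)) h1
  rw [Ideal.map_span, Set.image_insert_eq, ← Set.image_comp] at h4
  have h5 : r.ρ (lin q) = 0 := r.zero
  rw [h5] at h4
  have h6 : Ideal.span (insert 0 ((⇑r.ρ ∘ fun j : Fin N => f (t.succAbove j)) '' {j | j < i})) =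
      Ideal.span ((⇑r.ρ ∘ fun j : Fin N => f (t.succAbove j)) '' {j | j < i}) :=
    Submodule.span_insert_zero
  rw [h6] at h4
  exact h4

/-- the image of the ideal -/
lemma map_eq {f : Fin (N + 1) → MvPolynomial (Fin (N + 1)) K} {t : Fin (N + 1)} :
    (Ideal.span (Set.range (Function.update f t (lin q)))).map r.ρ =
      Ideal.span (Set.range fun i : Fin N => r.ρ (f (t.succAbove i))) := by
  classical
  apply le_antisymm
  · rw [Ideal.map_le_iff_le_comap, Ideal.span_le]
    rintro _ ⟨i, rfl⟩
    change r.ρ (Function.update f t (lin q) i) ∈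
      Ideal.span (Set.range fun i : Fin N => r.ρ (f (t.succAbove i)))
    rcases Fin.eq_self_or_eq_succAbove t i with rfl | ⟨j, rfl⟩
    · rw [Function.update_self, r.zero]
      exact Ideal.zero_mem _
    · rw [Function.update_of_ne (Fin.succAbove_ne t j)]
      exact Ideal.subset_span ⟨j, rfl⟩
  · rw [Ideal.span_le]
    rintro _ ⟨j, rfl⟩
    apply Ideal.mem_map_of_mem
    apply Ideal.subset_span
    refine ⟨t.succAbove j, ?_⟩
    rw [Function.update_of_ne (Fin.succAbove_ne t j)]

end Rho

end Pool.Agent.Y204.LF
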