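import Pool.Agent.Y204.LF.Eig
import Pool.Agent.Y204.LF.Quot

/-!
Duality in Gorenstein algebras, two-generated ideals, and the final step of the socle lemma.
-/

open MvPolynomial
open Pool.Agent.W515.SLP (AnnP Deg annP_zero annP_of_gt annP_of_homog lin)
open H503R3.QCI (Homog comp_mul comp_mul_of_lt NZD Reg homog_span isSocleDegree_ci gr mem_gr)
open TH130CI

namespace Pool.Agent.Y204.LF

variable {K : Type*} [Field K] {n : ℕ}

/-- a functional in degree `k` which kills the Gorenstein ideal of `φ` is a contraction of `φ` -/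
lemma repr_of_kill {φ ψ : MvPolynomial (Fin n) K →ₗ[K] K} {k m : ℕ} (hφ : Deg φ (m + k))
    (hψ : Deg ψ k) (h : ∀ x ∈ gor φ, ψ x = 0) :
    ∃ y : MvPolynomial (Fin n) K, y.IsHomogeneous m ∧ ∀ x, ψ x = φ (y * x) := by
  classical
  let A := homogeneousSubmodule (Fin n) K m
  let B := homogeneousSubmodule (Fin n) K k
  let L : A →ₗ[K] Module.Dual K B :=
    { toFun := fun a => (mulF φ (a : MvPolynomial (Fin n) K)) ∘ₗ B.subtype
      map_add' := by
        intro a b
        ext x
        change φ ((a.1 + b.1) * x.1) = φ (a.1 * x.1) + φ (b.1 * x.1)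
        rw [add_mul, map_add]
      map_smul' := by
        intro c a
        ext x
        change φ ((c • a.1) * x.1) = c • φ (a.1 * x.1)
        rw [smul_mul_assoc, map_smul] }
  have hmem : (ψ ∘ₗ B.subtype : Module.Dual K B) ∈ LinearMap.range L := by
    by_contra hcon
    obtain ⟨ξ, hξ, hle⟩ := Submodule.exists_le_ker_of_notMem hcon
    obtain ⟨x, rfl⟩ := (Module.evalEquiv K B).surjective ξ
    apply hξ
    change ψ x.1 = 0
    apply h
    refine annP_of_homog hφ (by omega : k ≤ m + k) x.2 ?_
    intro v hv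
    rw [show m + k - k = m by omega] at hv
    have h1 : L ⟨v, hv⟩ ∈ LinearMap.ker (Module.evalEquiv K B x) := hle ⟨⟨v, hv⟩, rfl⟩
    have h2 : φ (v * x.1) = 0 := h1
    rw [mul_comm]
    exact h2
  obtain ⟨y, hy⟩ := hmem
  refine ⟨y.1, y.2, fun x => ?_⟩
  rw [← sum_homogeneousComponent x, Finset.mul_sum, map_sum, map_sum]
  refine Finset.sum_congr rfl fun i _ => ?_
  by_cases hi : i = k
  · subst hi
    have h1 := LinearMap.congr_fun hy ⟨homogeneousComponent i x,
      homogeneousComponent_isHomogeneous _ _⟩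
    exact h1.symm
  · rw [hψ i hi _ (homogeneousComponent_isHomogeneous _ _)]
    have h1 : (y.1 : MvPolynomial (Fin n) K).IsHomogeneous m := y.2
    exact (hφ (m + i) (by omega) _ (h1.mul (homogeneousComponent_isHomogeneous _ _))).symm

lemma dvd_of_dvd_X_mul (hn : 2 ≤ n) {c b : MvPolynomial (Fin n) K} (h : ∀ i, c ∣ X i * b) :
    c ∣ b := by
  by_cases hc : c = 0
  · subst hc
    have h1 := h ⟨0, by omega⟩
    rw [zero_dvd_iff] at h1 ⊢
    exact (mul_eq_zero.mp h1).resolve_left (X_ne_zero _)
  obtain ⟨α, hα⟩ := h ⟨0, by omega⟩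
  obtain ⟨β, hβ⟩ := h ⟨1, by omega⟩
  have h1 : (X ⟨1, by omega⟩ : MvPolynomial (Fin n) K) * α = X ⟨0, by omega⟩ * β := by
    apply mul_left_cancel₀ hc
    calc c * (X ⟨1, by omega⟩ * α) = X ⟨1, by omega⟩ * (c * α) := by ring
      _ = X ⟨0, by omega⟩ * (c * β) := by rw [← hα, ← hβ]; ring
      _ = c * (X ⟨0, by omega⟩ * β) := by ring
  have hp : Prime (X ⟨0, by omega⟩ : MvPolynomial (Fin n) K) := X_prime
  have h2 : (X ⟨0, by omega⟩ : MvPolynomial (Fin n) K) ∣ X ⟨1, by omega⟩ * α := ⟨β, h1⟩
  rcases hp.dvd_or_dvd h2 with h3 | h3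
  · exfalso
    have := congrArg Fin.val (X_dvd_X.mp h3)
    simp at this
  · obtain ⟨α', rfl⟩ := h3
    refine ⟨α', ?_⟩
    apply mul_left_cancel₀ (X_ne_zero (⟨0, by omega⟩ : Fin n) (R := K))
    rw [hα]
    ring

/-- the cofactor of a homogeneous divisor is homogeneous -/
lemma homog_cofactor {c x : MvPolynomial (Fin n) K} {γ m : ℕ} (hc : c.IsHomogeneous γ)
    (hc0 : c ≠ 0) (hγ : γ ≤ m) (h : (c * x).IsHomogeneous m) : x.IsHomogeneous (m - γ) := by
  have h1 : homogeneousComponent (m - γ) x = x := by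
    apply mul_left_cancel₀ hc0
    rw [← comp_mul hc, show γ + (m - γ) = m by omega, homogeneousComponent_of_mem h, if_pos rfl]
  rw [← h1]
  exact homogeneousComponent_isHomogeneous _ _

lemma nonunit_degree {d : MvPolynomial (Fin n) K} (hd0 : d ≠ 0) (hd : ¬ IsUnit d) :
    1 ≤ d.totalDegree := by
  by_contra hcon
  apply hd
  have h1 : d.totalDegree = 0 := by omega
  rw [totalDegree_eq_zero_iff_eq_C] at h1
  rw [h1]
  have h2 : coeff 0 d ≠ 0 := by
    intro h2
    apply hd0
    rw [h1, h2, map_zero]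
  exact (isUnit_iff_ne_zero.mpr h2).map C

/-- **Two-generated ideals in at least three variables have no socle.** -/
theorem two_gen [Infinite K] (hn : 3 ≤ n) (m : ℕ) : ∀ (m' : ℕ) (G y b : MvPolynomial (Fin n) K),
    G.IsHomogeneous m → y.IsHomogeneous m' →
    (∀ i, X i * b ∈ Ideal.span {G, y}) → b ∈ Ideal.span {G, y} := by
  classical
  induction m using Nat.strong_induction_on with
  | _ m ih =>
  intro m' G y b hG hy hb
  by_cases hG0 : G = 0
  · subst hG0
    have hsp : Ideal.span {0, y} = Ideal.span {y} := Submodule.span_insert_zero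
    rw [hsp] at hb ⊢
    rw [Ideal.mem_span_singleton]
    exact dvd_of_dvd_X_mul (by omega) fun i => Ideal.mem_span_singleton.mp (hb i)
  by_cases hrel : IsRelPrime G y
  · by_cases hm : m = 0
    · have h1 : IsUnit G := by
        by_contra hu
        have := nonunit_degree hG0 hu
        rw [hG.totalDegree hG0] at this
        omega
      have h2 : Ideal.span {G, y} = ⊤ :=
        Ideal.eq_top_of_isUnit_mem _ (Ideal.subset_span (Set.mem_insert _ _)) h1
      rw [h2]
      exact Submodule.mem_top
    by_cases hm' : m' = 0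
    · by_cases hy0 : y = 0
      · subst hy0
        have h1 : IsUnit G := hrel (dvd_refl G) (dvd_zero G)
        have h2 : Ideal.span {G, 0} = ⊤ :=
          Ideal.eq_top_of_isUnit_mem _ (Ideal.subset_span (Set.mem_insert _ _)) h1
        rw [h2]
        exact Submodule.mem_top
      have h1 : IsUnit y := by
        by_contra hu
        have := nonunit_degree hy0 hu
        rw [hy.totalDegree hy0] at this
        omega
      have h2 : Ideal.span {G, y} = ⊤ :=
        Ideal.eq_top_of_isUnit_mem _ (Ideal.subset_span (Set.mem_insert_of_mem _ rfl)) h1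
      rw [h2]
      exact Submodule.mem_top
    have hnz : NZD (Ideal.span (Set.range fun _ : Fin 1 => G)) y := by
      rw [span_one]
      intro h hh
      rw [Ideal.mem_span_singleton] at hh ⊢
      exact hrel.dvd_of_dvd_mul_left hh
    have hr := reg_snoc (reg_one hG0) hnz
    have hspan : Ideal.span (Set.range (Fin.snoc (fun _ : Fin 1 => G) y :
        Fin (1 + 1) → MvPolynomial (Fin n) K)) = Ideal.span {G, y} := by
      rw [range_snoc', Set.range_const]
      rfl
    have h1 : ∀ i, ((Fin.snoc (fun _ : Fin 1 => G) y : Fin (1 + 1) → MvPolynomial (Fin n) K)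
        i).IsHomogeneous ((Fin.snoc (fun _ : Fin 1 => m) m' : Fin (1 + 1) → ℕ) i) := by
      intro i
      refine Fin.lastCases ?_ (fun k => ?_) i
      · rw [Fin.snoc_last, Fin.snoc_last]; exact hy
      · rw [Fin.snoc_castSucc, Fin.snoc_castSucc]; exact hG
    have h2 : ∀ i, 1 ≤ (Fin.snoc (fun _ : Fin 1 => m) m' : Fin (1 + 1) → ℕ) i := by
      intro i
      refine Fin.lastCases ?_ (fun k => ?_) i
      · rw [Fin.snoc_last]; omega
      · rw [Fin.snoc_castSucc]; omega
    have h3 := no_socle (by omega : 1 + 1 < n) _ _ _ h1 h2 (sreg_of_reg h1 h2 hr) rfl b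
    rw [hspan] at h3
    exact h3 hb
  · unfold IsRelPrime at hrel
    push Not at hrel
    obtain ⟨d, hdG, hdy, hdu⟩ := hrel
    have hd0 : d ≠ 0 := by
      rintro rfl
      exact hG0 (zero_dvd_iff.mp hdG)
    set γ := d.totalDegree with hγ
    have hγ1 : 1 ≤ γ := nonunit_degree hd0 hdu
    set c := homogeneousComponent γ d with hcdef
    have hch : c.IsHomogeneous γ := homogeneousComponent_isHomogeneous _ _
    obtain ⟨G', hG'⟩ := top_dvd hG hdG
    obtain ⟨y', hy'⟩ := top_dvd hy hdy
    have hG'' : G = c * G' := hG'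
    have hy'' : y = c * y' := hy'
    have hc0 : c ≠ 0 := by
      intro h
      rw [h, zero_mul] at hG''
      exact hG0 hG''
    have hG'0 : G' ≠ 0 := by
      intro h
      rw [h, mul_zero] at hG''
      exact hG0 hG''
    have hγm : γ ≤ m := by
      have h1 := hG.totalDegree hG0
      rw [hG'', totalDegree_mul_of_isDomain hc0 hG'0, hch.totalDegree hc0] at h1
      omega
    have hG'h : G'.IsHomogeneous (m - γ) := by
      apply homog_cofactor hch hc0 hγm
      rw [← hG'']
      exact hG
    have hy'h : y'.IsHomogeneous (m' - γ) := by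
      by_cases hy'0 : y' = 0
      · rw [hy'0]
        exact isHomogeneous_zero _ _ _
      · have hy0 : y ≠ 0 := by
          rw [hy'']
          exact mul_ne_zero hc0 hy'0
        have hγm' : γ ≤ m' := by
          have h1 := hy.totalDegree hy0
          rw [hy'', totalDegree_mul_of_isDomain hc0 hy'0, hch.totalDegree hc0] at h1
          omega
        apply homog_cofactor hch hc0 hγm'
        rw [← hy'']
        exact hy
    have hcb : c ∣ b := by
      apply dvd_of_dvd_X_mul (by omega)
      intro i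
      obtain ⟨x1, x2, hx⟩ := Ideal.mem_span_pair.mp (hb i)
      rw [← hx, hG'', hy'']
      exact ⟨x1 * G' + x2 * y', by ring⟩
    obtain ⟨b', rfl⟩ := hcb
    have h1 := ih (m - γ) (by omega) (m' - γ) G' y' b' hG'h hy'h (fun i => by
      obtain ⟨x1, x2, hx⟩ := Ideal.mem_span_pair.mp (hb i)
      rw [Ideal.mem_span_pair]
      refine ⟨x1, x2, ?_⟩
      apply mul_left_cancel₀ hc0
      calc c * (x1 * G' + x2 * y') = x1 * G + x2 * y := by rw [hG'', hy'']; ring
        _ = X i * (c * b') := hx
        _ = c * (X i * b') := by ring)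
    obtain ⟨x1, x2, hx⟩ := Ideal.mem_span_pair.mp h1
    rw [Ideal.mem_span_pair]
    refine ⟨x1, x2, ?_⟩
    rw [← hx, hG'', hy'']
    ring

end Pool.Agent.Y204.LF
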