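import Pool.Agent.Y204.LF.Aci

/-!
The socle of an almost complete intersection `R / (J + (u))` in the degree of `u`, when `u` is
killed by a linear form modulo `J` (sorted degrees).
-/

open MvPolynomial
open Pool.Agent.W515.SLP (AnnP Deg annP_zero annP_of_gt annP_of_homog lin)
open H503R3.QCI (Homog comp_mul comp_mul_of_lt NZD Reg homog_span isSocleDegree_ci gr mem_gr)
open TH130CI

namespace Pool.Agent.Y204.LF

variable {K : Type*} [Field K] {n : ℕ}

/-- the socle in the degree of `u` -/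
theorem eig_case [IsAlgClosed K] {a : Fin n → MvPolynomial (Fin n) K}
    {e : Fin n → ℕ} (ha : ∀ i, (a i).IsHomogeneous (e i)) (he : ∀ i, 1 ≤ e i)
    (hreg : Reg a) (hmono : Monotone e) {d : ℕ} (hd1 : 1 ≤ d) (hD : ∀ i, e i ≤ d)
    (hN : 2 * d + 1 ≤ ∑ i, (e i - 1))
    {u : MvPolynomial (Fin n) K} (hu : u.IsHomogeneous d)
    (huJ : u ∉ Ideal.span (Set.range a)) {G : Fin n → K}
    (hG : G ≠ 0) (hGu : lin G * u ∈ Ideal.span (Set.range a))
    {b : MvPolynomial (Fin n) K} (hb : b.IsHomogeneous d)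
    (hbJ : b ∉ Ideal.span (Set.range a) ⊔ Ideal.span {u})
    (hXb : ∀ i, X i * b ∈ Ideal.span (Set.range a) ⊔ Ideal.span {u}) :
    3 ≤ n ∧ ∑ i ∈ Finset.range 3, em e i ≤ d := by
  classical
  have hinf : Infinite K := IsAlgClosed.instInfinite
  set J := Ideal.span (Set.range a) with hJdef
  have hJh : Homog J := homog_span (by rintro _ ⟨i, rfl⟩; exact ⟨e i, ha i⟩)
  have h1 : ∀ i, ∃ p : Fin n → K, X i * b - u * lin p ∈ J := by
    intro i
    have hh : (X i * b).IsHomogeneous (1 + d) := (isHomogeneous_X K i).mul hb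
    rcases sup_comp' hJh hu hh (hXb i) with ⟨h2, b', hb', h3⟩ | h2
    · have h4 : 1 + d - d = 1 := by omega
      rw [h4] at hb'
      obtain ⟨p, rfl⟩ := exists_lin hb'
      exact ⟨p, h3⟩
    · refine ⟨0, ?_⟩
      rw [lin_eq, map_zero, mul_zero, sub_zero]
      exact h2
  choose p hp using h1
  let Φ : (Fin n → K) →ₗ[K] (Fin n → K) := Fintype.linearCombination K p
  have hΦ : ∀ z, lin z * b - u * lin (Φ z) ∈ J := by
    intro z
    have h2 : lin z * b - u * lin (Φ z) = ∑ i, C (z i) * (X i * b - u * lin (p i)) := by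
      have h3 : Φ z = ∑ i, z i • p i := Fintype.linearCombination_apply _ _ _
      rw [h3, lin_sum, lin, Finset.sum_mul, Finset.mul_sum, ← Finset.sum_sub_distrib]
      refine Finset.sum_congr rfl fun i _ => ?_
      ring
    rw [h2]
    exact Ideal.sum_mem _ fun i _ => Ideal.mul_mem_left _ _ (hp i)
  obtain ⟨θ, hθ, hI⟩ := ci_gor ha he hreg
  rw [← hJdef] at hI
  set S := ∑ i, (e i - 1) with hS
  have hsplit : S = d + ((d + 1) + (S - (2 * d + 1))) := by omega
  rw [hsplit] at hθ
  set t := S - (2 * d + 1) with ht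
  obtain ⟨h2, hh2, h1, hh1, hne⟩ := exists_alpha hθ hu (by rw [← hI]; exact huJ)
  let α := mulF θ (u * h2)
  have hα : Deg α (d + 1) := by
    refine deg_mulF (s := d + t) ?_ (hu.mul hh2)
    rwa [show d + t + (d + 1) = d + (d + 1 + t) by ring]
  have hJα : J ≤ gor α := by
    intro x hx y
    rw [hI] at hx
    have h3 := hx (u * h2 * y)
    change θ (u * h2 * (x * y)) = 0
    rwa [show u * h2 * (x * y) = x * (u * h2 * y) by ring]
  have huα : ∀ x y, u * x ∈ J → α (x * y) = 0 := by
    intro x y hx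
    rw [hI] at hx
    have h3 := hx (h2 * y)
    change θ (u * h2 * (x * y)) = 0
    rwa [show u * h2 * (x * y) = u * x * (h2 * y) by ring]
  have hsym : ∀ z z' x, α (lin (Φ z) * (lin z' * x)) = α (lin z * (lin (Φ z') * x)) := by
    intro z z' x
    rw [← sub_eq_zero, ← map_sub]
    have h3 : lin (Φ z) * (lin z' * x) - lin z * (lin (Φ z') * x) =
        (lin (Φ z) * lin z' - lin z * lin (Φ z')) * x := by ring
    rw [h3]
    apply huα
    have h4 := J.sub_mem (J.mul_mem_left (lin z) (hΦ z')) (J.mul_mem_left (lin z') (hΦ z))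
    have h5 : u * (lin (Φ z) * lin z' - lin z * lin (Φ z')) =
        lin z * (lin z' * b - u * lin (Φ z')) - lin z' * (lin z * b - u * lin (Φ z)) := by ring
    rwa [h5]
  obtain ⟨z0, μ, hz0, hμ⟩ := exists_eigen (by omega : 1 ≤ d) hα hh1 hne hsym
  let Ψ : (Fin n → K) →ₗ[K] (Fin n → K) := Φ - μ • LinearMap.id
  have hΨ : ∀ z, Ψ z = Φ z - μ • z := fun z => rfl
  have hΨlin : ∀ z, (lin (Ψ z) : MvPolynomial (Fin n) K) = lin (Φ z) - C μ * lin z := by
    intro z
    rw [hΨ, lin_sub_smul]
  have hsym' : ∀ z z' x, α (lin (Ψ z) * (lin z' * x)) = α (lin z * (lin (Ψ z') * x)) := by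
    intro z z' x
    rw [hΨlin, hΨlin]
    have h3 : (lin (Φ z) - C μ * lin z) * (lin z' * x) =
        lin (Φ z) * (lin z' * x) - C μ * (lin z * (lin z' * x)) := by ring
    have h4 : lin z * ((lin (Φ z') - C μ * lin z') * x) =
        lin z * (lin (Φ z') * x) - C μ * (lin z * (lin z' * x)) := by ring
    rw [h3, h4, map_sub, map_sub, hsym]
  let γ := mulF α (lin z0)
  have hγ : Deg γ d := by
    refine deg_mulF (s := 1) ?_ (lin_homog _)
    rwa [add_comm 1 d]
  obtain ⟨h3, hh3, hne3⟩ : ∃ h3 : MvPolynomial (Fin n) K, h3.IsHomogeneous d ∧ γ h3 ≠ 0 := by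
    by_contra hcon
    push Not at hcon
    apply hz0
    refine annP_of_homog hα (by omega) (lin_homog _) ?_
    intro v hv
    exact hcon v hv
  have hJγ : J ≤ gor γ := by
    intro x hx y
    have h4 := hJα hx (lin z0 * y)
    change α (lin z0 * (x * y)) = 0
    rwa [show lin z0 * (x * y) = x * (lin z0 * y) by ring]
  have hT := codim_two ha he hreg (by omega : 1 ≤ d) hD hJγ hh3 hne3
  set T : Submodule K (Fin n → K) :=
    ((gor γ).restrictScalars K).comap (linL K n) with hTdef
  let Z : Submodule K (Fin n → K) :=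
    (J.restrictScalars K).comap ((LinearMap.mulLeft K u) ∘ₗ linL K n)
  have hZ : ∀ z, z ∈ Z ↔ u * lin z ∈ J := fun z => Iff.rfl
  have hZT : Z ≤ T := by
    intro z hz y
    change α (lin z0 * (lin z * y)) = 0
    rw [show lin z0 * (lin z * y) = lin z * (lin z0 * y) by ring]
    exact huα _ _ hz
  have hRT : LinearMap.range Ψ ≤ T := by
    rintro _ ⟨z, rfl⟩ y
    change α (lin z0 * (lin (Ψ z) * y)) = 0
    rw [← hsym']
    exact hμ _
  have hle : Module.finrank K (LinearMap.range Ψ ⊔ Z : Submodule K (Fin n → K)) ≤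
      Module.finrank K T := Submodule.finrank_mono (sup_le hRT hZT)
  have hZ1 : 1 ≤ Module.finrank K Z := by
    rw [Nat.one_le_iff_ne_zero]
    intro h4
    rw [Submodule.finrank_eq_zero] at h4
    have h5 : G ∈ Z := by
      rw [hZ, mul_comm]
      exact hGu
    rw [h4, Submodule.mem_bot] at h5
    exact hG h5
  have hge := finrank_comap_ge Ψ Z
  have h4 : 3 ≤ Module.finrank K (Z.comap Ψ) := by omega
  have hn3 : 3 ≤ n := by
    have h5 := Submodule.finrank_le (Z.comap Ψ)
    rw [Module.finrank_fin_fun] at h5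
    omega
  obtain ⟨y, hy, hyZ⟩ := exists_indep h4
  have hb' : (b - C μ * u).IsHomogeneous d := by
    have h5 : (C μ * u).IsHomogeneous (0 + d) := (isHomogeneous_C _ _).mul hu
    rw [zero_add] at h5
    exact hb.sub h5
  have hb'J : b - C μ * u ∉ J := by
    intro h
    apply hbJ
    have h5 : b = (b - C μ * u) + C μ * u := by ring
    rw [h5]
    exact Ideal.add_mem _ (Ideal.mem_sup_left h)
      (Ideal.mem_sup_right (Ideal.mul_mem_left _ _ (Ideal.mem_span_singleton_self u)))
  have h5 := bound_sorted ha he hreg hmono hn3 (g := fun i => lin (y i)) (ε := fun _ => 1)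
    (fun i => lin_homog _) (fun _ => le_refl 1) (reg_lin hy) hb' hb'J (fun i => by
    have h6 : u * lin (Ψ (y i)) ∈ J := hyZ i
    have h7 := hΦ (y i)
    have h8 := J.add_mem h7 h6
    rw [hΨlin] at h8
    have h9 : lin (y i) * b - u * lin (Φ (y i)) + u * (lin (Φ (y i)) - C μ * lin (y i)) =
        lin (y i) * (b - C μ * u) := by ring
    rwa [h9] at h8)
  refine ⟨hn3, ?_⟩
  simpa using h5

end Pool.Agent.Y204.LF
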