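import Pool.Agent.Y204.LF.Red

/-!
Injectivity of all maps `ℓ ^ k : A_i → A_{i+k}` with `i + k ≤ d + 1` for Artinian complete
intersections with generators of degree at least `d`.
-/

open MvPolynomial
open Pool.Agent.W515.SLP (AnnP Deg annP_zero annP_of_gt annP_of_homog lin)
open H503R3.QCI (Homog comp_mul comp_mul_of_lt NZD Reg homog_span isSocleDegree_ci gr mem_gr)
open TH130CI

namespace Pool.Agent.Y204.LF

variable {K : Type*} [Field K] {n : ℕ}

lemma ci_finite {f : Fin n → MvPolynomial (Fin n) K} {e : Fin n → ℕ}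
    (hf : ∀ i, (f i).IsHomogeneous (e i)) (he : ∀ i, 1 ≤ e i) (hreg : Reg f) :
    Module.Finite K (MvPolynomial (Fin n) K ⧸ Ideal.span (Set.range f)) := by
  obtain ⟨φ, hφ, hI⟩ := ci_gor' hf he hreg
  rw [hI]
  exact gor_finite hφ

/-- an element of degree `D` killed by `ℓ` -/
lemma exists_a0 [Infinite K] {f : Fin n → MvPolynomial (Fin n) K} {e : Fin n → ℕ}
    (hf : ∀ i, (f i).IsHomogeneous (e i)) (he : ∀ i, 1 ≤ e i) (hreg : Reg f) {q : Fin n → K}
    {D : ℕ} (hD : D ≤ ∑ i, (e i - 1)) (k : ℕ) :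
    ∀ (i : ℕ) (g : MvPolynomial (Fin n) K), i + k ≤ D + 1 → g.IsHomogeneous i →
      g ∉ Ideal.span (Set.range f) → lin q ^ k * g ∈ Ideal.span (Set.range f) →
      ∃ a0 : MvPolynomial (Fin n) K, a0.IsHomogeneous D ∧ a0 ∉ Ideal.span (Set.range f) ∧
        lin q * a0 ∈ Ideal.span (Set.range f) := by
  have hup : ∀ (m j : ℕ) (g : MvPolynomial (Fin n) K), j + m = D → g.IsHomogeneous j →
      g ∉ Ideal.span (Set.range f) → lin q * g ∈ Ideal.span (Set.range f) →
      ∃ a0 : MvPolynomial (Fin n) K, a0.IsHomogeneous D ∧ a0 ∉ Ideal.span (Set.range f) ∧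
        lin q * a0 ∈ Ideal.span (Set.range f) := by
    intro m
    induction m with
    | zero =>
      intro j g hj hg hgI hqg
      obtain rfl : j = D := by omega
      exact ⟨g, hg, hgI, hqg⟩
    | succ m ih =>
      intro j g hj hg hgI hqg
      have h1 : ∃ i, X i * g ∉ Ideal.span (Set.range f) := by
        by_contra hcon
        push Not at hcon
        exact hgI (socle_ci _ f e hf he (sreg_of_reg hf he hreg) rfl j g hg (by omega) hcon)
      obtain ⟨i, hi⟩ := h1
      refine ih (1 + j) (X i * g) (by omega) ((isHomogeneous_X K i).mul hg) hi ?_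
      rw [mul_left_comm]
      exact Ideal.mul_mem_left _ _ hqg
  induction k with
  | zero =>
    intro i g _ _ hgI h
    rw [pow_zero, one_mul] at h
    exact absurd h hgI
  | succ k ih =>
    intro i g hik hg hgI h
    by_cases h1 : lin q ^ k * g ∈ Ideal.span (Set.range f)
    · exact ih i g (by omega) hg hgI h1
    · have h2 : (lin q ^ k * g).IsHomogeneous (k + i) := by
        have := ((lin_homog q).pow k).mul hg
        rwa [one_mul] at this
      refine hup (D - (k + i)) (k + i) _ (by omega) h2 h1 ?_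
      rwa [← mul_assoc, ← pow_succ']

lemma map_lin {L : Type*} [Field L] [Algebra K L] (q : Fin n → K) :
    map (algebraMap K L) (lin q) = lin (fun i => algebraMap K L (q i)) := by
  simp only [lin, map_sum, map_mul, map_C, map_X]

/-- generators of one degree -/
theorem inj_equi [CharZero K] {N d : ℕ} (hd : 2 ≤ d) (hN : 2 * d + 1 ≤ N * (d - 1))
    {f : Fin (N + 1) → MvPolynomial (Fin (N + 1)) K} (hf : ∀ i, (f i).IsHomogeneous d)
    (hreg : Reg f) :
    ∃ q : Fin (N + 1) → K, ∀ i k : ℕ, i + k ≤ d + 1 → ∀ g : MvPolynomial (Fin (N + 1)) K,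
      g.IsHomogeneous i → lin q ^ k * g ∈ Ideal.span (Set.range f) →
      g ∈ Ideal.span (Set.range f) := by
  classical
  have hd1 : 1 ≤ d := by omega
  set I := Ideal.span (Set.range f) with hI
  have hIh : Homog I := homog_span (by rintro _ ⟨i, rfl⟩; exact ⟨d, hf i⟩)
  have hfin : Module.Finite K (MvPolynomial (Fin (N + 1)) K ⧸ I) :=
    ci_finite hf (fun _ => hd1) hreg
  have hSne : {q : Fin (N + 1) → K | q ≠ 0}.Nonempty := by
    refine ⟨Pi.single 0 1, ?_⟩
    intro h
    have := congrFun h 0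
    rw [Pi.single_eq_same, Pi.zero_apply] at this
    exact one_ne_zero this
  obtain ⟨q, hqS, hq⟩ := exists_maxS I (d + 1) hSne
  refine ⟨q, fun i k hik g hg hgl => ?_⟩
  by_contra hgI
  have hgl' : lin q ^ (d + 1 - i) * g ∈ I := by
    have h1 := I.mul_mem_left (lin q ^ (d + 1 - i - k)) hgl
    rwa [← mul_assoc, ← pow_add, show d + 1 - i - k + k = d + 1 - i by omega] at h1
  obtain ⟨j, b, hj, hb, hbI, hXb⟩ := reduce hIh hfin openC_ne hqS hq (by omega) hg hgI hgl'
  have hσ : d ≤ ∑ _i : Fin (N + 1), (d - 1) := by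
    rw [Finset.sum_const, Finset.card_univ, Fintype.card_fin, smul_eq_mul]
    have : N * (d - 1) ≤ (N + 1) * (d - 1) := Nat.mul_le_mul_right _ (by omega)
    omega
  obtain ⟨a0, ha0, ha0I, hqa0⟩ := exists_a0 (e := fun _ => d) hf (fun _ => hd1) hreg hσ k i g
    hik hg hgI hgl
  -- base change
  let L := AlgebraicClosure K
  let ι : MvPolynomial (Fin (N + 1)) K →+* MvPolynomial (Fin (N + 1)) L := map (algebraMap K L)
  have hmap : I.map ι = Ideal.span (Set.range fun i => ι (f i)) := by
    rw [hI, Ideal.map_span, ← Set.range_comp]; rfl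
  have hmap2 : (I ⊔ Ideal.span {lin q}).map ι =
      Ideal.span (Set.range fun i => ι (f i)) ⊔
        Ideal.span {lin (fun i => algebraMap K L (q i))} := by
    rw [Ideal.map_sup, hmap, Ideal.map_span, Set.image_singleton]
    congr 3
    exact map_lin q
  refine core (K := L) hd hN (f := fun i => ι (f i)) (fun i => (hf i).map _) (reg_map hreg)
    (q := fun i => algebraMap K L (q i)) ?_ (a0 := ι a0) (ha0.map _) ?_ ?_
    (b := ι b) (by omega : j ≤ d) (hb.map _) ?_ ?_
  · intro h
    apply hqS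
    ext i
    have h1 := congrFun h i
    exact (map_eq_zero (algebraMap K L)).mp h1
  · rw [← hmap]
    intro h
    exact ha0I (mem_map_iff'.mp h)
  · rw [← hmap]
    have h1 : lin (fun i => algebraMap K L (q i)) * ι a0 = ι (lin q * a0) := by
      rw [map_mul]
      congr 1
      exact (map_lin q).symm
    rw [h1]
    exact Ideal.mem_map_of_mem _ hqa0
  · rw [← hmap2]
    intro h
    exact hbI (mem_map_iff'.mp h)
  · intro i
    rw [← hmap2]
    have h1 : X i * ι b = ι (X i * b) := by
      rw [map_mul]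
      congr 1
      exact (map_X _ i).symm
    rw [h1]
    exact Ideal.mem_map_of_mem _ (hXb i)

/-- a generator of degree `d + 1` -/
theorem inj_mixed [CharZero K] {N d : ℕ} (hd : 2 ≤ d) (hN : 2 * d + 1 ≤ N * (d - 1))
    {f : Fin (N + 1) → MvPolynomial (Fin (N + 1)) K} {e : Fin (N + 1) → ℕ}
    (hf : ∀ i, (f i).IsHomogeneous (e i)) (he1 : ∀ i, d ≤ e i) (he2 : ∀ i, e i ≤ d + 1)
    (t : Fin (N + 1)) (ht : e t = d + 1) (hreg : Reg f) :
    ∃ q : Fin (N + 1) → K, ∀ i k : ℕ, i + k ≤ d + 1 → ∀ g : MvPolynomial (Fin (N + 1)) K,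
      g.IsHomogeneous i → lin q ^ k * g ∈ Ideal.span (Set.range f) →
      g ∈ Ideal.span (Set.range f) := by
  classical
  have hd1 : ∀ i, 1 ≤ e i := fun i => le_trans (by omega) (he1 i)
  set I := Ideal.span (Set.range f) with hI
  have hIh : Homog I := homog_span (by rintro _ ⟨i, rfl⟩; exact ⟨e i, hf i⟩)
  have hfin : Module.Finite K (MvPolynomial (Fin (N + 1)) K ⧸ I) := ci_finite hf hd1 hreg
  have hsr := sreg_of_reg hf hd1 hreg
  set P := Ideal.span (f '' ((Finset.univ.erase t : Finset (Fin (N + 1))) : Set (Fin (N + 1))))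
    with hP
  have hPt : NZD P (f t) := hsr _ (Finset.subset_univ _) t (Finset.mem_univ _) (by simp)
  obtain ⟨q0, hq0⟩ := exists_lin_nzd (hf t) (hd1 t) hPt
  obtain ⟨q, hqS, hq⟩ := exists_maxS I (d + 1) (S := {q | NZD P (lin q)}) ⟨q0, hq0⟩
  refine ⟨q, fun i k hik g hg hgl => ?_⟩
  by_contra hgI
  have hgl' : lin q ^ (d + 1 - i) * g ∈ I := by
    have h1 := I.mul_mem_left (lin q ^ (d + 1 - i - k)) hgl
    rwa [← mul_assoc, ← pow_add, show d + 1 - i - k + k = d + 1 - i by omega] at h1
  obtain ⟨j, b, hj, hb, hbI, hXb⟩ := reduce hIh hfin (openC_nzd P) hqS hq (by omega) hg hgI hgl'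
  have hqP : NZD P (lin q) := hqS
  have hsr' : SRegOn Finset.univ (Function.update f t (lin q)) :=
    sreg_update hf hd1 hsr t (lin_homog q) hqP
  set f' := Function.update f t (lin q) with hf'
  set e' := Function.update e t 1 with he'
  have hf'h : ∀ i, (f' i).IsHomogeneous (e' i) := by
    intro i
    by_cases hi : i = t
    · subst hi
      rw [hf', he', Function.update_self, Function.update_self]
      exact lin_homog q
    · rw [hf', he', Function.update_of_ne hi, Function.update_of_ne hi]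
      exact hf i
  have he'1 : ∀ i, 1 ≤ e' i := by
    intro i
    by_cases hi : i = t
    · subst hi
      rw [he', Function.update_self]
    · rw [he', Function.update_of_ne hi]
      exact hd1 i
  have he'2 : ∀ i, e' i ≤ d + 1 := by
    intro i
    by_cases hi : i = t
    · subst hi
      rw [he', Function.update_self]
      omega
    · rw [he', Function.update_of_ne hi]
      exact he2 i
  have hIP : I = P ⊔ Ideal.span {f t} := range_eq_sup f t
  have hJP : Ideal.span (Set.range f') = P ⊔ Ideal.span {lin q} := by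
    rw [range_eq_sup f' t]
    congr 2
    · apply Set.image_congr
      intro i hi
      rw [hf', Function.update_of_ne]
      rintro rfl
      simp at hi
    · rw [hf', Function.update_self]
  have hIJ : I ⊔ Ideal.span {lin q} = Ideal.span (Set.range f') ⊔ Ideal.span {f t} := by
    rw [hIP, hJP, sup_assoc, sup_assoc, sup_comm (Ideal.span {f t})]
  rw [hIJ] at hbI
  have h1 := low_case hf'h he'1 (reg_of_sreg hsr') (by omega : 1 ≤ d + 1) he'2
    (u := f t) (δ := d + 1) (by rw [← ht]; exact hf t) (j := j) hj hb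
    (fun h => hbI (Ideal.mem_sup_left h)) (fun i => by rw [← hIJ]; exact hXb i)
  have h2 : N * (d - 1) ≤ ∑ i, (e' i - 1) := by
    rw [← Finset.add_sum_erase Finset.univ _ (Finset.mem_univ t)]
    have h3 : ∑ i ∈ Finset.univ.erase t, (d - 1) ≤ ∑ i ∈ Finset.univ.erase t, (e' i - 1) := by
      refine Finset.sum_le_sum fun i hi => ?_
      rw [he', Function.update_of_ne (Finset.ne_of_mem_erase hi)]
      have := he1 i
      omega
    rw [Finset.sum_const, Finset.card_erase_of_mem (Finset.mem_univ t), Finset.card_univ,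
      Fintype.card_fin, smul_eq_mul, Nat.add_sub_cancel] at h3
    omega
  omega

/-- **Injectivity in the lowest degrees.** -/
theorem inj_all [CharZero K] {d : ℕ} (hd : 2 ≤ d) (hn : 2 * d + 1 ≤ (n - 1) * (d - 1))
    {f : Fin n → MvPolynomial (Fin n) K} {e : Fin n → ℕ}
    (hf : ∀ i, (f i).IsHomogeneous (e i)) (he : ∀ i, d ≤ e i) (hreg : Reg f) :
    ∃ q : Fin n → K, ∀ i k : ℕ, i + k ≤ d + 1 → ∀ g : MvPolynomial (Fin n) K,
      g.IsHomogeneous i → lin q ^ k * g ∈ Ideal.span (Set.range f) →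
      g ∈ Ideal.span (Set.range f) := by
  have hn1 : n ≠ 0 := by
    rintro rfl
    omega
  obtain ⟨N, rfl⟩ := Nat.exists_eq_succ_of_ne_zero hn1
  rw [Nat.succ_sub_one] at hn
  by_cases h1 : ∃ t, d + 1 < e t
  · obtain ⟨t, ht⟩ := h1
    exact ci_inj_big (fun i => le_trans (by omega) (he i)) hf hreg t ht
  · push Not at h1
    by_cases h2 : ∃ t, e t = d + 1
    · obtain ⟨t, ht⟩ := h2
      exact inj_mixed hd hn hf he h1 t ht hreg
    · push Not at h2
      refine inj_equi hd hn (fun i => ?_) hreg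
      have h3 : e i = d := by
        have := he i
        have := h1 i
        have := h2 i
        omega
      rw [← h3]
      exact hf i

/-- **The maps of the strong Lefschetz property in the lowest and highest degrees.** -/
theorem lowest [CharZero K] {d : ℕ} (hd : 2 ≤ d) (hn : 2 * d + 1 ≤ (n - 1) * (d - 1))
    {f : Fin n → MvPolynomial (Fin n) K} {e : Fin n → ℕ}
    (hf : ∀ i, (f i).IsHomogeneous (e i)) (he : ∀ i, d ≤ e i) (hreg : Reg f) :
    ∃ ℓ : MvPolynomial (Fin n) K, ℓ.IsHomogeneous 1 ∧ ∀ i k : ℕ,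
      (i + k ≤ d + 1 → ∀ g ∈ homogeneousSubmodule (Fin n) K i,
        ℓ ^ k * g ∈ Ideal.span (Set.range f) → g ∈ Ideal.span (Set.range f)) ∧
      (∑ j, (e j - 1) ≤ i + (d + 1) → ∀ h ∈ homogeneousSubmodule (Fin n) K (i + k),
        ∃ g ∈ homogeneousSubmodule (Fin n) K i, h - ℓ ^ k * g ∈ Ideal.span (Set.range f)) := by
  obtain ⟨q, hq⟩ := inj_all hd hn hf he hreg
  exact full_of_inj (fun i => le_trans (by omega) (he i)) hf hreg hq

end Pool.Agent.Y204.LF
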