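import Pool.Agent.Y204.LF.Dual

/-!
Two annihilators of small degree are impossible.
-/

open MvPolynomial
open Pool.Agent.W515.SLP (AnnP Deg annP_zero annP_of_gt annP_of_homog lin)
open H503R3.QCI (Homog comp_mul comp_mul_of_lt NZD Reg homog_span isSocleDegree_ci gr mem_gr)
open TH130CI

namespace Pool.Agent.Y204.LF

variable {K : Type*} [Field K]

/-- forms of small degree in the ideal of a regular sequence -/
lemma mem_low {n m : ℕ} {F : Fin m → MvPolynomial (Fin n) K} {e' : Fin m → ℕ}
    (hF : ∀ i, (F i).IsHomogeneous (e' i)) {I : Ideal (MvPolynomial (Fin n) K)} (hI : Homog I)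
    {d : ℕ} (h : ∀ i, F i ∈ I ∨ d < e' i) {x : MvPolynomial (Fin n) K} (hx : x.IsHomogeneous d)
    (hxF : x ∈ Ideal.span (Set.range F)) : x ∈ I := by
  obtain ⟨c, hc⟩ := Ideal.mem_span_range_iff_exists_fun.mp hxF
  have h1 : homogeneousComponent d x = x := by
    rw [homogeneousComponent_of_mem hx, if_pos rfl]
  rw [← h1, ← hc, map_sum]
  refine Ideal.sum_mem _ fun i _ => ?_
  rcases h i with h2 | h2
  · exact hI _ (Ideal.mul_mem_left _ _ h2) _
  · rw [mul_comm, comp_mul_of_lt (hF i) h2]
    exact Ideal.zero_mem _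

/-- **Two annihilators of small degree.** -/
theorem kappa [Infinite K] {n : ℕ} (hn : 4 ≤ n) {a : Fin n → MvPolynomial (Fin n) K}
    {e : Fin n → ℕ} (ha : ∀ i, (a i).IsHomogeneous (e i)) (he : ∀ i, 1 ≤ e i) (hreg : Reg a)
    (hmono : Monotone e) {j s δ : ℕ} (hs : 1 ≤ s) (hδ : δ + s = j + 1)
    {u b : MvPolynomial (Fin n) K} (hu : u.IsHomogeneous δ) (hb : b.IsHomogeneous j)
    (huJ : u ∉ Ideal.span (Set.range a))
    (hbJ : b ∉ Ideal.span (Set.range a) ⊔ Ideal.span {u})
    {p : Fin n → MvPolynomial (Fin n) K} (hp : ∀ i, (p i).IsHomogeneous s)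
    (hpb : ∀ i, X i * b - u * p i ∈ Ideal.span (Set.range a))
    {g : Fin 2 → MvPolynomial (Fin n) K} {ε : Fin 2 → ℕ} (hg : ∀ i, (g i).IsHomogeneous (ε i))
    (hε1 : ∀ i, 1 ≤ ε i) (hε2 : ∀ i, ε i ≤ s + 1) (hgreg : Reg g)
    (hgu : ∀ i, g i * u ∈ Ideal.span (Set.range a))
    (he2 : ∀ i : Fin n, 2 ≤ i.1 → s + 2 ≤ e i)
    (hκ : δ + ∑ i, (ε i - 1) ≤ em e 0 + em e 1 + 1) : False := by
  classical
  set E2 := ∑ i, (ε i - 1) with hE2
  obtain ⟨n', hn', F, e', hF, hFe, he', hsum, hmem, hdeg, hgF⟩ := extend_sorted ha he hreg hmono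
    hg hε1 hgreg (n - 2) (by omega)
  obtain rfl : n' = n := by omega
  have hbd := bound_sorted ha he hreg hmono (by omega : 2 ≤ n') hg hε1 hgreg hu huJ hgu
  rw [Finset.sum_range_succ, Finset.sum_range_one, ← hE2] at hbd
  have hS0 : ∑ i, (e i - 1) = em e 0 + em e 1 +
      ∑ i ∈ Finset.range (n' - 2), em e (2 + i) := by
    have h := Finset.sum_range_add (em e) 2 (n' - 2)
    rw [Nat.add_sub_cancel' (by omega : 2 ≤ n')] at h
    rw [sum_em, h, Finset.sum_range_succ, Finset.sum_range_one]
  set τ2 := ∑ i ∈ Finset.range (n' - 2), em e (2 + i) with hτ2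
  have hτ2b : 2 * s + 2 ≤ τ2 := by
    have h1 : ∑ i ∈ Finset.range 2, em e (2 + i) ≤ τ2 :=
      Finset.sum_le_sum_of_subset (Finset.range_subset_range.mpr (by omega))
    rw [Finset.sum_range_succ, Finset.sum_range_one] at h1
    have h2 : s + 1 ≤ em e (2 + 0) := by
      rw [em, dif_pos (by omega : 2 + 0 < n')]
      have := he2 ⟨2 + 0, by omega⟩ (le_refl 2)
      omega
    have h3 : s + 1 ≤ em e (2 + 1) := by
      rw [em, dif_pos (by omega : 2 + 1 < n')]
      have := he2 ⟨2 + 1, by omega⟩ (by change 2 ≤ 3; omega)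
      omega
    omega
  set S := ∑ i, (e i - 1) with hS
  have hsoc : ∀ (d : ℕ) (x : MvPolynomial (Fin n') K), d < S → x.IsHomogeneous d →
      (∀ i, X i * x ∈ Ideal.span (Set.range a)) → x ∈ Ideal.span (Set.range a) :=
    fun d x hd hx h => socle_ci _ a e ha he (sreg_of_reg ha he hreg) rfl d x hx hd h
  -- all of `F` kills `u` and `b`
  have hgb : ∀ k, g k * b ∈ Ideal.span (Set.range a) := by
    intro k
    have := hε2 k
    apply hsoc (ε k + j) _ (by omega) ((hg k).mul hb)
    intro i
    have h1 : X i * (g k * b) = g k * (X i * b - u * p i) + (g k * u) * p i := by ring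
    rw [h1]
    exact Ideal.add_mem _ (Ideal.mul_mem_left _ _ (hpb i)) (Ideal.mul_mem_right _ _ (hgu k))
  have hkill : ∀ y : MvPolynomial (Fin n') K, (∀ k, g k * y ∈ Ideal.span (Set.range a)) →
      ∀ x ∈ Ideal.span (Set.range F), x * y ∈ Ideal.span (Set.range a) := by
    intro y hy x hx
    have h1 : Ideal.span (Set.range a) ⊔ Ideal.span (Set.range g) ≤
        Submodule.comap (LinearMap.mulRight (MvPolynomial (Fin n') K) y)
          (Ideal.span (Set.range a)) := by
      rw [sup_le_iff]
      constructor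
      · intro z hz
        exact Ideal.mul_mem_right _ _ hz
      · rw [Ideal.span_le]
        rintro _ ⟨k, rfl⟩
        exact hy k
    have h2 : Ideal.span (Set.range F) ≤
        Submodule.comap (LinearMap.mulRight (MvPolynomial (Fin n') K) y)
          (Ideal.span (Set.range a)) := by
      rw [Ideal.span_le]
      rintro _ ⟨i, rfl⟩
      exact h1 (hmem i)
    exact h2 hx
  obtain ⟨φ, hφ, hJ⟩ := ci_gor ha he hreg
  obtain ⟨φF, hφF, hFg⟩ := ci_gor hFe he' hF
  rw [hsum] at hφF
  rw [← hS] at hφ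
  -- the element `θ`
  obtain ⟨κ, hκ1⟩ : ∃ κ, E2 + τ2 = κ + (S - δ) := ⟨E2 + τ2 - (S - δ), by omega⟩
  have hκ2 : κ ≤ 1 := by omega
  obtain ⟨θ, hθ, hθφ⟩ := repr_of_kill (φ := φF) (ψ := mulF φ u) (k := S - δ) (m := κ)
    (by rwa [← hκ1])
    (deg_mulF (s := δ) (by rwa [show δ + (S - δ) = S by omega]) hu)
    (fun x hx => by
      rw [← hFg] at hx
      have h1 := hkill u hgu x hx
      rw [hJ] at h1
      have h2 := h1 1
      rw [mul_one, mul_comm] at h2
      exact h2)
  obtain ⟨b', hb', hbφ⟩ := repr_of_kill (φ := φF) (ψ := mulF φ b) (k := S - j) (m := κ + s - 1)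
    (by rwa [show κ + s - 1 + (S - j) = κ + (S - δ) by omega, ← hκ1])
    (deg_mulF (s := j) (by rwa [show j + (S - j) = S by omega]) hb)
    (fun x hx => by
      rw [← hFg] at hx
      have h1 := hkill b hgb x hx
      rw [hJ] at h1
      have h2 := h1 1
      rw [mul_one, mul_comm] at h2
      exact h2)
  have hrel : ∀ i, X i * b' - θ * p i ∈ Ideal.span (Set.range F) := by
    intro i
    rw [hFg]
    intro x
    have h1 : (X i * b' - θ * p i) * x = b' * (X i * x) - θ * (p i * x) := by ring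
    rw [h1, map_sub, ← hbφ, ← hθφ, mulF_apply, mulF_apply, ← map_sub]
    have h2 : b * (X i * x) - u * (p i * x) = (X i * b - u * p i) * x := by ring
    rw [h2]
    have h3 := hpb i
    rw [hJ] at h3
    exact h3 x
  have hb'F : b' ∉ Ideal.span (Set.range F) ⊔ Ideal.span {θ} := by
    intro h
    obtain ⟨f1, hf1, f2, hf2, h2⟩ := Submodule.mem_sup.mp h
    obtain ⟨r, rfl⟩ := Ideal.mem_span_singleton.mp hf2
    apply hbJ
    have h3 : b - u * r ∈ Ideal.span (Set.range a) := by
      rw [hJ]
      intro x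
      have h4 : (b - u * r) * x = b * x - u * (r * x) := by ring
      rw [h4, map_sub]
      have h5 := hbφ x
      have h6 := hθφ (r * x)
      rw [mulF_apply] at h5 h6
      rw [h5, h6, ← h2, ← map_sub]
      have h7 : (f1 + θ * r) * x - θ * (r * x) = f1 * x := by ring
      rw [h7]
      rw [hFg] at hf1
      exact hf1 x
    have h4 : b = (b - u * r) + u * r := by ring
    rw [h4]
    exact Ideal.add_mem _ (Ideal.mem_sup_left h3)
      (Ideal.mem_sup_right (Ideal.mul_mem_right _ _ (Ideal.mem_span_singleton_self u)))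
  have hθ0 : θ ≠ 0 := by
    intro h
    apply huJ
    rw [hJ]
    intro x
    have h1 := hθφ x
    rw [mulF_apply, h, zero_mul, map_zero] at h1
    exact h1
  rcases Nat.eq_zero_or_pos κ with hκ0 | hκpos
  · subst hκ0
    apply hb'F
    have h1 : IsUnit θ := by
      by_contra hu'
      have := nonunit_degree hθ0 hu'
      rw [hθ.totalDegree hθ0] at this
      omega
    have h2 : Ideal.span (Set.range F) ⊔ Ideal.span {θ} = ⊤ :=
      Ideal.eq_top_of_isUnit_mem _ (Ideal.mem_sup_right (Ideal.mem_span_singleton_self θ)) h1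
    rw [h2]
    exact Submodule.mem_top
  · obtain rfl : κ = 1 := by omega
    obtain ⟨z, rfl⟩ := exists_lin hθ
    have hz : z ≠ 0 := by
      rintro rfl
      apply hθ0
      rw [lin_eq, map_zero]
    obtain ⟨N, rfl⟩ := Nat.exists_eq_succ_of_ne_zero (by omega : n' ≠ 0)
    obtain ⟨r⟩ := exists_rho hz
    have hgh : Homog (Ideal.span (Set.range g)) :=
      homog_span (by rintro _ ⟨i, rfl⟩; exact ⟨ε i, hg i⟩)
    have hb's : b'.IsHomogeneous s := by
      rwa [show 1 + s - 1 = s by omega] at hb'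
    have hlow : ∀ i, X i * b' - lin z * p i ∈ Ideal.span (Set.range g) := by
      intro i
      refine mem_low (d := s + 1) hFe hgh (fun i => ?_) ?_ (hrel i)
      · rcases hdeg i with h1 | ⟨k', hk', h2⟩
        · exact Or.inl h1
        · right
          rw [h2]
          have := he2 k' hk'
          omega
      · have h1 := (isHomogeneous_X K i).mul hb's
        have h2 := (lin_homog z).mul (hp i)
        rw [add_comm 1 s] at h1 h2
        exact h1.sub h2
    have hgmap : (Ideal.span (Set.range g)).map r.ρ = Ideal.span {r.ρ (g 0), r.ρ (g 1)} := by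
      rw [Ideal.map_span, ← Set.range_comp]
      congr 1
      ext x
      simp only [Set.mem_range, Function.comp_apply, Set.mem_insert_iff, Set.mem_singleton_iff]
      constructor
      · rintro ⟨i, rfl⟩
        fin_cases i
        · left; rfl
        · right; rfl
      · rintro (rfl | rfl)
        · exact ⟨0, rfl⟩
        · exact ⟨1, rfl⟩
    have hX : ∀ k, X k * r.ρ b' ∈ Ideal.span {r.ρ (g 0), r.ρ (g 1)} := by
      intro k
      obtain ⟨v, hv⟩ := r.surjπ (Pi.single k 1)
      have h1 : lin v * b' - lin z * ∑ i, C (v i) * p i ∈ Ideal.span (Set.range g) := by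
        have h2 : lin v * b' - lin z * ∑ i, C (v i) * p i =
            ∑ i, C (v i) * (X i * b' - lin z * p i) := by
          rw [lin, Finset.sum_mul, Finset.mul_sum, ← Finset.sum_sub_distrib]
          refine Finset.sum_congr rfl fun i _ => ?_
          ring
        rw [h2]
        exact Ideal.sum_mem _ fun i _ => Ideal.mul_mem_left _ _ (hlow i)
      have h2 := Ideal.mem_map_of_mem r.ρ h1
      rw [hgmap, map_sub, map_mul, map_mul, r.zero, zero_mul, sub_zero, r.lin_eq, hv] at h2
      have h3 : (lin (Pi.single k 1) : MvPolynomial (Fin N) K) = X k := linL_single k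
      rwa [h3] at h2
    have h1 := two_gen (by omega : 3 ≤ N) _ _ _ _ _ (r.hom _ _ (hg 0)) (r.hom _ _ (hg 1)) hX
    rw [← hgmap] at h1
    apply hb'F
    have h2 : b' ∈ Ideal.span (Set.range g) ⊔ Ideal.span {lin z} := by
      have hzI : lin z ∈ Ideal.span (Set.range g) ⊔ Ideal.span {lin z} :=
        Ideal.mem_sup_right (Ideal.mem_span_singleton_self _)
      rw [← r.mem_map hzI]
      exact Ideal.map_mono le_sup_left h1
    have h3 : Ideal.span (Set.range g) ⊔ Ideal.span {lin z} ≤
        Ideal.span (Set.range F) ⊔ Ideal.span {lin z} := by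
      refine sup_le_sup_right ?_ _
      rw [Ideal.span_le]
      rintro _ ⟨i, rfl⟩
      exact hgF i
    exact h3 h2

end Pool.Agent.Y204.LF
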