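import Pool.Agent.Y204.LF.AciX
import Pool.Agent.Y204.LF.Final

/-!
The range of injectivity for Artinian complete intersections in at least five variables.
-/

open MvPolynomial
open Pool.Agent.W515.SLP (AnnP Deg annP_zero annP_of_gt annP_of_homog lin)
open H503R3.QCI (Homog comp_mul comp_mul_of_lt NZD Reg homog_span isSocleDegree_ci gr mem_gr)
open TH130CI

namespace Pool.Agent.Y204.LF

section open_sets

variable {K : Type*} [Field K] [Infinite K] {n : ℕ}

lemma openC_inter {S1 S2 : Set (Fin n → K)} (h1 : OpenC S1) (h2 : OpenC S2) :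
    OpenC (S1 ∩ S2) := by
  intro q hq q'
  refine ((h1 q hq.1 q').union (h2 q hq.2 q')).subset ?_
  intro t ht
  by_contra hcon
  rw [Set.mem_union, not_or] at hcon
  apply ht
  constructor
  · by_contra h
    exact hcon.1 h
  · by_contra h
    exact hcon.2 h

lemma inter_nonempty {S1 S2 : Set (Fin n → K)} (h1 : OpenC S1) (h2 : OpenC S2)
    (hn1 : S1.Nonempty) (hn2 : S2.Nonempty) : (S1 ∩ S2).Nonempty := by
  obtain ⟨q1, hq1⟩ := hn1
  obtain ⟨q2, hq2⟩ := hn2
  have f1 := h1 q1 hq1 (q2 - q1)
  have f2 := (h2 q2 hq2 (q1 - q2)).image (fun t : K => 1 - t)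
  obtain ⟨t, ht⟩ := (f1.union f2).exists_notMem
  rw [Set.mem_union, not_or] at ht
  refine ⟨q1 + t • (q2 - q1), ?_, ?_⟩
  · by_contra h
    exact ht.1 h
  · by_contra h
    apply ht.2
    refine ⟨1 - t, ?_, by ring⟩
    intro h3
    apply h
    have h4 : q1 + t • (q2 - q1) = q2 + (1 - t) • (q1 - q2) := by
      rw [sub_smul, one_smul, smul_sub, smul_sub]
      abel
    rw [h4]
    exact h3

lemma openC_univ : OpenC (Set.univ : Set (Fin n → K)) := by
  intro q _ q'
  have h1 : {t : K | q + t • q' ∉ (Set.univ : Set (Fin n → K))} = ∅ := by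
    ext t
    constructor
    · intro h
      exact absurd (Set.mem_univ _) h
    · intro h
      exact absurd h (Set.notMem_empty _)
  rw [h1]
  exact Set.finite_empty

/-- finitely many conditions -/
lemma openC_all {m : ℕ} {S : Fin m → Set (Fin n → K)} (h : ∀ i, OpenC (S i))
    (hne : ∀ i, (S i).Nonempty) :
    OpenC {q | ∀ i, q ∈ S i} ∧ {q : Fin n → K | ∀ i, q ∈ S i}.Nonempty := by
  classical
  have key : ∀ T : Finset (Fin m), OpenC {q | ∀ i ∈ T, q ∈ S i} ∧
      {q : Fin n → K | ∀ i ∈ T, q ∈ S i}.Nonempty := by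
    intro T
    induction T using Finset.induction_on with
    | empty =>
      have h1 : {q : Fin n → K | ∀ i ∈ (∅ : Finset (Fin m)), q ∈ S i} = Set.univ := by
        ext q
        constructor
        · intro _
          exact Set.mem_univ _
        · intro _ i hi
          exact absurd hi (Finset.notMem_empty _)
      rw [h1]
      exact ⟨openC_univ, ⟨0, Set.mem_univ _⟩⟩
    | insert a T _ ih =>
      have h1 : {q : Fin n → K | ∀ i ∈ insert a T, q ∈ S i} =
          S a ∩ {q : Fin n → K | ∀ i ∈ T, q ∈ S i} := by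
        ext q
        constructor
        · intro hq
          exact ⟨hq a (Finset.mem_insert_self _ _), fun i hi => hq i (Finset.mem_insert_of_mem hi)⟩
        · rintro ⟨h1, h2⟩ i hi
          rcases Finset.mem_insert.mp hi with rfl | hi
          · exact h1
          · exact h2 i hi
      rw [h1]
      exact ⟨openC_inter (h a) ih.1, inter_nonempty (h a) ih.1 (hne a) ih.2⟩
  have h1 := key Finset.univ
  have h2 : {q : Fin n → K | ∀ i ∈ (Finset.univ : Finset (Fin m)), q ∈ S i} =
      {q | ∀ i, q ∈ S i} := by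
    ext q
    constructor
    · intro hq i
      exact hq i (Finset.mem_univ _)
    · intro hq i _
      exact hq i
  rw [h2] at h1
  exact h1

end open_sets

variable {K : Type*} [Field K]

/-- a form of the right degree which kills a generator of top degree -/
lemma exists_G {n : ℕ} {f : Fin n → MvPolynomial (Fin n) K} {e : Fin n → ℕ}
    (hf : ∀ i, (f i).IsHomogeneous (e i)) {q : Fin n → K}
    (hq : ∀ t, SRegOn Finset.univ (Function.update f t (lin q))) {D m : ℕ} (hD : ∀ i, e i ≤ D)
    {t0 : Fin n} (ht0 : e t0 = D) (hm : D ≤ m + 1) {a0 : MvPolynomial (Fin n) K}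
    (ha0 : a0.IsHomogeneous m) (ha0I : a0 ∉ Ideal.span (Set.range f))
    (hqa0 : lin q * a0 ∈ Ideal.span (Set.range f)) :
    ∃ (t : Fin n) (c : MvPolynomial (Fin n) K), e t = D ∧ c.IsHomogeneous (m + 1 - D) ∧
      c ∉ Ideal.span {(lin q : MvPolynomial (Fin n) K)} ∧
      c * f t ∈ Ideal.span (Set.range (Function.update f t (lin q))) := by
  classical
  obtain ⟨c, hc⟩ : ∃ c : Fin n → MvPolynomial (Fin n) K,
      (∀ i, (c i).IsHomogeneous (m + 1 - e i)) ∧ ∑ i, c i * f i = lin q * a0 := by
    obtain ⟨c, hc⟩ := Ideal.mem_span_range_iff_exists_fun.mp hqa0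
    refine ⟨fun i => homogeneousComponent (m + 1 - e i) (c i),
      fun i => homogeneousComponent_isHomogeneous _ _, ?_⟩
    have h2 := congrArg (homogeneousComponent (m + 1)) hc
    rw [map_sum] at h2
    have h3 : homogeneousComponent (m + 1) (lin q * a0) = lin q * a0 := by
      rw [homogeneousComponent_of_mem ((lin_homog q).mul ha0), if_pos (add_comm m 1)]
    rw [h3] at h2
    rw [← h2]
    refine Finset.sum_congr rfl fun i _ => ?_
    have h4 : m + 1 = e i + (m + 1 - e i) := by
      have := hD i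
      omega
    rw [mul_comm (c i) (f i)]
    conv_rhs => rw [h4, comp_mul (hf i)]
    rw [mul_comm]
  obtain ⟨hch, hc⟩ := hc
  by_cases hall : ∀ t, e t = D → c t ∈ Ideal.span {(lin q : MvPolynomial (Fin n) K)}
  · exfalso
    have h1 : ∀ t, ∃ r, e t = D → c t = lin q * r := by
      intro t
      by_cases ht : e t = D
      · obtain ⟨r, hr⟩ := Ideal.mem_span_singleton.mp (hall t ht)
        exact ⟨r, fun _ => hr⟩
      · exact ⟨0, fun h => absurd h ht⟩
    choose r hr using h1
    let T : Finset (Fin n) := Finset.univ.filter fun i => e i = D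
    let T' : Finset (Fin n) := Finset.univ.filter fun i => e i ≠ D
    have hsplit : ∑ i ∈ T, c i * f i + ∑ i ∈ T', c i * f i = lin q * a0 := by
      rw [← hc]
      exact Finset.sum_filter_add_sum_filter_not Finset.univ (fun i => e i = D)
        (fun i => c i * f i)
    have h2 : lin q * (a0 - ∑ i ∈ T, r i * f i) = ∑ i ∈ T', c i * f i := by
      rw [mul_sub, ← hsplit, Finset.mul_sum]
      have h3 : ∑ i ∈ T, lin q * (r i * f i) = ∑ i ∈ T, c i * f i := by
        refine Finset.sum_congr rfl fun i hi => ?_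
        rw [hr i (Finset.mem_filter.mp hi).2, mul_assoc]
      rw [h3]
      ring
    have ht0T : t0 ∉ T' := by
      intro h
      exact (Finset.mem_filter.mp h).2 ht0
    have h3 := hq t0 T' (Finset.subset_univ _) t0 (Finset.mem_univ _) ht0T
    rw [Function.update_self] at h3
    have h4 : (Function.update f t0 (lin q)) '' (T' : Set (Fin n)) = f '' (T' : Set (Fin n)) := by
      apply Set.image_congr
      intro i hi
      rw [Function.update_of_ne]
      rintro rfl
      exact ht0T (Finset.mem_coe.mp hi)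
    rw [h4] at h3
    have h5 : a0 - ∑ i ∈ T, r i * f i ∈ Ideal.span (f '' (T' : Set (Fin n))) := by
      apply h3
      rw [h2]
      exact Ideal.sum_mem _ fun i hi => Ideal.mul_mem_left _ _
        (Ideal.subset_span ⟨i, Finset.mem_coe.mpr hi, rfl⟩)
    apply ha0I
    have h6 : a0 = (a0 - ∑ i ∈ T, r i * f i) + ∑ i ∈ T, r i * f i := by ring
    rw [h6]
    refine Ideal.add_mem _ (Ideal.span_mono (Set.image_subset_range _ _) h5) ?_
    exact Ideal.sum_mem _ fun i _ => Ideal.mul_mem_left _ _ (Ideal.subset_span ⟨i, rfl⟩)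
  · push Not at hall
    obtain ⟨t, ht, hct⟩ := hall
    refine ⟨t, c t, ht, by rw [← ht]; exact hch t, hct, ?_⟩
    have h1 : c t * f t = lin q * a0 - ∑ i ∈ Finset.univ.erase t, c i * f i := by
      rw [← hc, ← Finset.add_sum_erase Finset.univ _ (Finset.mem_univ t)]
      ring
    rw [h1]
    refine Ideal.sub_mem _ (Ideal.mul_mem_right _ _ (Ideal.subset_span ⟨t, ?_⟩)) ?_
    · rw [Function.update_self]
    · refine Ideal.sum_mem _ fun i hi => Ideal.mul_mem_left _ _ (Ideal.subset_span ⟨i, ?_⟩)
      rw [Function.update_of_ne (Finset.ne_of_mem_erase hi)]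

/-- `eig_case` over arbitrary fields -/
theorem eig_case' {n : ℕ} {a : Fin n → MvPolynomial (Fin n) K}
    {e : Fin n → ℕ} (ha : ∀ i, (a i).IsHomogeneous (e i)) (he : ∀ i, 1 ≤ e i)
    (hreg : Reg a) (hmono : Monotone e) {d : ℕ} (hd1 : 1 ≤ d) (hD : ∀ i, e i ≤ d)
    (hN : 2 * d + 1 ≤ ∑ i, (e i - 1))
    {u : MvPolynomial (Fin n) K} (hu : u.IsHomogeneous d)
    (huJ : u ∉ Ideal.span (Set.range a)) {G : MvPolynomial (Fin n) K} (hG1 : G.IsHomogeneous 1)
    (hG : G ≠ 0) (hGu : G * u ∈ Ideal.span (Set.range a))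
    {b : MvPolynomial (Fin n) K} (hb : b.IsHomogeneous d)
    (hbJ : b ∉ Ideal.span (Set.range a) ⊔ Ideal.span {u})
    (hXb : ∀ i, X i * b ∈ Ideal.span (Set.range a) ⊔ Ideal.span {u}) :
    ∑ i ∈ Finset.range 3, em e i ≤ d := by
  let L := AlgebraicClosure K
  let ι : MvPolynomial (Fin n) K →+* MvPolynomial (Fin n) L := map (algebraMap K L)
  obtain ⟨z, rfl⟩ := exists_lin hG1
  have hmap : (Ideal.span (Set.range a)).map ι = Ideal.span (Set.range fun i => ι (a i)) := by
    rw [Ideal.map_span, ← Set.range_comp]; rfl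
  have hmap2 : (Ideal.span (Set.range a) ⊔ Ideal.span {u}).map ι =
      Ideal.span (Set.range fun i => ι (a i)) ⊔ Ideal.span {ι u} := by
    rw [Ideal.map_sup, hmap, Ideal.map_span, Set.image_singleton]
  refine (eig_case (K := L) (a := fun i => ι (a i)) (fun i => (ha i).map _) he (reg_map hreg)
    hmono hd1 hD hN (u := ι u) (hu.map _) ?_ (G := fun i => algebraMap K L (z i)) ?_ ?_
    (b := ι b) (hb.map _) ?_ ?_).2
  · rw [← hmap]
    intro h
    exact huJ (mem_map_iff'.mp h)
  · intro h
    apply hG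
    have h1 : z = 0 := by
      ext i
      have h1 := congrFun h i
      exact (map_eq_zero (algebraMap K L)).mp h1
    rw [h1, lin_eq, map_zero]
  · rw [← hmap]
    have h1 : lin (fun i => algebraMap K L (z i)) * ι u = ι (lin z * u) := by
      rw [map_mul]
      congr 1
      exact (map_lin z).symm
    rw [h1]
    exact Ideal.mem_map_of_mem _ hGu
  · rw [← hmap2]
    intro h
    exact hbJ (mem_map_iff'.mp h)
  · intro i
    rw [← hmap2]
    have h1 : X i * ι b = ι (X i * b) := by
      rw [map_mul]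
      congr 1
      exact (map_X _ i).symm
    rw [h1]
    exact Ideal.mem_map_of_mem _ (hXb i)

/-- the socle element in the quotient by `ℓ` -/
lemma descend {N : ℕ} {f : Fin (N + 1) → MvPolynomial (Fin (N + 1)) K} {q : Fin (N + 1) → K}
    (r : Rho q) (t : Fin (N + 1)) {b : MvPolynomial (Fin (N + 1)) K}
    (hbI : b ∉ Ideal.span (Set.range f) ⊔ Ideal.span {lin q})
    (hXb : ∀ i, X i * b ∈ Ideal.span (Set.range f) ⊔ Ideal.span {lin q}) :
    r.ρ b ∉ Ideal.span (Set.range fun i : Fin N => r.ρ (f (t.succAbove i))) ⊔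
        Ideal.span {r.ρ (f t)} ∧
      ∀ k, X k * r.ρ b ∈ Ideal.span (Set.range fun i : Fin N => r.ρ (f (t.succAbove i))) ⊔
        Ideal.span {r.ρ (f t)} := by
  classical
  have hIP := range_eq_sup f t
  have hJP : Ideal.span (Set.range (Function.update f t (lin q))) =
      Ideal.span (f '' ((Finset.univ.erase t : Finset (Fin (N + 1))) : Set (Fin (N + 1)))) ⊔
        Ideal.span {lin q} := by
    rw [range_eq_sup (Function.update f t (lin q)) t]
    congr 2
    · apply Set.image_congr
      intro i hi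
      rw [Function.update_of_ne]
      rintro rfl
      simp at hi
    · rw [Function.update_self]
  have hIJ : Ideal.span (Set.range f) ⊔ Ideal.span {lin q} =
      Ideal.span (Set.range (Function.update f t (lin q))) ⊔ Ideal.span {f t} := by
    rw [hIP, hJP, sup_assoc, sup_assoc, sup_comm (Ideal.span {f t})]
  have hmap : (Ideal.span (Set.range f) ⊔ Ideal.span {lin q}).map r.ρ =
      Ideal.span (Set.range fun i : Fin N => r.ρ (f (t.succAbove i))) ⊔
        Ideal.span {r.ρ (f t)} := by
    rw [hIJ, Ideal.map_sup, r.map_eq, Ideal.map_span, Set.image_singleton]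
  have hq : lin q ∈ Ideal.span (Set.range f) ⊔ Ideal.span {lin q} :=
    Ideal.mem_sup_right (Ideal.mem_span_singleton_self _)
  constructor
  · rw [← hmap, r.mem_map hq]
    exact hbI
  · intro k
    obtain ⟨v, hv⟩ := r.surjπ (Pi.single k 1)
    have h3 : (lin (Pi.single k 1) : MvPolynomial (Fin N) K) = X k := linL_single k
    have h4 : lin v * b = ∑ i, C (v i) * (X i * b) := by
      rw [lin, Finset.sum_mul]
      exact Finset.sum_congr rfl fun i _ => mul_assoc _ _ _
    rw [← h3, ← hv, ← r.lin_eq, ← map_mul, ← hmap, r.mem_map hq, h4]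
    exact Ideal.sum_mem _ fun i _ => Ideal.mul_mem_left _ _ (hXb i)

end Pool.Agent.Y204.LF
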