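import Pool.Agent.Y204.LF.Core3

/-!
Reduction of the injectivity of the multiplication maps to the socle of `R / (I + (ℓ))`.
-/

open MvPolynomial
open Pool.Agent.W515.SLP (AnnP Deg annP_zero annP_of_gt annP_of_homog lin)
open H503R3.QCI (Homog comp_mul comp_mul_of_lt NZD Reg homog_span isSocleDegree_ci gr mem_gr)
open TH130CI

namespace Pool.Agent.Y204.LF

variable {K : Type*} [Field K] {n : ℕ}

/-- an open condition on linear forms -/
def OpenC (S : Set (Fin n → K)) : Prop := ∀ q ∈ S, ∀ q', {t : K | q + t • q' ∉ S}.Finite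

lemma exists_maxS (I : Ideal (MvPolynomial (Fin n) K)) (N : ℕ) {S : Set (Fin n → K)}
    (hS : S.Nonempty) :
    ∃ q ∈ S, ∀ q' ∈ S, ∑ i ∈ Finset.range (N + 1), rk I N i q' ≤
      ∑ i ∈ Finset.range (N + 1), rk I N i q := by
  have hb : ∀ q, ∑ i ∈ Finset.range (N + 1), rk I N i q ≤
      ∑ i ∈ Finset.range (N + 1), n ^ i := by
    intro q
    refine Finset.sum_le_sum fun i _ => ?_
    exact le_trans (Submodule.finrank_map_le _ _) (finrank_AA_le I i)
  have hbdd : BddAbove ((fun q : Fin n → K => ∑ i ∈ Finset.range (N + 1), rk I N i q) '' S) :=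
    ⟨_, by rintro _ ⟨q, _, rfl⟩; exact hb q⟩
  obtain ⟨q, hqS, hq⟩ := Nat.sSup_mem (hS.image _) hbdd
  refine ⟨q, hqS, fun q' hq' => ?_⟩
  have h1 := le_csSup hbdd ⟨q', hq', rfl⟩
  rw [← hq] at h1
  exact h1

lemma finite_excessS {I : Ideal (MvPolynomial (Fin n) K)}
    (hf : Module.Finite K (MvPolynomial (Fin n) K ⧸ I)) {N i : ℕ} (hi : i ≤ N)
    {S : Set (Fin n → K)} (hS : OpenC S) {q : Fin n → K} (hqS : q ∈ S)
    (hq : ∀ q' ∈ S, ∑ i ∈ Finset.range (N + 1), rk I N i q' ≤
      ∑ i ∈ Finset.range (N + 1), rk I N i q)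
    (q' : Fin n → K) : {t : K | rk I N i q < rk I N i (q + t • q')}.Finite := by
  have h1 : ((⋃ j ∈ Finset.range (N + 1), {t : K | rk I N j (q + t • q') < rk I N j q}) ∪
      {t : K | q + t • q' ∉ S}).Finite :=
    (Set.Finite.biUnion (Finset.finite_toSet _) fun j _ => finite_bad I hf N j q q').union
      (hS q hqS q')
  refine h1.subset ?_
  intro t ht
  by_contra hcon
  rw [Set.mem_union, not_or] at hcon
  obtain ⟨hcon, hcon2⟩ := hcon
  have hcon3 : q + t • q' ∈ S := by
    by_contra h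
    exact hcon2 h
  simp only [Set.mem_iUnion, not_exists] at hcon
  have h2 : ∀ j ∈ Finset.range (N + 1), rk I N j q ≤ rk I N j (q + t • q') :=
    fun j hj => not_lt.mp (fun h => hcon j hj h)
  have h3 : ∑ j ∈ Finset.range (N + 1), rk I N j q <
      ∑ j ∈ Finset.range (N + 1), rk I N j (q + t • q') :=
    Finset.sum_lt_sum h2 ⟨i, Finset.mem_range.mpr (by omega), ht⟩
  exact absurd (hq (q + t • q') hcon3) (not_le.mpr h3)

lemma openC_ne : OpenC {q : Fin n → K | q ≠ 0} := by
  intro q hq q'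
  apply Set.Subsingleton.finite
  intro s hs t ht
  have hs' : q + s • q' = 0 := by
    by_contra h
    exact hs h
  have ht' : q + t • q' = 0 := by
    by_contra h
    exact ht h
  by_contra hne
  have h1 : (s - t) • q' = 0 := by
    rw [sub_smul, sub_eq_zero]
    exact add_left_cancel (hs'.trans ht'.symm)
  have h2 : q' = 0 := by
    rcases smul_eq_zero.mp h1 with h | h
    · exact absurd (sub_eq_zero.mp h) hne
    · exact h
  rw [h2, smul_zero, add_zero] at hs'
  exact hq hs'

lemma nzd_iff (P : Ideal (MvPolynomial (Fin n) K)) (x : MvPolynomial (Fin n) K) :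
    NZD P x ↔ ∀ p ∈ associatedPrimes (MvPolynomial (Fin n) K) (MvPolynomial (Fin n) K ⧸ P),
      x ∉ p := by
  have hun := biUnion_associatedPrimes_eq_zero_divisors (MvPolynomial (Fin n) K)
    (MvPolynomial (Fin n) K ⧸ P)
  constructor
  · intro h p hp hx
    have h1 : x ∈ ⋃ p ∈ associatedPrimes (MvPolynomial (Fin n) K) (MvPolynomial (Fin n) K ⧸ P),
        (p : Set (MvPolynomial (Fin n) K)) := Set.mem_iUnion₂.mpr ⟨p, hp, hx⟩
    rw [hun] at h1
    obtain ⟨y, hy, hxy⟩ := h1
    obtain ⟨w, rfl⟩ := Ideal.Quotient.mk_surjective y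
    apply hy
    rw [Ideal.Quotient.eq_zero_iff_mem]
    apply h
    have h2 : Ideal.Quotient.mk P (x * w) = 0 := hxy
    exact Ideal.Quotient.eq_zero_iff_mem.mp h2
  · intro h g hg
    by_contra hgJ
    have h1 : x ∈
        {r : MvPolynomial (Fin n) K | ∃ y : MvPolynomial (Fin n) K ⧸ P, y ≠ 0 ∧ r • y = 0} := by
      refine ⟨Ideal.Quotient.mk P g, ?_, ?_⟩
      · rwa [Ne, Ideal.Quotient.eq_zero_iff_mem]
      · have h2 : Ideal.Quotient.mk P (x * g) = 0 := Ideal.Quotient.eq_zero_iff_mem.mpr hg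
        exact h2
    rw [← hun] at h1
    obtain ⟨p, hp, hqp⟩ := Set.mem_iUnion₂.mp h1
    exact h p hp hqp

lemma openC_nzd (P : Ideal (MvPolynomial (Fin n) K)) : OpenC {q : Fin n → K | NZD P (lin q)} := by
  intro q hq q'
  have hq0 : NZD P (lin q) := hq
  rw [nzd_iff] at hq0
  have hfin := associatedPrimes.finite (MvPolynomial (Fin n) K) (MvPolynomial (Fin n) K ⧸ P)
  have h1 : (⋃ p ∈ associatedPrimes (MvPolynomial (Fin n) K) (MvPolynomial (Fin n) K ⧸ P),
      {t : K | lin (q + t • q') ∈ p}).Finite := by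
    refine Set.Finite.biUnion hfin fun p hp => ?_
    apply Set.Subsingleton.finite
    intro s hs t ht
    have hs' : lin (q + s • q') ∈ p := hs
    have ht' : lin (q + t • q') ∈ p := ht
    rw [lin_add_smul, smul_eq_C_mul] at hs' ht'
    by_contra hne
    have h2 : C (s - t) * lin q' ∈ p := by
      have h3 := p.sub_mem hs' ht'
      have h4 : lin q + C s * lin q' - (lin q + C t * lin q') = C (s - t) * lin q' := by
        rw [map_sub]; ring
      rwa [h4] at h3
    have h3 : lin q' ∈ p := by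
      have h4 := p.mul_mem_left (C (s - t)⁻¹) h2
      rwa [← mul_assoc, ← map_mul, inv_mul_cancel₀ (sub_ne_zero.mpr hne), map_one, one_mul] at h4
    apply hq0 p hp
    have h4 := p.sub_mem hs' (p.mul_mem_left (C s) h3)
    rwa [add_sub_cancel_right] at h4
  refine h1.subset ?_
  intro t ht
  have ht' : ¬ NZD P (lin (q + t • q')) := ht
  rw [nzd_iff] at ht'
  push Not at ht'
  obtain ⟨p, hp, hpt⟩ := ht'
  exact Set.mem_iUnion₂.mpr ⟨p, hp, hpt⟩

/-- first order lifting -/
lemma lift_forms [CharZero K] {I : Ideal (MvPolynomial (Fin n) K)}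
    (hfin : Module.Finite K (MvPolynomial (Fin n) K ⧸ I)) {M : ℕ} {S : Set (Fin n → K)}
    (hS : OpenC S) {q : Fin n → K} (hqS : q ∈ S)
    (hq : ∀ q' ∈ S, ∑ i ∈ Finset.range (M + 1), rk I M i q' ≤
      ∑ i ∈ Finset.range (M + 1), rk I M i q)
    {i : ℕ} (hi : i < M) {g : MvPolynomial (Fin n) K} (hg : g.IsHomogeneous i)
    (hgl : lin q ^ (M - i) * g ∈ I) {h : MvPolynomial (Fin n) K}
    (hh : h.IsHomogeneous (M - i)) : h * g ∈ I ⊔ Ideal.span {lin q} := by
  classical
  set w : MvPolynomial (Fin n) K ⧸ I := Ideal.Quotient.mk I g with hw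
  have hk : 1 ≤ M - i := by omega
  have hwk : (Ideal.Quotient.mk I (lin q)) ^ (M - i) * w = 0 := by
    rw [hw, ← map_pow, ← map_mul]
    exact Ideal.Quotient.eq_zero_iff_mem.mpr hgl
  have hwA : w ∈ AA I i := mem_AA.mpr ⟨g, hg, rfl⟩
  let Wc : Submodule K (MvPolynomial (Fin n) K) :=
    ((I ⊔ Ideal.span {lin q}).restrictScalars K).comap (LinearMap.mulRight K g)
  have h2 : ∀ q' : Fin n → K, (lin q' ^ (M - i) : MvPolynomial (Fin n) K) ∈ Wc := by
    intro q'
    change lin q' ^ (M - i) * g ∈ I ⊔ Ideal.span {lin q}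
    have h3 : (Ideal.Quotient.mk I (lin q')) ^ (M - i) * w ∈ (AA I (M - 1)).map
        (LinearMap.mulLeft K ((Ideal.Quotient.mk I (lin q)) ^ (M - i - (M - i - 1)))) := by
      refine lift_mem (V := AA I i) hk (by omega) ?_ ?_ hwA hwk
      · rintro v hv a b hab
        obtain ⟨v', hv', rfl⟩ := mem_AA.mp hv
        rw [← map_pow, ← map_pow, ← map_mul, ← map_mul]
        refine mem_AA.mpr ⟨_, ?_, rfl⟩
        have := (((lin_homog q).pow a).mul ((lin_homog q').pow b)).mul hv'
        rwa [show 1 * a + 1 * b + i = M - 1 by omega] at this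
      · have h3 := finite_excessS hfin hi.le hS hqS hq q'
        refine h3.subset ?_
        intro t ht
        change rk I M i q < rk I M i (q + t • q')
        have e1 : rk I M i q = Module.finrank K ((AA I i).map
          (LinearMap.mulLeft K ((Ideal.Quotient.mk I (lin q)) ^ (M - i)))) := rfl
        have e2 : rk I M i (q + t • q') = Module.finrank K ((AA I i).map
          (LinearMap.mulLeft K ((Ideal.Quotient.mk I (lin q) +
            t • Ideal.Quotient.mk I (lin q')) ^ (M - i)))) := by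
          rw [rk, lin_add_smul, map_add]
          rfl
        rw [e1, e2]
        exact ht
    rw [show M - i - (M - i - 1) = 1 by omega, pow_one] at h3
    obtain ⟨y, -, hy⟩ := h3
    obtain ⟨y', rfl⟩ := Ideal.Quotient.mk_surjective y
    have h4 : Ideal.Quotient.mk I (lin q' ^ (M - i) * g) = Ideal.Quotient.mk I (lin q * y') := by
      rw [map_mul, map_pow, map_mul]
      exact hy.symm
    have h5 := (Ideal.Quotient.mk_eq_mk_iff_sub_mem _ _).mp h4
    have h6 : lin q' ^ (M - i) * g = (lin q' ^ (M - i) * g - lin q * y') + y' * lin q := by ring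
    rw [h6]
    exact Ideal.add_mem _ (Ideal.mem_sup_left h5)
      (Ideal.mem_sup_right (Ideal.mul_mem_left _ _ (Ideal.mem_span_singleton_self _)))
  exact pow_span h2 hh

/-- an element killed by all forms of degree `k` has a multiple in the socle -/
lemma exists_socle {J : Ideal (MvPolynomial (Fin n) K)} (k : ℕ) :
    ∀ (i : ℕ) (g : MvPolynomial (Fin n) K), g.IsHomogeneous i → g ∉ J →
      (∀ h : MvPolynomial (Fin n) K, h.IsHomogeneous k → h * g ∈ J) →
      ∃ (j : ℕ) (b : MvPolynomial (Fin n) K), j < i + k ∧ b.IsHomogeneous j ∧ b ∉ J ∧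
        ∀ m, X m * b ∈ J := by
  induction k with
  | zero =>
    intro i g _ hgJ h
    exfalso
    apply hgJ
    have := h 1 (isHomogeneous_one _ _)
    rwa [one_mul] at this
  | succ k ih =>
    intro i g hg hgJ h
    by_cases hX : ∀ m, X m * g ∈ J
    · exact ⟨i, g, by omega, hg, hgJ, hX⟩
    · push Not at hX
      obtain ⟨m, hm⟩ := hX
      have h1 : (X m * g).IsHomogeneous (1 + i) := (isHomogeneous_X K m).mul hg
      obtain ⟨j, b, hj, hb⟩ := ih (1 + i) _ h1 hm (fun h' hh' => by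
        have h2 := h (h' * X m) (hh'.mul (isHomogeneous_X K m))
        rwa [mul_assoc] at h2)
      exact ⟨j, b, by omega, hb⟩

/-- division by `ℓ` -/
lemma exists_notMem {I : Ideal (MvPolynomial (Fin n) K)} (hI : Homog I) {M : ℕ} {q : Fin n → K} :
    ∀ (i : ℕ), i ≤ M → ∀ g : MvPolynomial (Fin n) K, g.IsHomogeneous i → g ∉ I →
      lin q ^ (M - i) * g ∈ I → ∃ (j : ℕ) (g' : MvPolynomial (Fin n) K), j ≤ M ∧
        g'.IsHomogeneous j ∧ g' ∉ I ⊔ Ideal.span {lin q} ∧ lin q ^ (M - j) * g' ∈ I := by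
  intro i
  induction i with
  | zero =>
    intro hi g hg hgI hgl
    by_cases h : g ∈ I ⊔ Ideal.span {lin q}
    · exfalso
      rcases sup_comp' hI (lin_homog q) hg h with ⟨h2, -⟩ | h2
      · omega
      · exact hgI h2
    · exact ⟨0, g, hi, hg, h, hgl⟩
  | succ i ih =>
    intro hi g hg hgI hgl
    by_cases h : g ∈ I ⊔ Ideal.span {lin q}
    · rcases sup_comp' hI (lin_homog q) hg h with ⟨h2, y, hy, h3⟩ | h2
      · rw [Nat.add_sub_cancel] at hy
        refine ih (by omega) y hy ?_ ?_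
        · intro hyI
          apply hgI
          have h4 := I.add_mem h3 (I.mul_mem_left (lin q) hyI)
          rwa [sub_add_cancel] at h4
        · have h4 := I.sub_mem hgl (I.mul_mem_left (lin q ^ (M - (i + 1))) h3)
          have h5 : lin q ^ (M - (i + 1)) * g - lin q ^ (M - (i + 1)) * (g - lin q * y) =
              lin q ^ (M - i) * y := by
            rw [show M - i = M - (i + 1) + 1 by omega, pow_succ]
            ring
          rwa [h5] at h4
      · exact absurd h2 hgI
    · exact ⟨i + 1, g, hi, hg, h, hgl⟩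

/-- **Reduction.** -/
theorem reduce [CharZero K] {I : Ideal (MvPolynomial (Fin n) K)} (hI : Homog I)
    (hfin : Module.Finite K (MvPolynomial (Fin n) K ⧸ I)) {M : ℕ} {S : Set (Fin n → K)}
    (hS : OpenC S) {q : Fin n → K} (hqS : q ∈ S)
    (hq : ∀ q' ∈ S, ∑ i ∈ Finset.range (M + 1), rk I M i q' ≤
      ∑ i ∈ Finset.range (M + 1), rk I M i q)
    {i : ℕ} (hi : i ≤ M) {g : MvPolynomial (Fin n) K} (hg : g.IsHomogeneous i) (hgI : g ∉ I)
    (hgl : lin q ^ (M - i) * g ∈ I) :
    ∃ (j : ℕ) (b : MvPolynomial (Fin n) K), j < M ∧ b.IsHomogeneous j ∧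
      b ∉ I ⊔ Ideal.span {lin q} ∧ ∀ m, X m * b ∈ I ⊔ Ideal.span {lin q} := by
  obtain ⟨j, g', hj, hg', hgI', hgl'⟩ := exists_notMem hI i hi g hg hgI hgl
  rcases lt_or_eq_of_le hj with hjM | hjM
  · obtain ⟨j', b, hj', hb⟩ := exists_socle (M - j) j g' hg' hgI'
      (fun h hh => lift_forms hfin hS hqS hq hjM hg' hgl' hh)
    exact ⟨j', b, by omega, hb⟩
  · exfalso
    subst hjM
    rw [Nat.sub_self, pow_zero, one_mul] at hgl'
    exact hgI' (Ideal.mem_sup_left hgl')

end Pool.Agent.Y204.LF
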