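import Pool.Agent.Y204.LF.Red

/-!
Unmixedness of ideals generated by regular sequences, regular sequences of small degree in a
complete intersection, and the sorted degree bound.
-/

open MvPolynomial
open Pool.Agent.W515.SLP (AnnP Deg annP_zero annP_of_gt annP_of_homog lin)
open H503R3.QCI (Homog comp_mul comp_mul_of_lt NZD Reg homog_span isSocleDegree_ci gr mem_gr)
open TH130CI

namespace Pool.Agent.Y204.LF

variable {K : Type*} [Field K] {n : ℕ}

/-- either a nonzerodivisor in the subspace, or one annihilated element -/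
theorem nzd_or_ass [Infinite K] (J : Ideal (MvPolynomial (Fin n) K))
    (U : Submodule K (MvPolynomial (Fin n) K)) :
    (∃ c ∈ U, NZD J c) ∨ ∃ w, w ∉ J ∧ ∀ u ∈ U, u * w ∈ J := by
  classical
  have hfin := associatedPrimes.finite (MvPolynomial (Fin n) K) (MvPolynomial (Fin n) K ⧸ J)
  let Vp : Ideal (MvPolynomial (Fin n) K) → Submodule K U :=
    fun p => (p.restrictScalars K).comap U.subtype
  by_cases hs : (⊤ : Submodule K U) ∈ hfin.toFinset.image Vp
  · right
    obtain ⟨p, hp, hpt⟩ := Finset.mem_image.mp hs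
    rw [Set.Finite.mem_toFinset] at hp
    obtain ⟨hprime, x, hx⟩ := (isAssociatedPrime_iff).mp hp
    obtain ⟨w, rfl⟩ := Ideal.Quotient.mk_surjective x
    have hmem : ∀ r, r ∈ p ↔ r * w ∈ J := by
      intro r
      rw [hx, Submodule.mem_colon_singleton, Submodule.mem_bot]
      have : r • Ideal.Quotient.mk J w = Ideal.Quotient.mk J (r * w) := rfl
      rw [this, Ideal.Quotient.eq_zero_iff_mem]
    refine ⟨w, ?_, ?_⟩
    · intro hw
      apply hprime.ne_top
      rw [Ideal.eq_top_iff_one, hmem, one_mul]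
      exact hw
    · intro u hu
      rw [← hmem]
      have h1 : (⟨u, hu⟩ : U) ∈ Vp p := by rw [hpt]; exact Submodule.mem_top
      exact h1
  · left
    have hne := Subspace.biUnion_ne_univ_of_top_notMem hs
    obtain ⟨c, hc⟩ := (Set.ne_univ_iff_exists_notMem _).mp hne
    refine ⟨c, c.2, ?_⟩
    rw [nzd_iff]
    intro p hp hcp
    apply hc
    refine Set.mem_biUnion (x := Vp p) ?_ ?_
    · exact Finset.mem_coe.mpr (Finset.mem_image.mpr
        ⟨p, (Set.Finite.mem_toFinset _).mpr hp, rfl⟩)
    · exact hcp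

/-- an element whose products with all forms of degree `a` lie in `Q` -/
lemma mem_of_forms {Q : Ideal (MvPolynomial (Fin n) K)} (hdep : ∀ w, (∀ i, X i * w ∈ Q) → w ∈ Q)
    (a : ℕ) : ∀ w : MvPolynomial (Fin n) K,
      (∀ h : MvPolynomial (Fin n) K, h.IsHomogeneous a → h * w ∈ Q) → w ∈ Q := by
  induction a with
  | zero =>
    intro w h
    have := h 1 (isHomogeneous_one _ _)
    rwa [one_mul] at this
  | succ a ih =>
    intro w h
    apply hdep
    intro i
    apply ih
    intro h' hh'
    have := h (h' * X i) (hh'.mul (isHomogeneous_X K i))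
    rwa [mul_assoc] at this

/-- a linear nonzerodivisor modulo a short regular sequence -/
lemma exists_lin_of_reg [Infinite K] {m : ℕ} (hm : m < n) {F : Fin m → MvPolynomial (Fin n) K}
    {e : Fin m → ℕ} (hF : ∀ i, (F i).IsHomogeneous (e i)) (he : ∀ i, 1 ≤ e i) (hreg : Reg F) :
    ∃ q : Fin n → K, NZD (Ideal.span (Set.range F)) (lin q) := by
  have hdep := no_socle hm _ F e hF he (sreg_of_reg hF he hreg) rfl
  rcases nzd_or_ass (Ideal.span (Set.range F)) (LinearMap.range (linL K n)) with h | h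
  · obtain ⟨c, ⟨q, rfl⟩, hc⟩ := h
    exact ⟨q, hc⟩
  · obtain ⟨w, hw, h⟩ := h
    exfalso
    apply hw
    apply hdep
    intro i
    apply h
    exact ⟨Pi.single i 1, linL_single i⟩

/-- a common linear nonzerodivisor -/
lemma exists_lin_two [Infinite K] {I1 I2 : Ideal (MvPolynomial (Fin n) K)}
    (h1 : ∃ q : Fin n → K, NZD I1 (lin q)) (h2 : ∃ q : Fin n → K, NZD I2 (lin q)) :
    ∃ q : Fin n → K, NZD I1 (lin q) ∧ NZD I2 (lin q) := by
  obtain ⟨q1, h1⟩ := h1
  obtain ⟨q2, h2⟩ := h2
  have f1 := openC_nzd I1 q1 h1 q2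
  have f2 := openC_nzd I2 q2 h2 q1
  have f2' : {t : K | t ≠ 0 ∧ ¬ NZD I2 (lin (q1 + t • q2))}.Finite := by
    have h3 : {t : K | t ≠ 0 ∧ ¬ NZD I2 (lin (q1 + t • q2))} ⊆
        (fun t : K => t⁻¹) '' {t : K | q2 + t • q1 ∉ {q : Fin n → K | NZD I2 (lin q)}} := by
      rintro t ⟨ht, h⟩
      refine ⟨t⁻¹, ?_, inv_inv t⟩
      intro hn
      apply h
      have hn' : NZD I2 (lin (q2 + t⁻¹ • q1)) := hn
      have e1 : q1 + t • q2 = t • (q2 + t⁻¹ • q1) := by
        rw [smul_add, smul_smul, mul_inv_cancel₀ ht, one_smul, add_comm]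
      intro x hx
      apply hn'
      rw [e1, lin_eq, map_smul, smul_mul_assoc, smul_eq_C_mul] at hx
      have hx' := I2.mul_mem_left (C t⁻¹) hx
      rwa [← mul_assoc, ← map_mul, inv_mul_cancel₀ ht, map_one, one_mul] at hx'
    exact (f2.image _).subset h3
  obtain ⟨t, ht⟩ := ((f1.union f2').union (Set.finite_singleton 0)).exists_notMem
  rw [Set.mem_union, Set.mem_union, not_or, not_or] at ht
  obtain ⟨⟨ha, hb⟩, hc⟩ := ht
  refine ⟨q1 + t • q2, ?_, ?_⟩
  · by_contra h
    exact ha h
  · by_contra h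
    exact hb ⟨hc, h⟩

/-- **Unmixedness**, homogeneous elements. -/
theorem no_kill_hom [Infinite K] (c : ℕ) : ∀ (k m : ℕ), k + c = n → m < k →
    ∀ (F : Fin k → MvPolynomial (Fin n) K) (e : Fin k → ℕ), (∀ i, (F i).IsHomogeneous (e i)) →
    (∀ i, 1 ≤ e i) → Reg F →
    ∀ (Q : Fin m → MvPolynomial (Fin n) K) (ε : Fin m → ℕ), (∀ i, (Q i).IsHomogeneous (ε i)) →
    (∀ i, 1 ≤ ε i) → Reg Q → ∀ (r : ℕ) (w : MvPolynomial (Fin n) K), w.IsHomogeneous r →
    (∀ i, F i * w ∈ Ideal.span (Set.range Q)) → w ∈ Ideal.span (Set.range Q) := by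
  classical
  induction c with
  | zero =>
    intro k m hk hmk F e hF he hFreg Q ε hQ hε hQreg r w _ hw
    obtain rfl : k = n := by omega
    have hdep := no_socle hmk _ Q ε hQ hε (sreg_of_reg hQ hε hQreg) rfl
    refine mem_of_forms hdep (∑ i, (e i - 1) + 1) w fun h hh => ?_
    have h1 := (isSocleDegree_ci F e hF he hFreg).2 _ (Nat.lt_succ_self _) h hh
    have h2 : Ideal.span (Set.range F) ≤
        Submodule.comap (LinearMap.mulRight (MvPolynomial (Fin k) K) w)
          (Ideal.span (Set.range Q)) := by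
      rw [Ideal.span_le]
      rintro _ ⟨i, rfl⟩
      exact hw i
    exact h2 h1
  | succ c ih =>
    intro k m hk hmk F e hF he hFreg Q ε hQ hε hQreg
    obtain ⟨q, hq1, hq2⟩ := exists_lin_two (exists_lin_of_reg (by omega : k < n) hF he hFreg)
      (exists_lin_of_reg (by omega : m < n) hQ hε hQreg)
    have hQh : Homog (Ideal.span (Set.range Q)) :=
      homog_span (by rintro _ ⟨i, rfl⟩; exact ⟨ε i, hQ i⟩)
    have hsn : Ideal.span (Set.range (Fin.snoc Q (lin q) : Fin (m + 1) → MvPolynomial (Fin n) K)) =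
        Ideal.span (Set.range Q) ⊔ Ideal.span {lin q} := by
      rw [range_snoc', Ideal.span_union]
    intro r
    induction r with
    | zero =>
      intro w hwr hw
      have h1 := ih (k + 1) (m + 1) (by omega) (by omega) (Fin.snoc F (lin q)) (Fin.snoc e 1)
        (by
          intro i
          refine Fin.lastCases ?_ (fun j => ?_) i
          · rw [Fin.snoc_last, Fin.snoc_last]; exact lin_homog q
          · rw [Fin.snoc_castSucc, Fin.snoc_castSucc]; exact hF j)
        (by
          intro i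
          refine Fin.lastCases ?_ (fun j => ?_) i
          · rw [Fin.snoc_last]
          · rw [Fin.snoc_castSucc]; exact he j)
        (reg_snoc hFreg hq1) (Fin.snoc Q (lin q)) (Fin.snoc ε 1)
        (by
          intro i
          refine Fin.lastCases ?_ (fun j => ?_) i
          · rw [Fin.snoc_last, Fin.snoc_last]; exact lin_homog q
          · rw [Fin.snoc_castSucc, Fin.snoc_castSucc]; exact hQ j)
        (by
          intro i
          refine Fin.lastCases ?_ (fun j => ?_) i
          · rw [Fin.snoc_last]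
          · rw [Fin.snoc_castSucc]; exact hε j)
        (reg_snoc hQreg hq2) 0 w hwr
        (by
          rw [hsn]
          intro i
          refine Fin.lastCases ?_ (fun j => ?_) i
          · rw [Fin.snoc_last]
            exact Ideal.mem_sup_right (Ideal.mul_mem_right _ _
              (Ideal.mem_span_singleton_self _))
          · rw [Fin.snoc_castSucc]; exact Ideal.mem_sup_left (hw j))
      rw [hsn] at h1
      rcases sup_comp' hQh (lin_homog q) hwr h1 with ⟨h2, -⟩ | h2
      · omega
      · exact h2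
    | succ r ihr =>
      intro w hwr hw
      have h1 := ih (k + 1) (m + 1) (by omega) (by omega) (Fin.snoc F (lin q)) (Fin.snoc e 1)
        (by
          intro i
          refine Fin.lastCases ?_ (fun j => ?_) i
          · rw [Fin.snoc_last, Fin.snoc_last]; exact lin_homog q
          · rw [Fin.snoc_castSucc, Fin.snoc_castSucc]; exact hF j)
        (by
          intro i
          refine Fin.lastCases ?_ (fun j => ?_) i
          · rw [Fin.snoc_last]
          · rw [Fin.snoc_castSucc]; exact he j)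
        (reg_snoc hFreg hq1) (Fin.snoc Q (lin q)) (Fin.snoc ε 1)
        (by
          intro i
          refine Fin.lastCases ?_ (fun j => ?_) i
          · rw [Fin.snoc_last, Fin.snoc_last]; exact lin_homog q
          · rw [Fin.snoc_castSucc, Fin.snoc_castSucc]; exact hQ j)
        (by
          intro i
          refine Fin.lastCases ?_ (fun j => ?_) i
          · rw [Fin.snoc_last]
          · rw [Fin.snoc_castSucc]; exact hε j)
        (reg_snoc hQreg hq2) (r + 1) w hwr
        (by
          rw [hsn]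
          intro i
          refine Fin.lastCases ?_ (fun j => ?_) i
          · rw [Fin.snoc_last]
            exact Ideal.mem_sup_right (Ideal.mul_mem_right _ _
              (Ideal.mem_span_singleton_self _))
          · rw [Fin.snoc_castSucc]; exact Ideal.mem_sup_left (hw j))
      rw [hsn] at h1
      rcases sup_comp' hQh (lin_homog q) hwr h1 with ⟨h2, w1, hw1, h3⟩ | h2
      · rw [Nat.add_sub_cancel] at hw1
        have h4 : w1 ∈ Ideal.span (Set.range Q) := by
          refine ihr w1 hw1 fun i => ?_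
          apply hq2
          have h5 := Ideal.sub_mem _ (hw i) (Ideal.mul_mem_left _ (F i) h3)
          have h6 : F i * w - F i * (w - lin q * w1) = lin q * (F i * w1) := by ring
          rwa [h6] at h5
        have h5 := Ideal.add_mem _ h3 (Ideal.mul_mem_left _ (lin q) h4)
        rwa [sub_add_cancel] at h5
      · exact h2

/-- **Unmixedness.**  A regular sequence which kills an element modulo an ideal generated by a
shorter regular sequence. -/
theorem no_kill [Infinite K] {k m : ℕ} (hkn : k ≤ n) (hmk : m < k)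
    {F : Fin k → MvPolynomial (Fin n) K} {e : Fin k → ℕ} (hF : ∀ i, (F i).IsHomogeneous (e i))
    (he : ∀ i, 1 ≤ e i) (hFreg : Reg F)
    {Q : Fin m → MvPolynomial (Fin n) K} {ε : Fin m → ℕ} (hQ : ∀ i, (Q i).IsHomogeneous (ε i))
    (hε : ∀ i, 1 ≤ ε i) (hQreg : Reg Q) {w : MvPolynomial (Fin n) K}
    (hw : ∀ i, F i * w ∈ Ideal.span (Set.range Q)) : w ∈ Ideal.span (Set.range Q) := by
  have hQh : Homog (Ideal.span (Set.range Q)) :=
    homog_span (by rintro _ ⟨i, rfl⟩; exact ⟨ε i, hQ i⟩)
  rw [← sum_homogeneousComponent w]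
  refine Ideal.sum_mem _ fun r _ => ?_
  refine no_kill_hom (n - k) k m (by omega) hmk F e hF he hFreg Q ε hQ hε hQreg r _
    (homogeneousComponent_isHomogeneous r w) fun i => ?_
  have h1 := hQh _ (hw i) (e i + r)
  rwa [comp_mul (hF i)] at h1

lemma reg_prefix {m k : ℕ} (h : m ≤ k) {a : Fin k → MvPolynomial (Fin n) K} (ha : Reg a) :
    Reg (fun i : Fin m => a (Fin.castLE h i)) := by
  intro i
  have h1 := ha (Fin.castLE h i)
  have h2 : (fun i : Fin m => a (Fin.castLE h i)) '' {j | j < i} =
      a '' {j | j < Fin.castLE h i} := by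
    ext x
    constructor
    · rintro ⟨j, hj, rfl⟩
      exact ⟨Fin.castLE h j, hj, rfl⟩
    · rintro ⟨j, hj, rfl⟩
      have hj' : j.1 < i.1 := hj
      exact ⟨⟨j.1, by omega⟩, hj', rfl⟩
  rw [h2]
  exact h1

/-- the numbers `e_i - 1` as a function on `ℕ` -/
def em (e : Fin n → ℕ) (i : ℕ) : ℕ := if h : i < n then e ⟨i, h⟩ - 1 else 0

lemma sum_em (e : Fin n → ℕ) : ∑ i, (e i - 1) = ∑ i ∈ Finset.range n, em e i := by
  rw [Finset.sum_range]
  refine Finset.sum_congr rfl fun i _ => ?_
  rw [em, dif_pos i.2]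

/-- a regular sequence in an Artinian complete intersection is completed by forms of the complete
intersection of the corresponding (sorted) degrees -/
theorem extend_sorted [Infinite K] {a : Fin n → MvPolynomial (Fin n) K} {e : Fin n → ℕ}
    (ha : ∀ i, (a i).IsHomogeneous (e i)) (he : ∀ i, 1 ≤ e i) (hreg : Reg a) (hmono : Monotone e)
    {v : ℕ} {g : Fin v → MvPolynomial (Fin n) K} {ε : Fin v → ℕ}
    (hg : ∀ i, (g i).IsHomogeneous (ε i)) (hε : ∀ i, 1 ≤ ε i) (hgreg : Reg g) :
    ∀ k, v + k ≤ n → ∃ (p : ℕ) (_ : p = v + k) (F : Fin p → MvPolynomial (Fin n) K)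
      (e' : Fin p → ℕ), Reg F ∧ (∀ i, (F i).IsHomogeneous (e' i)) ∧ (∀ i, 1 ≤ e' i) ∧
      ∑ i, (e' i - 1) = ∑ i, (ε i - 1) + ∑ i ∈ Finset.range k, em e (v + i) ∧
      (∀ i, F i ∈ Ideal.span (Set.range a) ⊔ Ideal.span (Set.range g)) ∧
      (∀ i, F i ∈ Ideal.span (Set.range g) ∨ ∃ k' : Fin n, v ≤ k'.1 ∧ e' i = e k') ∧
      (∀ i, g i ∈ Ideal.span (Set.range F)) := by
  classical
  intro k
  induction k with
  | zero =>
    intro _
    exact ⟨v, rfl, g, ε, hgreg, hg, hε, by simp, fun i =>
      Ideal.mem_sup_right (Ideal.subset_span ⟨i, rfl⟩), fun i =>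
      Or.inl (Ideal.subset_span ⟨i, rfl⟩), fun i => Ideal.subset_span ⟨i, rfl⟩⟩
  | succ k ih =>
    intro hk
    obtain ⟨p, hp, F, e', hF, hFe, he', hsum, hmem, hdeg, hgF⟩ := ih (by omega)
    have hpn : p < n := by omega
    have hdep : ∀ w, (∀ i, X i * w ∈ Ideal.span (Set.range F)) → w ∈ Ideal.span (Set.range F) :=
      no_socle hpn _ F e' hFe he' (sreg_of_reg hFe he' hF) rfl
    set D := e ⟨p, hpn⟩ with hD
    have hem : em e (v + k) = D - 1 := by
      rw [← hp, em, dif_pos hpn]
    obtain ⟨c, hcU, hc⟩ : ∃ c ∈ gr (Ideal.span (Set.range a)) D, NZD (Ideal.span (Set.range F)) c := by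
      rcases nzd_or_ass (Ideal.span (Set.range F)) (gr (Ideal.span (Set.range a)) D) with h | h
      · exact h
      · exfalso
        obtain ⟨w, hw, h⟩ := h
        apply hw
        refine no_kill (k := p + 1) (by omega) (Nat.lt_succ_self p)
          (F := fun i => a (Fin.castLE (by omega) i)) (e := fun i => e (Fin.castLE (by omega) i))
          (fun i => ha _) (fun i => he _) (reg_prefix (by omega) hreg) hFe he' hF
          fun i => ?_
        have hle : e (Fin.castLE (by omega) i) ≤ D := by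
          apply hmono
          rw [Fin.le_def]
          exact Nat.lt_succ_iff.mp i.2
        refine mem_of_forms hdep (D - e (Fin.castLE (by omega) i)) _ fun h' hh' => ?_
        rw [← mul_assoc]
        apply h
        refine mem_gr.mpr ⟨Ideal.mul_mem_left _ _ (Ideal.subset_span ⟨_, rfl⟩), ?_⟩
        have h3 := hh'.mul (ha (Fin.castLE (by omega) i))
        rwa [Nat.sub_add_cancel hle] at h3
    obtain ⟨hcJ, hcD⟩ := mem_gr.mp hcU
    refine ⟨p + 1, by omega, Fin.snoc F c, Fin.snoc e' D, reg_snoc hF hc, ?_, ?_, ?_, ?_, ?_, ?_⟩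
    · intro i
      refine Fin.lastCases ?_ (fun j => ?_) i
      · rw [Fin.snoc_last, Fin.snoc_last]; exact hcD
      · rw [Fin.snoc_castSucc, Fin.snoc_castSucc]; exact hFe j
    · intro i
      refine Fin.lastCases ?_ (fun j => ?_) i
      · rw [Fin.snoc_last]; exact he _
      · rw [Fin.snoc_castSucc]; exact he' j
    · rw [Fin.sum_univ_castSucc]
      simp only [Fin.snoc_castSucc, Fin.snoc_last]
      rw [hsum, Finset.sum_range_succ, hem]
      ring
    · intro i
      refine Fin.lastCases ?_ (fun j => ?_) i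
      · rw [Fin.snoc_last]; exact Ideal.mem_sup_left hcJ
      · rw [Fin.snoc_castSucc]; exact hmem j
    · intro i
      refine Fin.lastCases ?_ (fun j => ?_) i
      · right
        refine ⟨⟨p, hpn⟩, by change v ≤ p; omega, ?_⟩
        rw [Fin.snoc_last]
      · rw [Fin.snoc_castSucc, Fin.snoc_castSucc]; exact hdeg j
    · intro i
      rw [range_snoc', Ideal.span_union]
      exact Ideal.mem_sup_left (hgF i)

/-- **Sorted degree bound.** -/
theorem bound_sorted [Infinite K] {a : Fin n → MvPolynomial (Fin n) K} {e : Fin n → ℕ}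
    (ha : ∀ i, (a i).IsHomogeneous (e i)) (he : ∀ i, 1 ≤ e i) (hreg : Reg a) (hmono : Monotone e)
    {v : ℕ} (hvn : v ≤ n) {g : Fin v → MvPolynomial (Fin n) K} {ε : Fin v → ℕ}
    (hg : ∀ i, (g i).IsHomogeneous (ε i)) (hε : ∀ i, 1 ≤ ε i) (hgreg : Reg g)
    {b : MvPolynomial (Fin n) K} {j : ℕ} (hb : b.IsHomogeneous j)
    (hbJ : b ∉ Ideal.span (Set.range a)) (hgb : ∀ i, g i * b ∈ Ideal.span (Set.range a)) :
    ∑ i ∈ Finset.range v, em e i ≤ j + ∑ i, (ε i - 1) := by
  classical
  by_contra hcon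
  push Not at hcon
  obtain ⟨p, hp, F, e', hF, hFe, he', hsum, hmem, -, -⟩ := extend_sorted ha he hreg hmono hg hε
    hgreg (n - v) (by omega)
  obtain rfl : p = n := by omega
  obtain ⟨φ, hφ, hI⟩ := ci_gor ha he hreg
  have hσ0 : ∑ i, (e i - 1) = ∑ i ∈ Finset.range v, em e i +
      ∑ i ∈ Finset.range (p - v), em e (v + i) := by
    have h := Finset.sum_range_add (em e) v (p - v)
    rw [Nat.add_sub_cancel' hvn] at h
    rw [sum_em, h]
  set σ := ∑ i, (e i - 1) with hσ
  have hjσ : j ≤ σ := by omega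
  have h1 : ¬ AnnP φ b := by
    intro h
    apply hbJ
    rw [hI]
    exact h
  have h2 : ∃ h : MvPolynomial (Fin p) K, h.IsHomogeneous (σ - j) ∧ φ (b * h) ≠ 0 := by
    by_contra hc
    push Not at hc
    exact h1 (annP_of_homog hφ hjσ hb hc)
  obtain ⟨h, hh, hbh⟩ := h2
  have h3 : h ∈ Ideal.span (Set.range F) := by
    apply (isSocleDegree_ci F e' hFe he' hF).2 (σ - j) _ h hh
    rw [hsum]
    omega
  have h4 : ∀ x ∈ Ideal.span (Set.range a) ⊔ Ideal.span (Set.range g),
      b * x ∈ Ideal.span (Set.range a) := by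
    intro x hx
    obtain ⟨x1, hx1, x2, hx2, rfl⟩ := Submodule.mem_sup.mp hx
    rw [mul_add]
    refine Ideal.add_mem _ (Ideal.mul_mem_left _ _ hx1) ?_
    obtain ⟨c, rfl⟩ := Ideal.mem_span_range_iff_exists_fun.mp hx2
    rw [Finset.mul_sum]
    refine Ideal.sum_mem _ fun i _ => ?_
    have h5 : b * (c i * g i) = c i * (g i * b) := by ring
    rw [h5]
    exact Ideal.mul_mem_left _ _ (hgb i)
  have h5 : Ideal.span (Set.range F) ≤ Ideal.span (Set.range a) ⊔ Ideal.span (Set.range g) := by
    rw [Ideal.span_le]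
    rintro _ ⟨i, rfl⟩
    exact hmem i
  have h6 := h4 h (h5 h3)
  rw [hI] at h6
  have h7 := h6 1
  rw [mul_one] at h7
  exact hbh h7

end Pool.Agent.Y204.LF
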